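import Mathlib

/-!
# CUBIC STABILITY, block S, leaf A1: a cocycle which is a coboundary on a subgroup of index three

`act` is an action of the group `G` on `A`, `χ : G → ZMod 3` a homomorphism (possibly `0`); the subgroup is `χ = 0`.
Compare `two_cob` in MP_1a91b9_ntC/Sh/A.lean.
-/

set_option autoImplicit false

namespace Pool.Agent.Lib.MP_1a91b9_ntCS.S

/-- A cocycle which is a coboundary on the kernel of `χ` becomes a coboundary after multiplication by three.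

PROOF. If `χ σ = 0` for all `σ`: `R = 3 • P`. Otherwise there is `ρ` with `χ ρ ≠ 0`, and with `χ ρ = 1` (`ρ` or `ρ * ρ`; `χ 1 = 0`, `χ σ⁻¹ = - χ σ`).
Put `c' σ = c σ - (act σ P - P)`, again a cocycle (`c' (σ * τ) = c' σ + act σ (c' τ)`), zero if `χ σ = 0`. So `c' (σ * τ) = c' σ` if `χ τ = 0`,
so `c' σ` depends only on `χ σ` (`σ' = σ * (σ⁻¹ * σ')`). Let `r 0 = 1`, `r 1 = ρ`, `r 2 = ρ * ρ` (`χ (r i) = i`) and
`T = c' (r 0) + c' (r 1) + c' (r 2)` (a sum over `ZMod 3`). `act σ (c' (r i)) = c' (σ * r i) - c' σ = c' (r (χ σ + i)) - c' σ`, so `act σ T = T - 3 • c' σ`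
(reindex the sum, `Fintype.sum_equiv (Equiv.addLeft (χ σ))`), and `R = 3 • P - T` works. -/
theorem three_cob {G A : Type*} [Group G] [AddCommGroup A] (act : G → A →+ A)
    (h1 : ∀ a, act 1 a = a) (hm : ∀ σ τ a, act (σ * τ) a = act σ (act τ a)) (χ : G → ZMod 3)
    (hχ : ∀ σ τ, χ (σ * τ) = χ σ + χ τ) (c : G → A)
    (hc : ∀ σ τ, c (σ * τ) = c σ + act σ (c τ)) (P : A) (h0 : ∀ σ, χ σ = 0 → c σ = act σ P - P) :
    ∃ R : A, ∀ σ, 3 • c σ = act σ R - R := by
  have x1 : χ 1 = 0 := by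
    have := hχ 1 1
    rw [one_mul] at this
    exact left_eq_add.1 this
  have xi : ∀ σ, χ σ⁻¹ = - χ σ := by
    intro σ
    have := hχ σ σ⁻¹
    rw [mul_inv_cancel, x1] at this
    exact (neg_eq_of_add_eq_zero_right this.symm).symm
  by_cases hG : ∀ σ, χ σ = 0
  · refine ⟨3 • P, fun σ => ?_⟩
    rw [h0 σ (hG σ), map_nsmul, nsmul_sub]
  · push Not at hG
    obtain ⟨ρ, hρ⟩ : ∃ ρ, χ ρ = 1 := by
      obtain ⟨ρ, hρ⟩ := hG
      have h3 : ∀ x : ZMod 3, x ≠ 0 → x = 1 ∨ x + x = 1 := by decide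
      rcases h3 _ hρ with h | h
      · exact ⟨ρ, h⟩
      · exact ⟨ρ * ρ, by rw [hχ, h]⟩
    obtain ⟨c', hc'⟩ : ∃ c' : G → A, ∀ σ, c' σ = c σ - (act σ P - P) := ⟨_, fun _ => rfl⟩
    have d1 : ∀ σ τ, c' (σ * τ) = c' σ + act σ (c' τ) := by
      intro σ τ
      rw [hc', hc', hc', hc, hm, map_sub, map_sub]
      abel
    have d0 : ∀ σ, χ σ = 0 → c' σ = 0 := by
      intro σ hσ
      rw [hc', h0 σ hσ, sub_self]
    have d2 : ∀ σ τ, χ σ = χ τ → c' σ = c' τ := by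
      intro σ τ h
      have h2 : τ = σ * (σ⁻¹ * τ) := by group
      rw [h2, d1, d0 (σ⁻¹ * τ) (by rw [hχ, xi, h, neg_add_cancel]), map_zero, add_zero]
    obtain ⟨r, hr⟩ : ∃ r : ZMod 3 → G, ∀ i, χ (r i) = i := by
      refine ⟨fun i => if i = 0 then 1 else if i = 1 then ρ else ρ * ρ, fun i => ?_⟩
      fin_cases i
      · exact x1
      · exact hρ
      · change χ (ρ * ρ) = 2
        rw [hχ, hρ]
        rfl
    refine ⟨3 • P - ∑ i, c' (r i), fun σ => ?_⟩
    have h4 : act σ (∑ i, c' (r i)) = ∑ i, c' (r i) - 3 • c' σ := by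
      rw [map_sum]
      have h5 : ∀ i, act σ (c' (r i)) = c' (r (χ σ + i)) - c' σ := by
        intro i
        have h6 : c' (σ * r i) = c' (r (χ σ + i)) := d2 _ _ (by rw [hχ, hr, hr])
        rw [d1] at h6
        rw [← h6]
        abel
      rw [Finset.sum_congr rfl fun i _ => h5 i, Finset.sum_sub_distrib, Finset.sum_const,
        Finset.card_univ, ZMod.card]
      congr 1
      exact Fintype.sum_equiv (Equiv.addLeft (χ σ)) _ _ fun i => rfl
    have h7 : c σ = c' σ + (act σ P - P) := by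
      rw [hc']
      abel
    rw [h7, map_sub, h4, map_nsmul, nsmul_add, nsmul_sub]
    abel

end Pool.Agent.Lib.MP_1a91b9_ntCS.S
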