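import Pool.Agent.Lib.MP_1a91b9_nuT.CT.Sb

/-!
# CUBIC STABILITY, block S, leaf X: the Kummer character of a cube root
-/

set_option autoImplicit false
set_option linter.unusedSectionVars false

namespace Pool.Agent.Lib.MP_1a91b9_ntCS.S

open WeierstrassCurve Pool.Agent.Lib.MP_1a91b9_nuT.S9
open Pool.Agent.Lib.MP_1a91b9_nuT.CT
open scoped Classical

variable {k : Type} [Field k] [CharZero k]

/-- `σ w = z ^ χ(σ) w` -/
noncomputable def chi (w : AlgebraicClosure k) (z : k) (σ : Gal k) : ZMod 3 :=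
  if σ w = w then 0 else if σ w = algebraMap k (AlgebraicClosure k) z * w then 1 else 2

private theorem X_map_rel {z : k} (hz : z ^ 2 + z + 1 = 0) :
    algebraMap k (AlgebraicClosure k) z ^ 2 + algebraMap k (AlgebraicClosure k) z + 1 = 0 := by
  have h := congrArg (algebraMap k (AlgebraicClosure k)) hz
  simpa only [map_add, map_pow, map_one, map_zero] using h

private theorem X_cube {Z : AlgebraicClosure k} (hZ : Z ^ 2 + Z + 1 = 0) : Z ^ 3 = 1 := by
  linear_combination (Z - 1) * hZ

private theorem X_ne_one {Z : AlgebraicClosure k} (hZ : Z ^ 2 + Z + 1 = 0) : Z ≠ 1 := by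
  intro h
  rw [h] at hZ
  have h3 : (3 : AlgebraicClosure k) = 0 := by linear_combination hZ
  exact three_ne_zero h3

private theorem X_ne_zero {w : AlgebraicClosure k} {e : k}
    (hw : w ^ 3 = algebraMap k (AlgebraicClosure k) e) (he : e ≠ 0) : w ≠ 0 := by
  intro h
  rw [h, zero_pow three_ne_zero] at hw
  exact he ((_root_.map_eq_zero (algebraMap k (AlgebraicClosure k))).mp hw.symm)

private theorem X_pow_mod {Z : AlgebraicClosure k} (h3 : Z ^ 3 = 1) (n : ℕ) :
    Z ^ n = Z ^ (n % 3) := by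
  conv_lhs => rw [← Nat.div_add_mod n 3, pow_add, pow_mul, h3, one_pow, one_mul]

/-- PROOF. By definition if `chi = 0` or `1`. `(σ w)³ = σ (w³) = w³`, so with `Z = algebraMap z`, `Z³ = 1`:
`(σ w - w) * (σ w - Z w) * (σ w - Z² w) = (σ w)³ - w³ = 0` (`Z² + Z + 1 = 0`). -/
theorem chi_spec {w : AlgebraicClosure k} {e z : k} (hw : w ^ 3 = algebraMap k (AlgebraicClosure k) e)
    (hz : z ^ 2 + z + 1 = 0) (σ : Gal k) :
    σ w = algebraMap k (AlgebraicClosure k) z ^ (chi w z σ).val * w := by
  have hZ := X_map_rel (k := k) hz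
  unfold chi
  split_ifs with h1 h2
  · rw [ZMod.val_zero, pow_zero, one_mul, h1]
  · have e1 : ((1 : ZMod 3)).val = 1 := rfl
    rw [e1, pow_one, h2]
  · have e2 : ((2 : ZMod 3)).val = 2 := rfl
    rw [e2]
    have h3 : (σ w) ^ 3 = w ^ 3 := by
      rw [← map_pow, hw, AlgEquiv.commutes]
    have h4 : (σ w - w) * ((σ w - algebraMap k (AlgebraicClosure k) z * w) *
        (σ w - algebraMap k (AlgebraicClosure k) z ^ 2 * w)) = 0 := by
      generalize algebraMap k (AlgebraicClosure k) z = Z at hZ ⊢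
      linear_combination h3 + (- (σ w) ^ 2 * w + Z * (σ w) * w ^ 2 - (Z - 1) * w ^ 3) * hZ
    rcases mul_eq_zero.mp h4 with h5 | h5
    · exact absurd (sub_eq_zero.mp h5) h1
    · rcases mul_eq_zero.mp h5 with h6 | h6
      · exact absurd (sub_eq_zero.mp h6) h2
      · exact sub_eq_zero.mp h6

/-- PROOF. The definition (`1 ≠ 0`, `2 ≠ 0` in `ZMod 3`). -/
theorem chi_zero {w : AlgebraicClosure k} {z : k} (σ : Gal k) : chi w z σ = 0 ↔ σ w = w := by
  unfold chi
  constructor
  · intro h
    by_contra h1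
    rw [if_neg h1] at h
    split_ifs at h with h2
    · exact absurd h (by decide)
    · exact absurd h (by decide)
  · intro h
    rw [if_pos h]

/-- If `σ w = z ^ n w` then `chi σ = n`. PROOF. `w ≠ 0`, `Z ^ (chi σ).val = Z ^ n`, `Z = algebraMap z` has order exactly three (`Z ≠ 1` because `3 ≠ 0`;
`Z³ = 1`), so `3` divides the difference (`IsPrimitiveRoot`, or cases modulo three). -/
theorem chi_eq {w : AlgebraicClosure k} {e z : k} (hw : w ^ 3 = algebraMap k (AlgebraicClosure k) e)
    (he : e ≠ 0) (hz : z ^ 2 + z + 1 = 0) {σ : Gal k} {n : ℕ}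
    (h : σ w = algebraMap k (AlgebraicClosure k) z ^ n * w) : chi w z σ = (n : ZMod 3) := by
  have hZ := X_map_rel (k := k) hz
  have hZ3 := X_cube hZ
  have hZ1 := X_ne_one hZ
  have hw0 := X_ne_zero hw he
  have hZ0 : algebraMap k (AlgebraicClosure k) z ≠ 0 := by
    intro h0
    rw [h0, zero_pow three_ne_zero] at hZ3
    exact zero_ne_one hZ3
  rw [X_pow_mod hZ3 n] at h
  have hn : (n : ZMod 3) = ((n % 3 : ℕ) : ZMod 3) := by
    rw [ZMod.natCast_mod]
  rw [hn]
  have hlt : n % 3 < 3 := Nat.mod_lt _ (by norm_num)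
  have e1 : algebraMap k (AlgebraicClosure k) z * w ≠ w := by
    intro h0
    apply hZ1
    apply mul_right_cancel₀ hw0
    rw [h0, one_mul]
  generalize n % 3 = m at h hlt
  unfold chi
  interval_cases m
  · rw [pow_zero, one_mul] at h
    rw [if_pos h, Nat.cast_zero]
  · rw [pow_one] at h
    rw [if_neg (by rw [h]; exact e1), if_pos h, Nat.cast_one]
  · have e2 : algebraMap k (AlgebraicClosure k) z ^ 2 * w ≠ w := by
      intro h0
      have h1 : algebraMap k (AlgebraicClosure k) z ^ 2 = 1 := by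
        apply mul_right_cancel₀ hw0
        rw [h0, one_mul]
      apply hZ1
      rw [pow_succ, h1, one_mul] at hZ3
      exact hZ3
    have e3 : algebraMap k (AlgebraicClosure k) z ^ 2 * w ≠
        algebraMap k (AlgebraicClosure k) z * w := by
      intro h0
      have h1 : algebraMap k (AlgebraicClosure k) z ^ 2 = algebraMap k (AlgebraicClosure k) z :=
        mul_right_cancel₀ hw0 h0
      apply hZ1
      apply mul_right_cancel₀ hZ0
      rw [← pow_two, h1, one_mul]
    rw [if_neg (by rw [h]; exact e2), if_neg (by rw [h]; exact e3)]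
    rfl

/-- PROOF. `chi_spec`, `chi_eq`: `(σ * τ) w = σ (Z ^ b w) = Z ^ b Z ^ a w`; `((a + b : ℕ) : ZMod 3) = chi σ + chi τ` (`ZMod.natCast_zmod_val`). -/
theorem chi_mul {w : AlgebraicClosure k} {e z : k} (hw : w ^ 3 = algebraMap k (AlgebraicClosure k) e)
    (he : e ≠ 0) (hz : z ^ 2 + z + 1 = 0) (σ τ : Gal k) :
    chi w z (σ * τ) = chi w z σ + chi w z τ := by
  have h1 := chi_spec hw hz σ
  have h2 := chi_spec hw hz τ
  have h3 : (σ * τ) w = algebraMap k (AlgebraicClosure k) z ^
      ((chi w z σ).val + (chi w z τ).val) * w := by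
    rw [AlgEquiv.mul_apply, h2, map_mul, map_pow, AlgEquiv.commutes]
    conv_lhs => rw [h1]
    rw [pow_add]
    ring
  rw [chi_eq hw he hz h3, Nat.cast_add, ZMod.natCast_zmod_val, ZMod.natCast_zmod_val]

/-- PROOF. If all `chi σ` were `0`, `w` would be fixed and in `k` (`fixed_elem`, used in MP_1a91b9_ntC/Sh/F.lean). So there is `ρ` with
`chi ρ = 1` or `2`; in the second case `ρ * ρ` has `chi = 4 = 1`. `r i = if i = 0 then 1 else if i = 1 then ρ else ρ * ρ`; `chi 1 = 0` (`chi_zero`). -/
theorem chi_r {w : AlgebraicClosure k} {e z : k} (hw : w ^ 3 = algebraMap k (AlgebraicClosure k) e)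
    (he : e ≠ 0) (hz : z ^ 2 + z + 1 = 0) (hn : ¬ ∃ y : k, algebraMap k (AlgebraicClosure k) y = w) :
    ∃ r : ZMod 3 → Gal k, r 0 = 1 ∧ ∀ i, chi w z (r i) = i := by
  have h1 : ∃ ρ : Gal k, chi w z ρ = 1 := by
    by_contra hcon
    push Not at hcon
    apply hn
    have h2 : ∀ σ : Gal k, σ w = w := by
      intro σ
      rw [← chi_zero (z := z)]
      have h3 := hcon σ
      have h4 := hcon (σ * σ)
      rw [chi_mul hw he hz] at h4
      revert h3 h4
      generalize chi w z σ = c
      revert c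
      decide
    have h5 : w ∈ (⊥ : IntermediateField k (AlgebraicClosure k)) :=
      (InfiniteGalois.mem_bot_iff_fixed w).mpr h2
    exact IntermediateField.mem_bot.mp h5
  obtain ⟨ρ, hρ⟩ := h1
  have h0 : chi w z (1 : Gal k) = 0 := by
    rw [chi_zero]
    rfl
  refine ⟨fun i => if i = 0 then 1 else if i = 1 then ρ else ρ * ρ, ?_, ?_⟩
  · exact if_pos rfl
  · intro i
    by_cases hi : i = 0
    · subst hi
      show chi w z (if (0 : ZMod 3) = 0 then 1 else if (0 : ZMod 3) = 1 then ρ else ρ * ρ) = 0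
      rw [if_pos rfl, h0]
    · by_cases hi1 : i = 1
      · subst hi1
        show chi w z (if (1 : ZMod 3) = 0 then 1 else if (1 : ZMod 3) = 1 then ρ else ρ * ρ) = 1
        rw [if_neg hi, if_pos rfl, hρ]
      · show chi w z (if i = 0 then 1 else if i = 1 then ρ else ρ * ρ) = i
        rw [if_neg hi, if_neg hi1, chi_mul hw he hz, hρ]
        revert hi hi1
        revert i
        decide

end Pool.Agent.Lib.MP_1a91b9_ntCS.S
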