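import Pool.Agent.Lib.MP_1a91b9_ntCS.S.K1
import Pool.Agent.Lib.MP_1a91b9_ntCS.S.L

/-!
# CUBIC STABILITY, block S, leaf K2: the descent of a cocycle of `Sha`
-/

set_option autoImplicit false
set_option linter.unusedSectionVars false

namespace Pool.Agent.Lib.MP_1a91b9_ntCS.S

open WeierstrassCurve Pool.Agent.Lib.MP_1a91b9_nuT.S9 NumberField IsDedekindDomain
open Pool.Agent.Lib.MP_1a91b9_nuT.CT Pool.Agent.Lib.MP_1a91b9_nuT.S5 Pool.Agent.Lib.MP_1a91b9_ntC.Sh
open scoped Classical

variable [Pool.Agent.Lib.MP_1a91b9_nuT.CD]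

/-- The descent of a cocycle of `Sha`.

PROOF. Copy of `desc_sha` in MP_1a91b9_ntC/Sh/K.lean with `exists_compL3` and `loc_desc3`. -/
theorem desc_sha3 {N A : Type} [Field N] [NumberField N] [Field A] [NumberField A] [Algebra N A]
    (hc : ∀ v : InfinitePlace N, v.IsComplex) {x₀ : A} {e z : N} (hx : x₀ ^ 3 = algebraMap N A e)
    (he : e ≠ 0) (hz : z ^ 2 + z + 1 = 0)
    (hx' : ∀ z : A, ∃ α β γ : N, z = algebraMap N A α + algebraMap N A β * x₀ +
      algebraMap N A γ * x₀ ^ 2)
    {W : WeierstrassCurve N} {W' : WeierstrassCurve A} {C : VariableChange A}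
    (hC : C • W.baseChange A = W') (j : AlgebraicClosure N ≃ₐ[N] AlgebraicClosure A)
    (c : Gal N → Pts W (AlgebraicClosure N)) (hcc : c ∈ coc W) (h : res hC j c ∈ shaCoc W') :
    3 • c ∈ shaCoc W := by
  have hfin : FiniteDimensional N A := Module.Finite.of_restrictScalars_finite ℚ N A
  have halg : Algebra.IsAlgebraic N A := Algebra.IsAlgebraic.of_finite N A
  have h1 : 3 • c ∈ coc W := AddSubgroup.nsmul_mem _ hcc 3
  have h3 : ∀ v : HeightOneSpectrum (𝓞 N), 3 • c ∈ trivOver W (v.adicCompletion N) := by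
    intro v
    obtain ⟨w, rfl⟩ := exists_above (K := N) A v
    obtain ⟨φ, hφ, hφ2, hφ3⟩ := exists_compL3 w hx'
    have : CharZero ((below N w).adicCompletion N) :=
      charZero_of_injective_algebraMap (algebraMap N ((below N w).adicCompletion N)).injective
    let _ : Algebra ((below N w).adicCompletion N) (w.adicCompletion A) := φ.toAlgebra
    let _ : Algebra N (w.adicCompletion A) :=
      ((algebraMap A (w.adicCompletion A)).comp (algebraMap N A)).toAlgebra
    have : IsScalarTower N ((below N w).adicCompletion N) (w.adicCompletion A) :=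
      IsScalarTower.of_algebraMap_eq fun x => (hφ x).symm
    have : IsScalarTower N A (w.adicCompletion A) :=
      IsScalarTower.of_algebraMap_eq fun x => rfl
    have : Algebra.IsAlgebraic ((below N w).adicCompletion N) (w.adicCompletion A) := by
      refine ⟨fun z => ?_⟩
      have hz : IsIntegral ((below N w).adicCompletion N) z := hφ3 z
      exact hz.isAlgebraic
    have hcv : res hC j c ∈ trivOver W' (w.adicCompletion A) := by
      have h : res hC j c ∈ ⨅ v : HeightOneSpectrum (𝓞 A),
        trivOver W' (v.adicCompletion A) := h.1.2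
      exact AddSubgroup.mem_iInf.1 h w
    exact loc_desc3 hx he hz hx' hφ2 hC j c hcc hcv
  refine ⟨⟨h1, AddSubgroup.mem_iInf.2 h3⟩, AddSubgroup.mem_iInf.2 fun v => ?_⟩
  have : IsAlgClosed v.Completion :=
    Pool.Agent.Lib.MP_1a91b9_nuT.PL.algClosed_of_equiv
      (InfinitePlace.Completion.ringEquivComplexOfIsComplex (hc v))
  exact Pool.Agent.Lib.MP_1a91b9_nuT.PL.triv_closed W v.Completion _
    (Pool.Agent.Lib.MP_1a91b9_nuT.PL.coc_one W _ h1)

end Pool.Agent.Lib.MP_1a91b9_ntCS.S
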