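import Mathlib

/-!
# CUBIC STABILITY, block S, leaf Z: the sum of the conjugates of a point under the automorphism of order three
-/

set_option autoImplicit false

namespace Pool.Agent.Lib.MP_1a91b9_ntCS.S

open WeierstrassCurve

private theorem Z_some_eq {F : Type*} [Field F] {W : WeierstrassCurve F} {x y x' y' : F}
    (h : W.toAffine.Nonsingular x y) (h' : W.toAffine.Nonsingular x' y') (hx : x = x') (hy : y = y') :
    Affine.Point.some x y h = Affine.Point.some x' y' h' := by
  subst hx
  subst hy
  rfl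

/-- On `W : y² + a₃ y = x³ + a₆` the points `(x, y)`, `(z x, y)`, `(z² x, y)` have the sum `0` (`z² + z + 1 = 0`): they are on the line `Y = y`.

PROOF. Case `x ≠ 0`: then `x ≠ z x` (`z ≠ 1` because `3 ≠ 0`), so the sum of the first two is given by the slope formula
(`Affine.Point.add_some`, `Affine.slope_of_X_ne`): the slope is `0`, `addX = 0 ^ 2 + a₁ * 0 - a₂ - x - z x = z² x`, `addY = negY (z² x) y`; this is
`- (z² x, y)` (`Affine.Point.neg_some`). Case `x = 0`: `P + P + P = 0` for `P = (0, y)`: `y ≠ negY 0 y` or `P = -P`. If `y = negY 0 y` the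
nonsingularity fails (partial derivatives `3 x² = 0` and `2 y + a₃ = 0`). Otherwise the slope of the tangent is `(3 x² + ..) / (2 y + a₃) = 0`,
`addX = 0`, `addY = negY 0 y`: so `P + P = - P`. (Rewrite with `a₁ = a₂ = a₄ = 0`.) -/
theorem zsum {F : Type*} [Field F] [DecidableEq F] (h3 : (3 : F) ≠ 0) (W : WeierstrassCurve F) (w1 : W.a₁ = 0)
    (w2 : W.a₂ = 0) (w4 : W.a₄ = 0) {z : F} (hz : z ^ 2 + z + 1 = 0) {x y : F}
    (h : W.toAffine.Nonsingular x y) (h' : W.toAffine.Nonsingular (z * x) y)
    (h'' : W.toAffine.Nonsingular (z ^ 2 * x) y) :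
    Affine.Point.some x y h + Affine.Point.some (z * x) y h' + Affine.Point.some (z ^ 2 * x) y h'' =
      (0 : W.toAffine.Point) := by
  have w1' : W.toAffine.a₁ = 0 := w1
  have w2' : W.toAffine.a₂ = 0 := w2
  have w4' : W.toAffine.a₄ = 0 := w4
  have hz1 : z ≠ 1 := by
    rintro rfl
    apply h3
    linear_combination hz
  have hx0 : x = z * x → x = 0 := by
    intro hx
    have : (z - 1) * x = 0 := by linear_combination -hx
    exact (mul_eq_zero.1 this).resolve_left (sub_ne_zero.2 hz1)
  have hxy : ¬ (x = z * x ∧ y = W.toAffine.negY (z * x) y) := by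
    rintro ⟨hx, hy⟩
    have hx := hx0 hx
    subst hx
    have h2 := ((Affine.nonsingular_iff _ _).1 h).2
    rw [Affine.negY] at hy
    rcases h2 with h2 | h2
    · apply h2
      rw [w1', w2', w4']
      ring
    · apply h2
      rw [w1'] at hy ⊢
      rw [mul_zero] at hy
      exact hy
  have hs : W.toAffine.slope x (z * x) y y = 0 := by
    by_cases hx : x = z * x
    · have hy : y ≠ W.toAffine.negY (z * x) y := fun hy => hxy ⟨hx, hy⟩
      rw [Affine.slope_of_Y_ne hx hy, w1', w2', w4', hx0 hx]
      simp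
    · rw [Affine.slope_of_X_ne hx, sub_self, zero_div]
  rw [add_eq_zero_iff_eq_neg, Affine.Point.neg_some, Affine.Point.add_some hxy]
  refine Z_some_eq _ _ ?_ ?_
  · rw [hs, Affine.addX, w2']
    linear_combination -x * hz
  · rw [hs, Affine.addY, Affine.negAddY, Affine.negY, Affine.negY, w1']
    ring

/-- PROOF. The equation is the same, `(z x)³ = x³`. Nonsingularity: `W.toAffine.nonsingular_iff`, the partial derivatives are `3 X²` and `2 y + a₃`,
and `X = z x` is zero iff `x` is. -/
theorem zns {F : Type*} [Field F] (W : WeierstrassCurve F) (w1 : W.a₁ = 0)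
    (w2 : W.a₂ = 0) (w4 : W.a₄ = 0) {z : F} (hz : z ^ 2 + z + 1 = 0) {x y : F}
    (h : W.toAffine.Nonsingular x y) : W.toAffine.Nonsingular (z * x) y := by
  have w1' : W.toAffine.a₁ = 0 := w1
  have w2' : W.toAffine.a₂ = 0 := w2
  have w4' : W.toAffine.a₄ = 0 := w4
  have hz3 : z ^ 3 = 1 := by linear_combination (z - 1) * hz
  have hz0 : z ≠ 0 := by
    rintro rfl
    simp at hz
  rw [Affine.nonsingular_iff, Affine.equation_iff, w1', w2', w4'] at h ⊢
  refine ⟨?_, ?_⟩
  · linear_combination h.1 - x ^ 3 * hz3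
  · rcases h.2 with h2 | h2
    · left
      intro e
      apply h2
      have e3 : z ^ 2 * (3 * x ^ 2) = 0 := by linear_combination -e
      have e4 := (mul_eq_zero.1 e3).resolve_left (pow_ne_zero 2 hz0)
      rw [e4]
      ring
    · right
      intro e
      apply h2
      linear_combination e

end Pool.Agent.Lib.MP_1a91b9_ntCS.S
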