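import Pool.Agent.Lib.MP_1a91b9_ntCS.S.U1
import Pool.Agent.Lib.MP_1a91b9_ntCS.S.Z
import Pool.Agent.Lib.MP_1a91b9_ntC.Sh.S

/-!
# CUBIC STABILITY, block S, leaf S1: the changes of variables, and the sum of the three transports

`V_i : y² + a e^i y = x³` over `N`, `i = 0, 1, 2`, `A = N(x₀)`, `x₀³ = e`.
-/

set_option autoImplicit false
set_option linter.unusedSectionVars false

namespace Pool.Agent.Lib.MP_1a91b9_ntCS.S

open WeierstrassCurve Pool.Agent.Lib.MP_1a91b9_nuT.S9 NumberField IsDedekindDomain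
open Pool.Agent.Lib.MP_1a91b9_nuT.CT Pool.Agent.Lib.MP_1a91b9_nuT.S5 Pool.Agent.Lib.MP_1a91b9_ntC.Sh
open scoped Classical

variable [Pool.Agent.Lib.MP_1a91b9_nuT.CD]

/-- The change of variables from the twist to `E` over `A`. PROOF. `⟨x₀ ^ i, 0, 0, 0⟩` as a unit; as `exists_vc` in MP_1a91b9_ntC/Sh/S.lean;
`a₃ ↦ u⁻³ a₃` (`variableChange_a₃`), `(x₀ ^ i) ^ 3 = e ^ i`. -/
theorem exists_vc3 {N A : Type} [Field N] [Field A] [Algebra N A] (a : N) {e : N} {x₀ : A}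
    (hx : x₀ ^ 3 = algebraMap N A e) (he : e ≠ 0) (i : ℕ) :
    ∃ C : VariableChange A, (C.u : A) = x₀ ^ i ∧ C.r = 0 ∧ C.s = 0 ∧ C.t = 0 ∧
      C • (⟨0, 0, e ^ i * a, 0, 0⟩ : WeierstrassCurve N).baseChange A =
        (⟨0, 0, a, 0, 0⟩ : WeierstrassCurve N).baseChange A := by
  have h0 : x₀ ≠ 0 := by
    rintro rfl
    rw [zero_pow three_ne_zero] at hx
    exact he ((algebraMap N A).injective (by rw [← hx, map_zero]))
  have h0i : x₀ ^ i ≠ 0 := pow_ne_zero i h0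
  refine ⟨⟨Units.mk0 (x₀ ^ i) h0i, 0, 0, 0⟩, rfl, rfl, rfl, rfl, ?_⟩
  have h1 : (((Units.mk0 (x₀ ^ i) h0i)⁻¹ : Aˣ) : A) = (x₀ ^ i)⁻¹ := rfl
  ext
  · simp [WeierstrassCurve.baseChange, variableChange_a₁]
  · simp [WeierstrassCurve.baseChange, variableChange_a₂]
  · simp only [WeierstrassCurve.baseChange, variableChange_a₃, map_a₃, map_a₁, map_mul, map_pow, h1]
    rw [← hx, zero_mul, mul_zero, add_zero, add_zero, ← mul_assoc, ← pow_mul, mul_comm 3 i, pow_mul,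
      ← mul_pow, inv_mul_cancel₀ h0i, one_pow, one_mul]
  · simp [WeierstrassCurve.baseChange, variableChange_a₄]
  · simp [WeierstrassCurve.baseChange, variableChange_a₆]

private theorem S1_point {N A : Type} [Field N] [CharZero N] [Field A] [CharZero A] [Algebra N A]
    [Algebra.IsAlgebraic N A] {a e : N} {x₀ : A}
    (hx : x₀ ^ 3 = algebraMap N A e) (he : e ≠ 0)
    (j : AlgebraicClosure N ≃ₐ[N] AlgebraicClosure A) {ρ : Gal N} {t : AlgebraicClosure A}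
    (ht : ((j.symm.trans (ρ⁻¹ : Gal N)).trans j : AlgebraicClosure A ≃ₐ[N] AlgebraicClosure A)
      (algebraMap A (AlgebraicClosure A) x₀) = t * algebraMap A (AlgebraicClosure A) x₀) (ht3 : t ^ 3 = 1)
    {C : VariableChange A} {i : ℕ} (h1 : (C.u : A) = x₀ ^ i) (h2 : C.r = 0)
    (h3 : C.s = 0) (h4 : C.t = 0)
    (hC : C • (⟨0, 0, e ^ i * a, 0, 0⟩ : WeierstrassCurve N).baseChange A =
      (⟨0, 0, a, 0, 0⟩ : WeierstrassCurve N).baseChange A) (x y : AlgebraicClosure A)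
    (h : (Affine.baseChange ((⟨0, 0, a, 0, 0⟩ : WeierstrassCurve N).baseChange A)
      (AlgebraicClosure A)).Nonsingular x y) :
    ∃ h', cj hC j ρ (Affine.Point.some x y h) = Affine.Point.some
      ((t ^ 2) ^ i * ((j.symm.trans (ρ⁻¹ : Gal N)).trans j : AlgebraicClosure A ≃ₐ[N] AlgebraicClosure A) x)
      (((j.symm.trans (ρ⁻¹ : Gal N)).trans j : AlgebraicClosure A ≃ₐ[N] AlgebraicClosure A) y) h' := by
  obtain ⟨R, hR⟩ : ∃ R, R = cj hC j ρ (Affine.Point.some x y h) := ⟨_, rfl⟩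
  have hR' : tr hC (AlgebraicClosure A) R =
      Affine.Point.map (((j.symm.trans (ρ⁻¹ : Gal N)).trans j :
        AlgebraicClosure A ≃ₐ[N] AlgebraicClosure A) :
          AlgebraicClosure A →ₐ[N] AlgebraicClosure A)
        (tr hC (AlgebraicClosure A) (Affine.Point.some x y h)) := by
    rw [hR, cj_apply, AddEquiv.apply_symm_apply]
  rw [← hR]
  clear hR
  obtain ⟨ψ, hψ⟩ : ∃ ψ : AlgebraicClosure A ≃ₐ[N] AlgebraicClosure A,
    ψ = (j.symm.trans (ρ⁻¹ : Gal N)).trans j := ⟨_, rfl⟩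
  rw [← hψ] at hR' ht ⊢
  have hx0 : algebraMap A (AlgebraicClosure A) x₀ ≠ 0 := by
    rw [Ne, map_eq_zero]
    rintro rfl
    rw [zero_pow three_ne_zero] at hx
    exact he ((algebraMap N A).injective (by rw [← hx, map_zero]))
  obtain ⟨i2, j2⟩ := tr_some hC (AlgebraicClosure A) _ _ h
  rw [j2, Affine.Point.map_some] at hR'
  cases R with
  | zero =>
    have h5 : tr hC (AlgebraicClosure A) (0 : Pts ((⟨0, 0, a, 0, 0⟩ : WeierstrassCurve N).baseChange A)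
      (AlgebraicClosure A)) = _ := hR'
    rw [_root_.map_zero] at h5
    exact absurd h5.symm (Affine.Point.some_ne_zero _)
  | some x1 y1 g1 =>
    obtain ⟨i3, j3⟩ := tr_some hC (AlgebraicClosure A) _ _ g1
    rw [j3, Affine.Point.some.injEq] at hR'
    have e9 : ∀ z, (ψ : AlgebraicClosure A →ₐ[N] AlgebraicClosure A) z = ψ z := fun z => rfl
    obtain ⟨k1, k2⟩ := hR'
    rw [h1, h2, map_zero, add_zero, add_zero, e9, map_mul, map_pow, map_pow, map_pow, ht] at k1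
    rw [h1, h3, h4, map_zero, mul_zero, zero_mul, zero_mul, add_zero, add_zero, add_zero, add_zero,
      e9, map_mul, map_pow, map_pow, map_pow, ht] at k2
    have q1 : x1 = (t ^ 2) ^ i * ψ x := by
      refine mul_left_cancel₀ (pow_ne_zero 2 (pow_ne_zero i hx0)) (k1.trans ?_)
      rw [mul_pow, mul_pow, ← pow_mul t, ← pow_mul t, mul_comm i 2]
      ring
    have q2 : y1 = ψ y := by
      refine mul_left_cancel₀ (pow_ne_zero 3 (pow_ne_zero i hx0)) (k2.trans ?_)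
      rw [mul_pow, mul_pow, ← pow_mul t, mul_comm i 3, pow_mul t, ht3, one_pow, one_mul]
    subst q1
    subst q2
    exact ⟨g1, rfl⟩

private theorem S1_root {F : Type*} [Field F] {Z : F} (hZ : Z ^ 2 + Z + 1 = 0) {n : ℕ} (h0 : n ≠ 0) (h3 : n < 3) :
    (Z ^ n) ^ 3 = 1 ∧ ((Z ^ n) ^ 2) ^ 2 + (Z ^ n) ^ 2 + 1 = 0 := by
  have h : Z ^ 3 = 1 := by linear_combination (Z - 1) * hZ
  have hn : n = 1 ∨ n = 2 := by omega
  rcases hn with rfl | rfl
  · refine ⟨by rw [pow_one]; exact h, ?_⟩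
    rw [pow_one]
    linear_combination Z * h + hZ
  · refine ⟨by linear_combination (Z ^ 3 + 1) * h, ?_⟩
    linear_combination (Z ^ 5 + Z ^ 2 + Z) * h + hZ

/-- PROOF. `ψ = (j.symm.trans ρ⁻¹).trans j`. `ψ x₀ = Z ^ n x₀` in the closure of `A`, where `Z` is the image of `z` and `n = (chi (wx j x₀) z ρ⁻¹).val ≠ 0`
(`chi_spec` for `ρ⁻¹`; `chi ρ⁻¹ ≠ 0` because `chi ρ ≠ 0`: `chi_zero`). For `P = 0` all is `0`. For `P = (x, y)`: `cj (hC i) j ρ P = (Z ^ (2 n i) ψ x, ψ y)`: by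
`cj_apply`, `tr_some` (MP_1a91b9_ntC/Sh/S.lean: `tr (hC i) (x, y) = (x₀ ^ (2 i) x, x₀ ^ (3 i) y)`), `Affine.Point.map_some`, and apply `tr (hC i)` to both
sides to check (as at the end of `exists_conj`). With `ζ = Z ^ (2 n)`, `ζ ^ 2 + ζ + 1 = 0` (`n = 1, 2`), the three points are `(x', y')`, `(ζ x', y')`, `(ζ ^ 2 x', y')`: `zsum`
(the curve over the closure has `a₁ = a₂ = a₄ = 0`). -/
theorem tsum3 {N A : Type} [Field N] [CharZero N] [Field A] [CharZero A] [Algebra N A]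
    [Algebra.IsAlgebraic N A] {a e z : N} {x₀ : A}
    (hx : x₀ ^ 3 = algebraMap N A e) (he : e ≠ 0) (hz : z ^ 2 + z + 1 = 0)
    (j : AlgebraicClosure N ≃ₐ[N] AlgebraicClosure A) {ρ : Gal N} (hρ : chi (wx j x₀) z ρ ≠ 0)
    {C : ℕ → VariableChange A} (h1 : ∀ i, ((C i).u : A) = x₀ ^ i) (h2 : ∀ i, (C i).r = 0)
    (h3 : ∀ i, (C i).s = 0) (h4 : ∀ i, (C i).t = 0)
    (hC : ∀ i, C i • (⟨0, 0, e ^ i * a, 0, 0⟩ : WeierstrassCurve N).baseChange A =
      (⟨0, 0, a, 0, 0⟩ : WeierstrassCurve N).baseChange A)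
    (P : Pts ((⟨0, 0, a, 0, 0⟩ : WeierstrassCurve N).baseChange A) (AlgebraicClosure A)) :
    cj (hC 0) j ρ P + cj (hC 1) j ρ P + cj (hC 2) j ρ P = 0 := by
  have hn0 : chi (wx j x₀) z (ρ⁻¹ : Gal N) ≠ 0 := by
    intro h5
    apply hρ
    rw [chi_zero] at h5 ⊢
    have h6 : ρ ((ρ⁻¹ : Gal N) (wx j x₀)) = wx j x₀ := ρ.apply_symm_apply _
    rw [h5] at h6
    exact h6
  obtain ⟨n, hn⟩ : ∃ n : ℕ, n = (chi (wx j x₀) z (ρ⁻¹ : Gal N)).val := ⟨_, rfl⟩
  have hn1 : n ≠ 0 := by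
    rw [hn]
    intro h5
    exact hn0 ((ZMod.val_eq_zero _).1 h5)
  have hn3 : n < 3 := by
    rw [hn]
    exact ZMod.val_lt _
  have hZ : (algebraMap N (AlgebraicClosure A) z) ^ 2 + algebraMap N (AlgebraicClosure A) z + 1 = 0 := by
    rw [← map_pow, ← map_add, ← map_one (algebraMap N (AlgebraicClosure A)), ← map_add, hz, map_zero]
  obtain ⟨r1, r2⟩ := S1_root hZ hn1 hn3
  have ht : ((j.symm.trans (ρ⁻¹ : Gal N)).trans j : AlgebraicClosure A ≃ₐ[N] AlgebraicClosure A)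
      (algebraMap A (AlgebraicClosure A) x₀) =
      (algebraMap N (AlgebraicClosure A) z) ^ n * algebraMap A (AlgebraicClosure A) x₀ := by
    have h5 := chi_spec (wx_pow j hx) hz (ρ⁻¹ : Gal N)
    rw [← hn] at h5
    have h6 := congrArg j h5
    rw [map_mul, map_pow, AlgEquiv.commutes] at h6
    have h7 : j (wx j x₀) = algebraMap A (AlgebraicClosure A) x₀ := j.apply_symm_apply _
    rw [h7] at h6
    exact h6
  cases P with
  | zero =>
    have h5 : (Affine.Point.zero : Pts ((⟨0, 0, a, 0, 0⟩ : WeierstrassCurve N).baseChange A)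
      (AlgebraicClosure A)) = 0 := rfl
    rw [h5, _root_.map_zero, _root_.map_zero, _root_.map_zero, add_zero, add_zero]
  | some x y h =>
    obtain ⟨g0, e0⟩ := S1_point hx he j ht r1 (h1 0) (h2 0) (h3 0) (h4 0) (hC 0) x y h
    obtain ⟨g1, e1⟩ := S1_point hx he j ht r1 (h1 1) (h2 1) (h3 1) (h4 1) (hC 1) x y h
    obtain ⟨g2, e2⟩ := S1_point hx he j ht r1 (h1 2) (h2 2) (h3 2) (h4 2) (hC 2) x y h
    rw [e0, e1, e2]
    have c1 : (Affine.baseChange ((⟨0, 0, a, 0, 0⟩ : WeierstrassCurve N).baseChange A)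
        (AlgebraicClosure A)).a₁ = 0 := by
      change algebraMap A (AlgebraicClosure A) (algebraMap N A 0) = 0
      rw [map_zero, map_zero]
    have c2 : (Affine.baseChange ((⟨0, 0, a, 0, 0⟩ : WeierstrassCurve N).baseChange A)
        (AlgebraicClosure A)).a₂ = 0 := by
      change algebraMap A (AlgebraicClosure A) (algebraMap N A 0) = 0
      rw [map_zero, map_zero]
    have c4 : (Affine.baseChange ((⟨0, 0, a, 0, 0⟩ : WeierstrassCurve N).baseChange A)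
        (AlgebraicClosure A)).a₄ = 0 := by
      change algebraMap A (AlgebraicClosure A) (algebraMap N A 0) = 0
      rw [map_zero, map_zero]
    have three : (3 : AlgebraicClosure A) ≠ 0 := by norm_num
    clear e0 e1 e2
    generalize ((j.symm.trans (ρ⁻¹ : Gal N)).trans j : AlgebraicClosure A ≃ₐ[N] AlgebraicClosure A) x = X at g0 g1 g2 ⊢
    generalize ((j.symm.trans (ρ⁻¹ : Gal N)).trans j : AlgebraicClosure A ≃ₐ[N] AlgebraicClosure A) y = Y at g0 g1 g2 ⊢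
    generalize hζ : ((algebraMap N (AlgebraicClosure A) z) ^ n) ^ 2 = ζ at g0 g1 g2 r2 ⊢
    have s0 : ζ ^ 0 * X = X := by rw [pow_zero, one_mul]
    have s1 : ζ ^ 1 * X = ζ * X := by rw [pow_one]
    simp only [s0, s1] at g0 g1 g2 ⊢
    exact zsum three _ c1 c2 c4 r2 g0 g1 g2

end Pool.Agent.Lib.MP_1a91b9_ntCS.S
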