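import Pool.Agent.Lib.MP_1a91b9_ntCS.S.U1
import Pool.Agent.Lib.MP_1a91b9_ntC.Sh.S

/-!
# CUBIC STABILITY, block S, leaf S2: the conjugate of a cocycle of `Sha`
-/

set_option autoImplicit false
set_option linter.unusedSectionVars false

namespace Pool.Agent.Lib.MP_1a91b9_ntCS.S

open WeierstrassCurve Pool.Agent.Lib.MP_1a91b9_nuT.S9 NumberField IsDedekindDomain
open Pool.Agent.Lib.MP_1a91b9_nuT.CT Pool.Agent.Lib.MP_1a91b9_nuT.S5 Pool.Agent.Lib.MP_1a91b9_ntC.Sh
open scoped Classical

variable [Pool.Agent.Lib.MP_1a91b9_nuT.CD]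

/-- The transport of a cocycle of `Sha` by an isomorphism. -/
private theorem S2_gen {A A' : Type} [Field A] [NumberField A] [Field A'] [NumberField A']
    [Algebra A A'] (hc : ∀ v : InfinitePlace A', v.IsComplex) {W : WeierstrassCurve A}
    {W' : WeierstrassCurve A'} {C : VariableChange A'} (hC : C • W.baseChange A' = W')
    (r : AlgebraicClosure A ≃+* AlgebraicClosure A')
    (hr : ∀ x : A, r (algebraMap A _ x) = algebraMap A' _ (algebraMap A A' x))
    (c : Gal A → Pts W (AlgebraicClosure A)) (h : c ∈ shaCoc W) :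
    ∃ c' ∈ shaCoc W', ∀ (σ : Gal A') (σ' : Gal A), (∀ x, r (σ' x) = σ (r x)) →
      (c σ' = 0 → c' σ = 0) ∧ ∀ x y h, c σ' = Affine.Point.some x y h →
        ∃ x1 y1 h1, c' σ = Affine.Point.some x1 y1 h1 ∧
          algebraMap A' (AlgebraicClosure A') C.u ^ 2 * x1 +
            algebraMap A' (AlgebraicClosure A') C.r = r x ∧
          algebraMap A' (AlgebraicClosure A') C.u ^ 3 * y1 +
            algebraMap A' (AlgebraicClosure A') C.u ^ 2 *
              algebraMap A' (AlgebraicClosure A') C.s * x1 +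
            algebraMap A' (AlgebraicClosure A') C.t = r y := by
  let j : AlgebraicClosure A ≃ₐ[A] AlgebraicClosure A' := AlgEquiv.ofRingEquiv (f := r) (by
    intro x
    rw [hr]
    exact (IsScalarTower.algebraMap_apply A A' (AlgebraicClosure A') x).symm)
  have hj : ∀ x, j x = r x := fun x => rfl
  refine ⟨res hC j c, res_sha hc hC j c h, fun σ σ' hσ => ?_⟩
  have h1 : resG j σ = σ' := by
    apply AlgEquiv.ext
    intro x
    rw [resG_apply, AlgEquiv.symm_apply_eq, hj, hj, hσ]
  refine ⟨fun h0 => ?_, fun x y h0 h2 => ?_⟩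
  · unfold res
    rw [h1, h0, _root_.map_zero, _root_.map_zero]
  · obtain ⟨R, hR⟩ : ∃ R, R = res hC j c σ := ⟨_, rfl⟩
    have hR' : tr hC (AlgebraicClosure A') R =
        Affine.Point.map (j : AlgebraicClosure A →ₐ[A] AlgebraicClosure A')
          (Affine.Point.some x y h0) := by
      rw [hR]
      unfold res
      rw [h1, h2, AddEquiv.apply_symm_apply]
    rw [Affine.Point.map_some] at hR'
    rw [← hR]
    clear hR
    cases R with
    | zero =>
      have h3 : tr hC (AlgebraicClosure A') (0 : Pts W' (AlgebraicClosure A')) =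
        Affine.Point.some _ _ _ := hR'
      rw [_root_.map_zero] at h3
      exact absurd h3.symm (Affine.Point.some_ne_zero _)
    | some x1 y1 h3 =>
      obtain ⟨h4, e4⟩ := tr_some hC (AlgebraicClosure A') x1 y1 h3
      rw [hR', Affine.Point.some.injEq] at e4
      exact ⟨x1, y1, h3, rfl, e4.1.symm, e4.2.symm⟩

/-- **The conjugate of a cocycle.**

PROOF. ADAPTATION of `exists_conj` and `conj_gen` (MP_1a91b9_ntC/Sh/S.lean). `ψ = (j.symm.trans ρ⁻¹).trans j`; `ψ x₀ = Z ^ n x₀` (`Z` the image of `z`, `chi_spec`), so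
`ψ` maps `A` to itself (`hx'`) and gives a ring homomorphism `s : A →+* A` with `algebraMap (s y) = ψ (algebraMap y)` and `s = id` on `N` (as there, `choose`).
`C' = C * (C.map s)⁻¹`; `C' • W'.map s = W'` (`W' = C • W_A`, `(C • W_A).map s = C.map s • W_A`: `WeierstrassCurve.map_variableChange`, `mul_smul`, `inv_smul_smul`).
With the algebra `s.toAlgebra` and `j' = ψ` as an isomorphism of `A`-algebras, `c' = res hC' j' c` is in `shaCoc W'` (`res_sha`, as in `conj_gen`, where `C = 1`), and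
`c' σ = (tr hC' _).symm (map j' (c σ'))` if `resG j' σ = σ'`, which is the hypothesis `resG j σ' = ρ * resG j σ * ρ⁻¹` (computation in `exists_conj`). Both
sides of the claim: `0` if `c σ' = 0`; if `c σ' = (x, y)`: by `tr_some` with `C.u = u`, `r = s = t = 0`: the right side is `((ψ u / u) ^ 2 ψ x, (ψ u / u) ^ 3 ψ y)`, the left side too, as
`C'.u = u / s(u)`, `C'.r = C'.s = C'.t = 0`. (To check an equality `(tr hC _).symm P = Q` apply `tr hC _` to both sides.) -/
theorem conj_sha3 {N A : Type} [Field N] [NumberField N] [Field A] [NumberField A] [Algebra N A]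
    (hc : ∀ v : InfinitePlace A, v.IsComplex) {e z : N} {x₀ : A} (hx : x₀ ^ 3 = algebraMap N A e)
    (he : e ≠ 0) (hz : z ^ 2 + z + 1 = 0)
    (hx' : ∀ z : A, ∃ α β γ : N, z = algebraMap N A α + algebraMap N A β * x₀ +
      algebraMap N A γ * x₀ ^ 2)
    (j : AlgebraicClosure N ≃ₐ[N] AlgebraicClosure A) (ρ : Gal N)
    {W : WeierstrassCurve N} {W' : WeierstrassCurve A} {C : VariableChange A} (h2 : C.r = 0)
    (h3 : C.s = 0) (h4 : C.t = 0) (hC : C • W.baseChange A = W')
    (c : Gal A → Pts W' (AlgebraicClosure A)) (hcs : c ∈ shaCoc W') :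
    ∃ c' ∈ shaCoc W', ∀ σ σ' : Gal A, resG j σ' = ρ * resG j σ * ρ⁻¹ →
      c' σ = cj hC j ρ (c σ') := by
  obtain ⟨ψ, hψe⟩ : ∃ ψ : AlgebraicClosure A ≃ₐ[N] AlgebraicClosure A,
    ψ = (j.symm.trans (ρ⁻¹ : Gal N)).trans j := ⟨_, rfl⟩
  have hψ : ∀ z, ψ z = j ((ρ⁻¹ : Gal N) (j.symm z)) := fun z => by rw [hψe]; rfl
  have hψN : ∀ z : N, ψ (algebraMap A (AlgebraicClosure A) (algebraMap N A z)) =
      algebraMap A (AlgebraicClosure A) (algebraMap N A z) := by
    intro z
    rw [← IsScalarTower.algebraMap_apply N A (AlgebraicClosure A), ψ.commutes]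
  have hψx : ∃ x₁ : A, ψ (algebraMap A (AlgebraicClosure A) x₀) =
      algebraMap A (AlgebraicClosure A) x₁ := by
    have h5 : ψ (algebraMap A (AlgebraicClosure A) x₀) ^ 3 =
        (algebraMap A (AlgebraicClosure A) x₀) ^ 3 := by
      rw [← map_pow, ← map_pow, hx, hψN]
    have h6 : (algebraMap A (AlgebraicClosure A) (algebraMap N A z)) ^ 2 +
        algebraMap A (AlgebraicClosure A) (algebraMap N A z) + 1 = 0 := by
      rw [← map_pow, ← map_pow, ← map_add, ← map_add]
      rw [← map_one (algebraMap A (AlgebraicClosure A)), ← map_one (algebraMap N A), ← map_add,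
        ← map_add, hz, map_zero, map_zero]
    obtain ⟨X, hX⟩ : ∃ X, X = algebraMap A (AlgebraicClosure A) x₀ := ⟨_, rfl⟩
    obtain ⟨Y, hY⟩ : ∃ Y, Y = ψ (algebraMap A (AlgebraicClosure A) x₀) := ⟨_, rfl⟩
    obtain ⟨Z, hZ⟩ : ∃ Z, Z = algebraMap A (AlgebraicClosure A) (algebraMap N A z) := ⟨_, rfl⟩
    rw [← hY, ← hX] at h5
    rw [← hZ] at h6
    rw [← hY]
    have h7 : (Y - X) * ((Y - Z * X) * (Y - Z ^ 2 * X)) = 0 := by
      linear_combination h5 + (-Y ^ 2 * X + Y * X ^ 2 * Z - (Z - 1) * X ^ 3) * h6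
    rcases mul_eq_zero.1 h7 with h8 | h8
    · refine ⟨x₀, ?_⟩
      rw [← hX]
      exact sub_eq_zero.1 h8
    · rcases mul_eq_zero.1 h8 with h9 | h9
      · refine ⟨algebraMap N A z * x₀, ?_⟩
        rw [map_mul, ← hX, ← hZ]
        exact sub_eq_zero.1 h9
      · refine ⟨algebraMap N A z ^ 2 * x₀, ?_⟩
        rw [map_mul, map_pow, ← hX, ← hZ]
        exact sub_eq_zero.1 h9
  obtain ⟨x₁, hψx⟩ := hψx
  have hs : ∀ z : A, ∃ z' : A, algebraMap A (AlgebraicClosure A) z' =
      ψ (algebraMap A (AlgebraicClosure A) z) := by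
    intro z
    obtain ⟨α, β, γ, rfl⟩ := hx' z
    refine ⟨algebraMap N A α + algebraMap N A β * x₁ + algebraMap N A γ * x₁ ^ 2, ?_⟩
    simp only [map_add, map_mul, map_pow, hψN, hψx]
  choose s0 hs0 using hs
  have hinj : Function.Injective (algebraMap A (AlgebraicClosure A)) :=
    (algebraMap A (AlgebraicClosure A)).injective
  obtain ⟨s, hs⟩ : ∃ s : A →+* A, ∀ z, algebraMap A (AlgebraicClosure A) (s z) =
      ψ (algebraMap A (AlgebraicClosure A) z) :=
    ⟨{ toFun := s0
       map_one' := hinj (by rw [hs0, map_one, map_one])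
       map_mul' := fun x y => hinj (by rw [hs0, map_mul, map_mul, map_mul, hs0, hs0])
       map_zero' := hinj (by rw [hs0, map_zero, map_zero])
       map_add' := fun x y => hinj (by rw [hs0, map_add, map_add, map_add, hs0, hs0]) }, hs0⟩
  have hsN : ∀ z : N, s (algebraMap N A z) = algebraMap N A z := fun z =>
    hinj (by rw [hs, hψN])
  obtain ⟨C', hC'e⟩ : ∃ C' : VariableChange A, C' = C * (C.map s)⁻¹ := ⟨_, rfl⟩
  have hC' : C' • W'.map s = W' := by
    have h5 : s.comp (algebraMap N A) = algebraMap N A := RingHom.ext hsN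
    have h6 : (W.baseChange A).map s = W.baseChange A := by
      change (W.map (algebraMap N A)).map s = W.map (algebraMap N A)
      rw [WeierstrassCurve.map_map, h5]
    rw [← hC, ← WeierstrassCurve.map_variableChange, h6, hC'e, mul_smul, inv_smul_smul]
  have hu : (C'.u : A) * s C.u = C.u := by
    rw [hC'e, VariableChange.mul_def, VariableChange.inv_def]
    have h5 : ((C.map s).u : A) = s C.u := rfl
    have h6 : (((C.map s).u⁻¹ : Aˣ) : A) * ((C.map s).u : A) = 1 := Units.inv_mul _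
    rw [← h5]
    change ((C.u * (C.map s).u⁻¹ : Aˣ) : A) * ((C.map s).u : A) = C.u
    rw [Units.val_mul, mul_assoc, h6, mul_one]
  have hr0 : (C.map s).r = 0 := by
    change s C.r = 0
    rw [h2, map_zero]
  have hs1 : (C.map s).s = 0 := by
    change s C.s = 0
    rw [h3, map_zero]
  have ht0 : (C.map s).t = 0 := by
    change s C.t = 0
    rw [h4, map_zero]
  have k2 : C'.r = 0 := by
    rw [hC'e, VariableChange.mul_def, VariableChange.inv_def]
    simp only [h2, hr0, neg_zero, zero_mul, add_zero]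
  have k3 : C'.s = 0 := by
    rw [hC'e, VariableChange.mul_def, VariableChange.inv_def]
    simp only [h3, hs1, neg_zero, zero_mul, mul_zero, add_zero]
  have k4 : C'.t = 0 := by
    rw [hC'e, VariableChange.mul_def, VariableChange.inv_def]
    simp only [h2, h4, hr0, hs1, ht0, sub_zero, zero_mul, mul_zero, add_zero]
  obtain ⟨c', hc', H⟩ := @S2_gen _ A A _ _ _ _ s.toAlgebra hc W' W' C' hC' ψ.toRingEquiv
    (fun x => (hs x).symm) c hcs
  refine ⟨c', hc', fun σ σ' hσ => ?_⟩
  have hσ' : ∀ x, ψ (σ' x) = σ (ψ x) := by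
    intro x
    have h5 := congrArg (fun τ : Gal N => j ((ρ⁻¹ : Gal N) (τ (j.symm x)))) hσ
    change j ((ρ⁻¹ : Gal N) (j.symm (σ' (j (j.symm x))))) =
      j ((ρ⁻¹ : Gal N) (ρ (j.symm (σ (j ((ρ⁻¹ : Gal N) (j.symm x))))))) at h5
    rw [j.apply_symm_apply, ← hψ, ← hψ] at h5
    rw [h5]
    have h6 : (ρ⁻¹ : Gal N) (ρ (j.symm (σ (ψ x)))) = j.symm (σ (ψ x)) := ρ.symm_apply_apply _
    rw [h6, j.apply_symm_apply]
  obtain ⟨H1, H2⟩ := H σ σ' hσ'
  rw [cj_apply, ← hψe]
  rcases hP : c σ' with _ | ⟨x, y, h⟩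
  · have e1 : c' σ = 0 := H1 hP
    have e2 : (Affine.Point.zero : Pts W' (AlgebraicClosure A)) = 0 := rfl
    rw [e1, e2, _root_.map_zero, _root_.map_zero, _root_.map_zero]
  · obtain ⟨x1, y1, h5, e5, e6, e7⟩ := H2 x y h hP
    have e8 : ∀ z, ψ.toRingEquiv z = ψ z := fun z => rfl
    rw [k2, map_zero, add_zero, e8] at e6
    rw [k3, k4, map_zero, mul_zero, zero_mul, add_zero, add_zero, e8] at e7
    apply (tr hC (AlgebraicClosure A)).injective
    rw [AddEquiv.apply_symm_apply, e5]
    obtain ⟨i1, j1⟩ := tr_some hC (AlgebraicClosure A) _ _ h5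
    obtain ⟨i2, j2⟩ := tr_some hC (AlgebraicClosure A) _ _ h
    rw [j1, j2, Affine.Point.map_some]
    have e9 : ∀ z, (ψ : AlgebraicClosure A →ₐ[N] AlgebraicClosure A) z = ψ z := fun z => rfl
    have e10 : algebraMap A (AlgebraicClosure A) C.u =
        algebraMap A (AlgebraicClosure A) C'.u * ψ (algebraMap A (AlgebraicClosure A) C.u) := by
      rw [← hs, ← map_mul, hu]
    simp only [Affine.Point.some.injEq, h2, h3, h4, map_zero, mul_zero, zero_mul, add_zero, e9,
      map_mul, map_pow]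
    rw [← e6, ← e7]
    constructor
    · linear_combination (algebraMap A (AlgebraicClosure A) C.u +
        algebraMap A (AlgebraicClosure A) C'.u * ψ (algebraMap A (AlgebraicClosure A) C.u)) * x1 * e10
    · linear_combination (algebraMap A (AlgebraicClosure A) C.u ^ 2 +
        algebraMap A (AlgebraicClosure A) C.u *
          (algebraMap A (AlgebraicClosure A) C'.u * ψ (algebraMap A (AlgebraicClosure A) C.u)) +
        (algebraMap A (AlgebraicClosure A) C'.u * ψ (algebraMap A (AlgebraicClosure A) C.u)) ^ 2) *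
          y1 * e10

end Pool.Agent.Lib.MP_1a91b9_ntCS.S
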