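import Pool.Agent.Lib.MP_1a91b9_ntCS.S.U1

/-!
# CUBIC STABILITY, block S, leaf U2: the corestriction of a cocycle from a cubic extension, the theorem

ADAPTATION of `exists_cor` in MP_1a91b9_ntC/Sh/U.lean (quadratic case).
-/

set_option autoImplicit false
set_option linter.unusedSectionVars false

namespace Pool.Agent.Lib.MP_1a91b9_ntCS.S

open WeierstrassCurve Pool.Agent.Lib.MP_1a91b9_nuT.S9
open Pool.Agent.Lib.MP_1a91b9_nuT.CT Pool.Agent.Lib.MP_1a91b9_ntC.Sh
open scoped Classical

variable [Pool.Agent.Lib.MP_1a91b9_nuT.CD]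

variable {k k' : Type} [Field k] [Field k'] [CharZero k] [CharZero k'] [Algebra k k']
  [Algebra.IsAlgebraic k k']

/-- **The corestriction.**

PROOF. As `exists_cor` (copy): `act`, `g`, `hg`, `u` (zero outside `stH j x₀`, i.e. outside `chi = 0`, `mem_stH`), `hu1`, `hu0`, `hcu`, `hulc` are the same with
`exists_lift3`, `resG_openEmb3`. `D = corG act r u`. Locally constant: a finite sum of locally constant functions (each
`τ ↦ act (r i)⁻¹ (u (r i * τ * (r l)⁻¹))`; `IsLocallyConstant.sum` does not exist: write the double sum over `ZMod 3` out, or induction over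
a `Finset`). Cocycle: `corG_coc` with `χ = chi (wx j x₀) z` (`chi_mul`, `wx_pow`). `n • c ∈ cob`: `corG_nsmul`, `corG_cob`. Last clause: `resG j σ` is in
`chi = 0` (`resG_mem`, `mem_stH`), so `corG_eq` gives `∑ i, act (r i)⁻¹ (u (r i * resG j σ * (r i)⁻¹))`, `= ∑ i, act (r i)⁻¹ (g (c (σ' i)))` by `hu1`, and
`(tr hC _).symm (map j (act (r i)⁻¹ (g Q))) = cj hC j (r i) Q` as at the end of `exists_cor` (`Affine.Point.map_map`, `rfl`). -/
theorem exists_cor3 {W : WeierstrassCurve k} {W' : WeierstrassCurve k'} {C : VariableChange k'}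
    (hC : C • W.baseChange k' = W') (j : AlgebraicClosure k ≃ₐ[k] AlgebraicClosure k') {x₀ : k'}
    {e z : k} (hx : x₀ ^ 3 = algebraMap k k' e) (he : e ≠ 0) (hz : z ^ 2 + z + 1 = 0)
    (hk' : ∀ z : k', ∃ α β γ : k, z = algebraMap k k' α + algebraMap k k' β * x₀ +
      algebraMap k k' γ * x₀ ^ 2) (r : ZMod 3 → Gal k) (hr : ∀ i, chi (wx j x₀) z (r i) = i)
    (c : Gal k' → Pts W' (AlgebraicClosure k')) (hc : c ∈ coc W') :
    ∃ D ∈ coc W, (∀ n : ℕ, n • c ∈ cob W' → n • D ∈ cob W) ∧
      ∀ (σ : Gal k') (σ' : ZMod 3 → Gal k'),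
        (∀ i, resG j (σ' i) = r i * resG j σ * (r i)⁻¹) →
        res hC j D σ = ∑ i : ZMod 3, cj hC j (r i) (c (σ' i)) := by
  -- the action and the function `u`
  let act : Gal k → Pts W (AlgebraicClosure k) →+ Pts W (AlgebraicClosure k) := fun σ =>
    Affine.Point.map (σ : AlgebraicClosure k →ₐ[k] AlgebraicClosure k)
  let g : Pts W' (AlgebraicClosure k') →+ Pts W (AlgebraicClosure k) :=
    (Affine.Point.map (j.symm : AlgebraicClosure k' →ₐ[k] AlgebraicClosure k)).comp
      (tr hC (AlgebraicClosure k')).toAddMonoidHom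
  have hm : ∀ σ τ a, act (σ * τ) a = act σ (act τ a) := by
    intro σ τ a
    change Affine.Point.map ((σ * τ : Gal k) : AlgebraicClosure k →ₐ[k] AlgebraicClosure k) a =
      Affine.Point.map (σ : AlgebraicClosure k →ₐ[k] AlgebraicClosure k)
        (Affine.Point.map (τ : AlgebraicClosure k →ₐ[k] AlgebraicClosure k) a)
    rw [Affine.Point.map_map]
    rfl
  -- `g` and the action
  have hg : ∀ (σ : Gal k') (Q : Pts W' (AlgebraicClosure k')),
      g (Affine.Point.map (σ : AlgebraicClosure k' →ₐ[k'] AlgebraicClosure k') Q) =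
        act (resG j σ) (g Q) := by
    intro σ Q
    change Affine.Point.map (j.symm : AlgebraicClosure k' →ₐ[k] AlgebraicClosure k)
      (tr hC (AlgebraicClosure k') (Affine.Point.map _ Q)) =
        Affine.Point.map _ (Affine.Point.map _ (tr hC (AlgebraicClosure k') Q))
    rw [tr_map, Affine.Point.map_map, Affine.Point.map_map]
    congr 2
    ext x
    change j.symm (σ x) = j.symm (σ (j (j.symm x)))
    rw [j.apply_symm_apply]
  let u : Gal k → Pts W (AlgebraicClosure k) := fun τ =>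
    if h : τ ∈ stH j x₀ then g (c (exists_lift3 j hk' h).choose) else 0
  have hu1 : ∀ σ : Gal k', u (resG j σ) = g (c σ) := by
    intro σ
    have h := resG_mem j x₀ σ
    have h2 : u (resG j σ) = g (c (exists_lift3 j hk' h).choose) := dif_pos h
    rw [h2, resG_inj j (exists_lift3 j hk' h).choose_spec]
  have hu0 : ∀ σ, σ ∉ stH j x₀ → u σ = 0 := fun σ h => dif_neg h
  have hcu : ∀ σ ∈ stH j x₀, ∀ τ ∈ stH j x₀, u (σ * τ) = u σ + act σ (u τ) := by
    intro σ hσ τ hτ
    obtain ⟨σ', rfl⟩ := exists_lift3 j hk' hσ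
    obtain ⟨τ', rfl⟩ := exists_lift3 j hk' hτ
    rw [← resG_mul, hu1, hu1, hu1, hc.2, map_add, hg]
  have hulc : IsLocallyConstant u := by
    intro s
    have h2 : u ⁻¹' s = (resG j) '' ((fun σ => g (c σ)) ⁻¹' s) ∪
        ((stH j x₀ : Set (Gal k))ᶜ ∩ {_τ | (0 : Pts W (AlgebraicClosure k)) ∈ s}) := by
      ext τ
      constructor
      · intro hτ
        by_cases h : τ ∈ stH j x₀
        · obtain ⟨σ, rfl⟩ := exists_lift3 j hk' h
          left
          refine ⟨σ, ?_, rfl⟩
          rw [Set.mem_preimage, hu1] at hτ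
          exact hτ
        · right
          refine ⟨h, ?_⟩
          rw [Set.mem_preimage, hu0 τ h] at hτ
          exact hτ
      · rintro (⟨σ, hσ, rfl⟩ | ⟨h, h0⟩)
        · rw [Set.mem_preimage, hu1]
          exact hσ
        · rw [Set.mem_preimage, hu0 τ h]
          exact h0
    rw [h2]
    refine IsOpen.union ?_ ?_
    · have h3 : IsLocallyConstant fun σ => g (c σ) := hc.1.comp g
      exact (resG_openEmb3 j hk').isOpenMap _ (h3 s)
    · refine IsOpen.inter ?_ isOpen_const
      have h4 : IsClosed (stH j x₀ : Set (Gal k)) := Subgroup.isClosed_of_isOpen _ (stH_isOpen j x₀)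
      exact h4.isOpen_compl
  -- the character
  have hw := wx_pow j hx
  have hχ : ∀ σ τ : Gal k, chi (wx j x₀) z (σ * τ) = chi (wx j x₀) z σ + chi (wx j x₀) z τ :=
    fun σ τ => chi_mul hw he hz σ τ
  have hmem : ∀ τ : Gal k, τ ∈ stH j x₀ ↔ chi (wx j x₀) z τ = 0 := fun τ => mem_stH j τ
  have hv0 : ∀ σ, chi (wx j x₀) z σ ≠ 0 → u σ = 0 := fun σ h => hu0 σ fun h' => h ((hmem σ).1 h')
  have hvc : ∀ σ, chi (wx j x₀) z σ = 0 → ∀ τ, chi (wx j x₀) z τ = 0 →
      u (σ * τ) = u σ + act σ (u τ) :=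
    fun σ hσ τ hτ => hcu σ ((hmem σ).2 hσ) τ ((hmem τ).2 hτ)
  refine ⟨corG act r u, ⟨?_, ?_⟩, ?_, ?_⟩
  · -- locally constant
    have hsum : ∀ (s : Finset (ZMod 3)) (f : ZMod 3 → Gal k → Pts W (AlgebraicClosure k)),
        (∀ i, IsLocallyConstant (f i)) → IsLocallyConstant fun τ => ∑ i ∈ s, f i τ := by
      intro s f hf
      induction s using Finset.induction_on with
      | empty =>
        simp only [Finset.sum_empty]
        exact IsLocallyConstant.const 0
      | insert a s ha ih =>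
        have e : (fun τ => ∑ i ∈ insert a s, f i τ) = f a + fun τ => ∑ i ∈ s, f i τ := by
          funext τ
          rw [Finset.sum_insert ha]
          rfl
        rw [e]
        exact (hf a).add ih
    have h5 : ∀ i l : ZMod 3, IsLocallyConstant fun τ : Gal k => act (r i)⁻¹ (u (r i * τ * (r l)⁻¹)) := by
      intro i l
      have e3 : IsLocallyConstant fun τ : Gal k => u (r i * τ * (r l)⁻¹) :=
        hulc.comp_continuous ((continuous_mul_const (r l)⁻¹).comp (continuous_const_mul (r i)))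
      exact e3.comp (act (r i)⁻¹)
    exact hsum Finset.univ (fun i τ => ∑ l : ZMod 3, act (r i)⁻¹ (u (r i * τ * (r l)⁻¹)))
      fun i => hsum Finset.univ (fun l τ => act (r i)⁻¹ (u (r i * τ * (r l)⁻¹))) (h5 i)
  · intro σ τ
    exact corG_coc act hm (chi (wx j x₀) z) hχ r hr u hv0 hvc σ τ
  · intro n hn
    obtain ⟨P', hP'⟩ := hn
    rw [show n • corG act r u = corG act r (n • u) from
      funext fun τ => (corG_nsmul act r u n τ).symm]
    have hu2 : ∀ σ, chi (wx j x₀) z σ = 0 → (n • u) σ = act σ (g P') - g P' := by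
      intro σ hσ
      obtain ⟨σ', rfl⟩ := exists_lift3 j hk' ((hmem σ).2 hσ)
      rw [Pi.smul_apply, hu1, ← map_nsmul, ← hg, ← map_sub]
      exact congrArg g (hP' σ')
    have hu3 : ∀ σ, chi (wx j x₀) z σ ≠ 0 → (n • u) σ = 0 := by
      intro σ hσ
      rw [Pi.smul_apply, hv0 σ hσ, smul_zero]
    exact ⟨_, fun τ => corG_cob act hm (chi (wx j x₀) z) hχ r hr (n • u) hu3 (g P') hu2 τ⟩
  · intro σ σ' hσ
    change (tr hC (AlgebraicClosure k')).symm
      (Affine.Point.map (j : AlgebraicClosure k →ₐ[k] AlgebraicClosure k')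
        (corG act r u (resG j σ))) = _
    have hχ0 : chi (wx j x₀) z (resG j σ) = 0 := (hmem _).1 (resG_mem j x₀ σ)
    rw [corG_eq act (chi (wx j x₀) z) hχ r hr u hv0, map_sum, map_sum]
    refine Finset.sum_congr rfl fun i _ => ?_
    rw [hχ0, add_zero, ← hσ i, hu1]
    change _ = (tr hC (AlgebraicClosure k')).symm (Affine.Point.map _
      (tr hC (AlgebraicClosure k') (c (σ' i))))
    congr 1
    change Affine.Point.map _ (Affine.Point.map _ (Affine.Point.map _
      (tr hC (AlgebraicClosure k') (c (σ' i))))) = _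
    rw [Affine.Point.map_map, Affine.Point.map_map]
    rfl

end Pool.Agent.Lib.MP_1a91b9_ntCS.S
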