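import Pool.Agent.Lib.MP_1a91b9_ntCS.S.U1
import Pool.Agent.Lib.MP_1a91b9_ntCS.S.A1

/-!
# CUBIC STABILITY, block S, leaf U3: a cocycle which becomes trivial over the cubic extension
-/

set_option autoImplicit false
set_option linter.unusedSectionVars false

namespace Pool.Agent.Lib.MP_1a91b9_ntCS.S

open WeierstrassCurve Pool.Agent.Lib.MP_1a91b9_nuT.S9
open Pool.Agent.Lib.MP_1a91b9_nuT.CT Pool.Agent.Lib.MP_1a91b9_ntC.Sh
open scoped Classical

variable [Pool.Agent.Lib.MP_1a91b9_nuT.CD]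

variable {k k' : Type} [Field k] [Field k'] [CharZero k] [CharZero k'] [Algebra k k']
  [Algebra.IsAlgebraic k k']

/-- A cocycle which becomes trivial over `k'` becomes trivial after multiplication by three.

PROOF. Copy of `two_cob_of_res` in MP_1a91b9_ntC/Sh/U.lean with `three_cob` (`χ = chi (wx j x₀) z`, `chi_mul`, `wx_pow`), `mem_stH`, `fix_of_mem3`. -/
theorem three_cob_of_res {W : WeierstrassCurve k} {W' : WeierstrassCurve k'} {C : VariableChange k'}
    (hC : C • W.baseChange k' = W') (j : AlgebraicClosure k ≃ₐ[k] AlgebraicClosure k') {x₀ : k'}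
    {e z : k} (hx : x₀ ^ 3 = algebraMap k k' e) (he : e ≠ 0) (hz : z ^ 2 + z + 1 = 0)
    (hk' : ∀ z : k', ∃ α β γ : k, z = algebraMap k k' α + algebraMap k k' β * x₀ +
      algebraMap k k' γ * x₀ ^ 2)
    (c : Gal k → Pts W (AlgebraicClosure k)) (hc : c ∈ coc W) (h : res hC j c ∈ cob W') :
    3 • c ∈ cob W := by
  obtain ⟨P, hP⟩ := cob_res hC j c h
  let act : Gal k → Pts W (AlgebraicClosure k) →+ Pts W (AlgebraicClosure k) := fun σ =>
    Affine.Point.map (σ : AlgebraicClosure k →ₐ[k] AlgebraicClosure k)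
  have h1 : ∀ a, act 1 a = a := by
    intro Q
    rcases Q with _ | ⟨x, y, h⟩ <;> rfl
  have hm : ∀ σ τ a, act (σ * τ) a = act σ (act τ a) := by
    intro σ τ a
    change Affine.Point.map ((σ * τ : Gal k) : AlgebraicClosure k →ₐ[k] AlgebraicClosure k) a =
      Affine.Point.map (σ : AlgebraicClosure k →ₐ[k] AlgebraicClosure k)
        (Affine.Point.map (τ : AlgebraicClosure k →ₐ[k] AlgebraicClosure k) a)
    rw [Affine.Point.map_map]
    rfl
  obtain ⟨R, hR⟩ := three_cob act h1 hm (chi (wx j x₀) z)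
    (fun σ τ => chi_mul (wx_pow j hx) he hz σ τ) c hc.2 P
    fun σ hσ => hP σ fun y => fix_of_mem3 j hk' ((mem_stH j σ).2 hσ) y
  exact ⟨R, fun σ => hR σ⟩

end Pool.Agent.Lib.MP_1a91b9_ntCS.S
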