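import Pool.Agent.Lib.MP_1a91b9_ntC.Sh.F
import Pool.Agent.Lib.MP_1a91b9_ntCS.S.U2
import Pool.Agent.Lib.MP_1a91b9_ntCS.S.U3
import Pool.Agent.Lib.MP_1a91b9_ntCS.S.K2
import Pool.Agent.Lib.MP_1a91b9_ntCS.S.S1
import Pool.Agent.Lib.MP_1a91b9_ntCS.S.S2

/-!
# CUBIC STABILITY, block S, leaf F: stability of the `q`-primary part of the Tate-Shafarevich group

`A = N(e^(1/3))`, `E : y² + a y = x³` over `N`, `V_i : y² + a e^i y = x³`. If the `q`-primary parts of the Tate-Shafarevich groups of `V_1`, `V_2` over `N` are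
trivial, `q ≠ 3`, then those of `E` over `A` and over `N` are isomorphic (by the restriction).
-/

set_option autoImplicit false
set_option linter.unusedSectionVars false

namespace Pool.Agent.Lib.MP_1a91b9_ntCS.S

open WeierstrassCurve Pool.Agent.Lib.MP_1a91b9_nuT.S9 NumberField IsDedekindDomain
open Pool.Agent.Lib.MP_1a91b9_nuT.CT Pool.Agent.Lib.MP_1a91b9_nuT.S5 Pool.Agent.Lib.MP_1a91b9_ntC.Sh
open scoped Classical

variable [Pool.Agent.Lib.MP_1a91b9_nuT.CD]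

open Pool.Agent.Lib.MP_1a91b9_nuT3.S9 (ShaP)

private theorem F_cj_one {N A : Type} [Field N] [CharZero N] [Field A] [CharZero A] [Algebra N A]
    [Algebra.IsAlgebraic N A] {W : WeierstrassCurve N} {W' : WeierstrassCurve A} {C : VariableChange A}
    (hC : C • W.baseChange A = W') (j : AlgebraicClosure N ≃ₐ[N] AlgebraicClosure A)
    (P : Pts W' (AlgebraicClosure A)) : cj hC j 1 P = P := by
  rw [cj_apply]
  have h1 : (((j.symm.trans ((1 : Gal N)⁻¹ : Gal N)).trans j :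
      AlgebraicClosure A ≃ₐ[N] AlgebraicClosure A) :
        AlgebraicClosure A →ₐ[N] AlgebraicClosure A) = AlgHom.id N _ := by
    ext x
    change j (j.symm x) = x
    exact j.apply_symm_apply x
  rw [h1]
  have h2 : ∀ Q : Pts W (AlgebraicClosure A), Affine.Point.map (AlgHom.id N (AlgebraicClosure A)) Q = Q := by
    intro Q
    rcases Q with _ | ⟨x, y, h⟩ <;> rfl
  rw [h2, AddEquiv.symm_apply_apply]

private theorem F_cj_congr {N A : Type} [Field N] [CharZero N] [Field A] [CharZero A] [Algebra N A]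
    [Algebra.IsAlgebraic N A] {W₁ W₂ : WeierstrassCurve N} (hW : W₁ = W₂) {W' : WeierstrassCurve A}
    {C₁ C₂ : VariableChange A} (hCC : C₁ = C₂) (h₁ : C₁ • W₁.baseChange A = W')
    (h₂ : C₂ • W₂.baseChange A = W') (j : AlgebraicClosure N ≃ₐ[N] AlgebraicClosure A) (ρ : Gal N)
    (P : Pts W' (AlgebraicClosure A)) : cj h₁ j ρ P = cj h₂ j ρ P := by
  subst hW
  subst hCC
  rfl

private theorem F_sum {M : Type*} [AddCommMonoid M] (f : ZMod 3 → M) : ∑ i : ZMod 3, f i = f 0 + f 1 + f 2 :=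
  Fin.sum_univ_three f

private theorem F_chi_conj {k : Type} [Field k] [CharZero k] {w : AlgebraicClosure k} {e z : k}
    (hw : w ^ 3 = algebraMap k (AlgebraicClosure k) e) (he : e ≠ 0) (hz : z ^ 2 + z + 1 = 0) (ρ τ : Gal k) :
    chi w z (ρ * τ * ρ⁻¹) = chi w z τ := by
  have h1 : chi w z (1 : Gal k) = 0 := (chi_zero 1).2 rfl
  have h2 : chi w z ρ + chi w z ρ⁻¹ = 0 := by
    rw [← chi_mul hw he hz, mul_inv_cancel, h1]
  rw [chi_mul hw he hz, chi_mul hw he hz, add_right_comm, h2, zero_add]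

/-- the restriction of the corestriction -/
private theorem F_res {N A : Type} [Field N] [NumberField N] [Field A] [NumberField A] [Algebra N A]
    (hcA : ∀ v : InfinitePlace A, v.IsComplex) {e z : N} {x₀ : A} (hx : x₀ ^ 3 = algebraMap N A e)
    (he : e ≠ 0) (hz : z ^ 2 + z + 1 = 0)
    (hx' : ∀ z : A, ∃ α β γ : N, z = algebraMap N A α + algebraMap N A β * x₀ +
      algebraMap N A γ * x₀ ^ 2) (j : AlgebraicClosure N ≃ₐ[N] AlgebraicClosure A)
    (r : ZMod 3 → Gal N) (hr0 : r 0 = 1)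
    (hlift : ∀ σ : Gal A, ∃ σ' : ZMod 3 → Gal A, σ' 0 = σ ∧ ∀ i, resG j (σ' i) = r i * resG j σ * (r i)⁻¹)
    {W : WeierstrassCurve N} {W' : WeierstrassCurve A} {C : VariableChange A} (h2 : C.r = 0)
    (h3 : C.s = 0) (h4 : C.t = 0) (hC : C • W.baseChange A = W')
    (c : Gal A → Pts W' (AlgebraicClosure A)) (hcs : c ∈ shaCoc W')
    (D : Gal N → Pts W (AlgebraicClosure N))
    (hD : ∀ (σ : Gal A) (σ' : ZMod 3 → Gal A),
        (∀ i, resG j (σ' i) = r i * resG j σ * (r i)⁻¹) →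
        res hC j D σ = ∑ i : ZMod 3, cj hC j (r i) (c (σ' i))) : res hC j D ∈ shaCoc W' := by
  obtain ⟨c1, hc1, hc1'⟩ := conj_sha3 hcA hx he hz hx' j (r 1) h2 h3 h4 hC c hcs
  obtain ⟨c2, hc2, hc2'⟩ := conj_sha3 hcA hx he hz hx' j (r 2) h2 h3 h4 hC c hcs
  have halg : Algebra.IsAlgebraic N A := by
    have hfin : FiniteDimensional N A := Module.Finite.of_restrictScalars_finite ℚ N A
    exact Algebra.IsAlgebraic.of_finite N A
  have h : res hC j D = c + c1 + c2 := by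
    funext σ
    obtain ⟨σ', h0, h1⟩ := hlift σ
    rw [hD σ σ' h1, F_sum, hr0, F_cj_one, h0, ← hc1' σ (σ' 1) (h1 1), ← hc2' σ (σ' 2) (h1 2)]
    rfl
  rw [h]
  exact add_mem (add_mem hcs hc1) hc2

/-- **Stability.**

PROOF. Copy the structure of `sha_stab` (MP_1a91b9_ntC/Sh/F.lean): `j`, `φ`, `ψ` with `hCE : 1 • E_A = E_A`. `r` from `chi_r` (`w = wx j x₀`; `w` in `N` would give `x₀` in `N`);
`r 0 = 1`. Injectivity: `three_cob_of_res` in place of `two_cob_of_res`. Surjectivity: `c ∈ shaCoc E_A`, `q ^ n • c ∈ cob`. `C i`, `hC i` from `exists_vc3`, all `i : ℕ` (`choose`).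
`D i = exists_cor3 (hC i)` (`i = 0, 1, 2`; `V_0 = ⟨0, 0, e ^ 0 * a, 0, 0⟩` is `E`, rewrite). `c i m = conj_sha3` for `hC i` and `ρ = r m`, `m = 1, 2`. The `σ' m` with
`resG j (σ' m) = r m * resG j σ * (r m)⁻¹` exist (`exists_lift3`: `chi` of the right side is `chi (resG j σ) = 0`; `mem_stH`, `chi_mul`), `σ' 0 = σ` (`r 0 = 1`, `resG_inj`). So
`res (hC i) j (D i) = c + c i 1 + c i 2` (for `m = 0`: `cj (hC i) j 1 P = P`), which is in `shaCoc`; by `tsum3` (for `ρ = r 1, r 2`)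
`∑ i, res (hC i) j (D i) = 3 • c`. By `desc_sha3` `3 • D i ∈ shaCoc`. For `i = 1, 2`: `q ^ n • (3 • D i) ∈ cob`, so `3 • D i ∈ cob` (`cob_of_shaP`) and `D i ∈ cob`
(`mem_of_coprime`, 3 prime to `q ^ n`), so `res (hC i) j (D i) ∈ cob` (`res_cob`). So `3 • c - res (hC 0) j (D 0) ∈ cob`. With `9 u + q ^ n v = 1`: the class of
`u • (3 • D 0)` is mapped to that of `c`. (`res (hC 0)` and `res hCE`: `(C 0).u = x₀ ^ 0 = 1`, so `C 0 = 1` and the two agree.) -/
theorem sha_stab3 {N A : Type} [Field N] [NumberField N] [Field A] [NumberField A] [Algebra N A]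
    (hcN : ∀ v : InfinitePlace N, v.IsComplex) (hcA : ∀ v : InfinitePlace A, v.IsComplex)
    {a e z : N} {x₀ : A} (hx : x₀ ^ 3 = algebraMap N A e) (he : e ≠ 0) (hz : z ^ 2 + z + 1 = 0)
    (hx' : ∀ z : A, ∃ α β γ : N, z = algebraMap N A α + algebraMap N A β * x₀ +
      algebraMap N A γ * x₀ ^ 2)
    (hn : ¬ ∃ y : N, algebraMap N A y = x₀) (q : ℕ) [hqp : Fact q.Prime] (hq : q ≠ 3)
    (hV1 : Subsingleton (ShaP q (⟨0, 0, e * a, 0, 0⟩ : WeierstrassCurve N)))
    (hV2 : Subsingleton (ShaP q (⟨0, 0, e ^ 2 * a, 0, 0⟩ : WeierstrassCurve N))) :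
    Nonempty (ShaP q ((⟨0, 0, a, 0, 0⟩ : WeierstrassCurve N).baseChange A) ≃+
      ShaP q (⟨0, 0, a, 0, 0⟩ : WeierstrassCurve N)) := by
  have hfin : FiniteDimensional N A := Module.Finite.of_restrictScalars_finite ℚ N A
  have halg : Algebra.IsAlgebraic N A := Algebra.IsAlgebraic.of_finite N A
  have hcl : IsAlgClosure N (AlgebraicClosure A) :=
    IsAlgClosure.ofAlgebraic N A (AlgebraicClosure A)
  obtain ⟨j⟩ : Nonempty (AlgebraicClosure N ≃ₐ[N] AlgebraicClosure A) :=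
    ⟨IsAlgClosure.equiv N (AlgebraicClosure N) (AlgebraicClosure A)⟩
  have hw : wx j x₀ ^ 3 = algebraMap N (AlgebraicClosure N) e := wx_pow j hx
  have hnw : ¬ ∃ y : N, algebraMap N (AlgebraicClosure N) y = wx j x₀ := by
    rintro ⟨y, hy⟩
    refine hn ⟨y, (algebraMap A (AlgebraicClosure A)).injective ?_⟩
    have h1 := congrArg j hy
    rw [wx, j.apply_symm_apply, j.commutes] at h1
    rw [← h1, ← IsScalarTower.algebraMap_apply]
  obtain ⟨r, hr0, hr⟩ := chi_r hw he hz hnw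
  have hlift : ∀ σ : Gal A, ∃ σ' : ZMod 3 → Gal A, σ' 0 = σ ∧
      ∀ i, resG j (σ' i) = r i * resG j σ * (r i)⁻¹ := by
    intro σ
    have h1 : ∀ i : ZMod 3, ∃ σ' : Gal A, resG j σ' = r i * resG j σ * (r i)⁻¹ := by
      intro i
      refine exists_lift3 j hx' ((mem_stH j (z := z) _).2 ?_)
      rw [F_chi_conj hw he hz]
      exact (mem_stH j (z := z) _).1 (resG_mem j x₀ σ)
    choose σ' hσ' using h1
    refine ⟨σ', resG_inj j ?_, hσ'⟩
    rw [hσ', hr0, one_mul, inv_one, mul_one]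
  have hcop : ∀ n : ℕ, Nat.Coprime 3 (q ^ n) := fun n =>
    Nat.Coprime.pow_right n ((Nat.coprime_primes Nat.prime_three hqp.out).2 (Ne.symm hq))
  choose C h1 h2 h3 h4 hC using fun i => exists_vc3 (N := N) (A := A) a hx he i
  have hCE := one_smul_bc (A := A) (⟨0, 0, a, 0, 0⟩ : WeierstrassCurve N)
  -- the restriction
  have hres : ∀ c ∈ shaCoc (⟨0, 0, a, 0, 0⟩ : WeierstrassCurve N), res hCE j c ∈ shaCoc _ :=
    fun c hc => res_sha hcA hCE j c hc
  let f : shaCoc (⟨0, 0, a, 0, 0⟩ : WeierstrassCurve N) →+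
      shaCoc ((⟨0, 0, a, 0, 0⟩ : WeierstrassCurve N).baseChange A) :=
    ((resH hCE j).comp (shaCoc (⟨0, 0, a, 0, 0⟩ : WeierstrassCurve N)).subtype).codRestrict _
      fun c => hres c c.2
  have hf : ∀ c : shaCoc (⟨0, 0, a, 0, 0⟩ : WeierstrassCurve N),
      ((f c : shaCoc _) : Gal A → Pts _ (AlgebraicClosure A)) = res hCE j c := fun c => rfl
  let φ : Sha (⟨0, 0, a, 0, 0⟩ : WeierstrassCurve N) →+
      Sha ((⟨0, 0, a, 0, 0⟩ : WeierstrassCurve N).baseChange A) :=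
    QuotientAddGroup.map _ _ f (by
      intro c hc
      rw [AddSubgroup.mem_comap, AddSubgroup.mem_addSubgroupOf, hf]
      exact res_cob hCE j _ (AddSubgroup.mem_addSubgroupOf.1 hc))
  have hφ : ∀ c : shaCoc (⟨0, 0, a, 0, 0⟩ : WeierstrassCurve N),
      φ (QuotientAddGroup.mk c) = QuotientAddGroup.mk (f c) := fun c => rfl
  have hφq : ∀ x : ShaP q (⟨0, 0, a, 0, 0⟩ : WeierstrassCurve N), φ x ∈
      AddCommGroup.primaryComponent
        (Sha ((⟨0, 0, a, 0, 0⟩ : WeierstrassCurve N).baseChange A)) q := by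
    rintro ⟨x, n, hn⟩
    refine ⟨n, ?_⟩
    rw [← _root_.map_nsmul, hn, _root_.map_zero]
  let ψ : ShaP q (⟨0, 0, a, 0, 0⟩ : WeierstrassCurve N) →+
      ShaP q ((⟨0, 0, a, 0, 0⟩ : WeierstrassCurve N).baseChange A) :=
    (φ.comp (AddCommGroup.primaryComponent
      (Sha (⟨0, 0, a, 0, 0⟩ : WeierstrassCurve N)) q).subtype).codRestrict _ hφq
  have hψ : ∀ x : ShaP q (⟨0, 0, a, 0, 0⟩ : WeierstrassCurve N), ((ψ x : ShaP q _) : Sha _) =
      φ x := fun x => rfl
  refine ⟨(AddEquiv.ofBijective ψ ⟨?_, ?_⟩).symm⟩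
  · -- injectivity
    rw [injective_iff_map_eq_zero]
    rintro ⟨x, n, hxn⟩ h0
    obtain ⟨⟨c, hc⟩, rfl⟩ := QuotientAddGroup.mk_surjective x
    have h5 : φ (QuotientAddGroup.mk ⟨c, hc⟩) = 0 := by
      rw [← hψ ⟨_, n, hxn⟩, h0]
      rfl
    rw [hφ, QuotientAddGroup.eq_zero_iff, AddSubgroup.mem_addSubgroupOf, hf] at h5
    rw [← QuotientAddGroup.mk_nsmul, QuotientAddGroup.eq_zero_iff,
      AddSubgroup.mem_addSubgroupOf] at hxn
    have h6 : 3 • c ∈ cob _ := three_cob_of_res hCE j hx he hz hx' c hc.1.1 h5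
    have h7 : c ∈ cob _ := mem_of_coprime _ (hcop n) h6 hxn
    apply Subtype.ext
    change (QuotientAddGroup.mk ⟨c, hc⟩ : Sha _) = 0
    rw [QuotientAddGroup.eq_zero_iff, AddSubgroup.mem_addSubgroupOf]
    exact h7
  · -- surjectivity
    rintro ⟨y, n, hyn⟩
    obtain ⟨⟨c, hc⟩, rfl⟩ := QuotientAddGroup.mk_surjective y
    rw [← QuotientAddGroup.mk_nsmul, QuotientAddGroup.eq_zero_iff,
      AddSubgroup.mem_addSubgroupOf] at hyn
    have hyn' : q ^ n • c ∈ cob _ := hyn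
    obtain ⟨D0, hD0, hD0n, hD0r⟩ := exists_cor3 hCE j hx he hz hx' r hr c hc.1.1
    obtain ⟨D1, hD1, hD1n, hD1r⟩ := exists_cor3 (hC 1) j hx he hz hx' r hr c hc.1.1
    obtain ⟨D2, hD2, hD2n, hD2r⟩ := exists_cor3 (hC 2) j hx he hz hx' r hr c hc.1.1
    have s0 : res hCE j D0 ∈ shaCoc _ :=
      F_res hcA hx he hz hx' j r hr0 hlift rfl rfl rfl hCE c hc D0 hD0r
    have s1 : res (hC 1) j D1 ∈ shaCoc _ :=
      F_res hcA hx he hz hx' j r hr0 hlift (h2 1) (h3 1) (h4 1) (hC 1) c hc D1 hD1r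
    have s2 : res (hC 2) j D2 ∈ shaCoc _ :=
      F_res hcA hx he hz hx' j r hr0 hlift (h2 2) (h3 2) (h4 2) (hC 2) c hc D2 hD2r
    have t0 : 3 • D0 ∈ shaCoc _ := desc_sha3 hcN hx he hz hx' hCE j D0 hD0 s0
    have t1 : 3 • D1 ∈ shaCoc _ := desc_sha3 hcN hx he hz hx' (hC 1) j D1 hD1 s1
    have t2 : 3 • D2 ∈ shaCoc _ := desc_sha3 hcN hx he hz hx' (hC 2) j D2 hD2 s2
    have hV1' : Subsingleton (ShaP q (⟨0, 0, e ^ 1 * a, 0, 0⟩ : WeierstrassCurve N)) := by
      rw [pow_one]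
      exact hV1
    have u1 : D1 ∈ cob _ := by
      refine mem_of_coprime _ (hcop n) (cob_of_shaP q hV1' _ t1 n ?_) (hD1n _ hyn')
      rw [smul_comm]
      exact nsmul_mem (hD1n _ hyn') 3
    have u2 : D2 ∈ cob _ := by
      refine mem_of_coprime _ (hcop n) (cob_of_shaP q hV2 _ t2 n ?_) (hD2n _ hyn')
      rw [smul_comm]
      exact nsmul_mem (hD2n _ hyn') 3
    have v1 : res (hC 1) j D1 ∈ cob _ := res_cob (hC 1) j _ u1
    have v2 : res (hC 2) j D2 ∈ cob _ := res_cob (hC 2) j _ u2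
    -- the sum of the three restrictions is `3 c`
    have hC0 : C 0 = 1 := by
      have e1 : (C 0).u = 1 := Units.ext (by rw [h1 0, pow_zero]; rfl)
      exact VariableChange.ext e1 (h2 0) (h3 0) (h4 0)
    have hW0 : (⟨0, 0, e ^ 0 * a, 0, 0⟩ : WeierstrassCurve N) = ⟨0, 0, a, 0, 0⟩ := by
      rw [pow_zero, one_mul]
    have hts : ∀ (m : ZMod 3), m ≠ 0 → ∀ P, cj hCE j (r m) P + cj (hC 1) j (r m) P + cj (hC 2) j (r m) P = 0 := by
      intro m hm P
      rw [← F_cj_congr hW0 hC0 (hC 0) hCE j (r m) P]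
      exact tsum3 hx he hz j (by rw [hr]; exact hm) h1 h2 h3 h4 hC P
    have hsum : res hCE j D0 + res (hC 1) j D1 + res (hC 2) j D2 = 3 • c := by
      funext σ
      obtain ⟨σ', h0, hσ'⟩ := hlift σ
      have e0 : ∀ P, cj hCE j (r 0) P = P := by
        intro P
        rw [hr0]
        exact F_cj_one hCE j P
      have e1 : ∀ P, cj (hC 1) j (r 0) P = P := by
        intro P
        rw [hr0]
        exact F_cj_one (hC 1) j P
      have e2 : ∀ P, cj (hC 2) j (r 0) P = P := by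
        intro P
        rw [hr0]
        exact F_cj_one (hC 2) j P
      have a1 := hts 1 (by decide) (c (σ' 1))
      have a2 := hts 2 (by decide) (c (σ' 2))
      rw [Pi.add_apply, Pi.add_apply, hD0r σ σ' hσ', hD1r σ σ' hσ', hD2r σ σ' hσ', F_sum, F_sum, F_sum,
        e0, e1, e2, h0]
      change _ = 3 • c σ
      have a3 : ∀ x p1 p2 q1 q2 r1 r2 : Pts ((⟨0, 0, a, 0, 0⟩ : WeierstrassCurve N).baseChange A)
          (AlgebraicClosure A), p1 + q1 + r1 = 0 → p2 + q2 + r2 = 0 →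
          x + p1 + p2 + (x + q1 + q2) + (x + r1 + r2) = 3 • x := by
        intro x p1 p2 q1 q2 r1 r2 g1 g2
        calc x + p1 + p2 + (x + q1 + q2) + (x + r1 + r2) =
            3 • x + (p1 + q1 + r1) + (p2 + q2 + r2) := by abel
          _ = 3 • x := by rw [g1, g2, add_zero, add_zero]
      exact a3 _ _ _ _ _ _ _ a1 a2
    have h9 : 3 • c - res hCE j D0 ∈ cob _ := by
      rw [← hsum]
      have e1 : res hCE j D0 + res (hC 1) j D1 + res (hC 2) j D2 - res hCE j D0 =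
          res (hC 1) j D1 + res (hC 2) j D2 := by abel
      rw [e1]
      exact add_mem v1 v2
    have h11 : q ^ n • (3 • D0) ∈ cob _ := by
      rw [smul_comm]
      exact nsmul_mem (hD0n _ hyn') 3
    have h9q : Nat.Coprime 9 (q ^ n) := by
      have := Nat.Coprime.mul_left (hcop n) (hcop n)
      simpa using this
    obtain ⟨u, v, huv⟩ := Nat.isCoprime_iff_coprime.2 h9q
    push_cast at huv
    obtain ⟨x, hx1⟩ : ∃ x : Sha (⟨0, 0, a, 0, 0⟩ : WeierstrassCurve N),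
        x = QuotientAddGroup.mk (⟨u • (3 • D0), zsmul_mem t0 u⟩ : shaCoc _) := ⟨_, rfl⟩
    have hxn : q ^ n • x = 0 := by
      rw [hx1, ← QuotientAddGroup.mk_nsmul, QuotientAddGroup.eq_zero_iff,
        AddSubgroup.mem_addSubgroupOf]
      change q ^ n • (u • (3 • D0)) ∈ cob _
      rw [smul_comm]
      exact zsmul_mem h11 u
    refine ⟨⟨x, n, hxn⟩, Subtype.ext ?_⟩
    rw [hψ]
    change φ x = QuotientAddGroup.mk ⟨c, hc⟩
    rw [hx1, hφ, ← sub_eq_zero, ← QuotientAddGroup.mk_sub, QuotientAddGroup.eq_zero_iff,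
      AddSubgroup.mem_addSubgroupOf]
    change res hCE j (u • (3 • D0)) - c ∈ cob _
    have h12 : res hCE j (u • (3 • D0)) = u • (3 • res hCE j D0) := by
      rw [← resH_apply, ← resH_apply, _root_.map_zsmul, _root_.map_nsmul]
    have h13 : res hCE j (u • (3 • D0)) - c =
        -(v • (q ^ n • c)) - u • (3 • (3 • c - res hCE j D0)) := by
      rw [h12]
      have e1 : c = (u * 9 + v * (q : ℤ) ^ n) • c := by rw [huv, one_smul]
      calc u • (3 • res hCE j D0) - c = u • (3 • res hCE j D0) - (u * 9 + v * (q : ℤ) ^ n) • c := by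
            rw [← e1]
        _ = -(v • (((q ^ n : ℕ) : ℤ) • c)) - u • (3 • (3 • c - res hCE j D0)) := by
            push_cast
            module
        _ = _ := by rw [natCast_zsmul]
    rw [h13]
    exact sub_mem (neg_mem (zsmul_mem hyn' v)) (zsmul_mem (nsmul_mem h9 3) u)

end Pool.Agent.Lib.MP_1a91b9_ntCS.S
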