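import Pool.Agent.Lib.MP_1a91b9_ntC.Sh.R

/-!
# CUBIC STABILITY, block S, leaf G: the equations are integral with unit discriminant above almost all `q`
-/

set_option autoImplicit false
set_option linter.unusedSectionVars false

namespace Pool.Agent.Lib.MP_1a91b9_ntCS.S

open NumberField IsDedekindDomain WeierstrassCurve Pool.Agent.Lib.MP_1a91b9_ntC.Sh

/-- an integer prime to `q` is a unit at the places above `q` -/
private theorem g3_val_int {L : Type} [Field L] [NumberField L] {q : ℕ} {D : ℤ}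
    (hD : IsCoprime D (q : ℤ)) {v : HeightOneSpectrum (𝓞 L)} (hv : (q : 𝓞 L) ∈ v.asIdeal) :
    v.valuation L ((D : ℤ) : L) = 1 := by
  have h1 : ((D : ℤ) : L) = algebraMap (𝓞 L) L ((D : ℤ) : 𝓞 L) := by simp
  rw [h1]
  refine le_antisymm (v.valuation_le_one _) (not_lt.1 fun h => ?_)
  rw [HeightOneSpectrum.valuation_lt_one_iff_mem] at h
  obtain ⟨a, b, hab⟩ := hD
  have h2 : (1 : 𝓞 L) ∈ v.asIdeal := by
    have h3 : (1 : 𝓞 L) = (a : 𝓞 L) * (D : 𝓞 L) + (b : 𝓞 L) * (q : 𝓞 L) := by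
      exact_mod_cast (congrArg (Int.cast : ℤ → 𝓞 L) hab).symm
    rw [h3]
    exact v.asIdeal.add_mem (v.asIdeal.mul_mem_left _ h) (v.asIdeal.mul_mem_left _ hv)
  exact v.isPrime.ne_top ((Ideal.eq_top_iff_one _).2 h2)

/-- integrality at the places above `q` -/
private theorem g3_val_le {K L : Type} [Field K] [NumberField K] [Field L] [NumberField L]
    [Algebra K L] {x : K} {D : ℤ} (hx : IsIntegral ℤ ((D : K) * x)) {q : ℕ}
    (hD : IsCoprime D (q : ℤ)) {v : HeightOneSpectrum (𝓞 L)} (hv : (q : 𝓞 L) ∈ v.asIdeal) :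
    v.valuation L (algebraMap K L x) ≤ 1 := by
  have h1 : IsIntegral ℤ (algebraMap K L ((D : K) * x)) := hx.map (algebraMap K L).toIntAlgHom
  have h2 : v.valuation L (algebraMap K L ((D : K) * x)) ≤ 1 :=
    v.valuation_le_one (⟨_, h1⟩ : 𝓞 L)
  rwa [map_mul, map_intCast, map_mul, g3_val_int hD hv, one_mul] at h2

/-- a common denominator -/
private theorem g3_exists_den {K : Type} [Field K] [NumberField K] (x : K) :
    ∃ D : ℤ, D ≠ 0 ∧ IsIntegral ℤ ((D : K) * x) := by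
  obtain ⟨y, hy, hxy⟩ := ((IsFractionRing.isAlgebraic_iff ℤ ℚ K).2
    (Algebra.IsAlgebraic.isAlgebraic (R := ℚ) x)).exists_integral_multiple
  rw [zsmul_eq_mul] at hxy
  exact ⟨y, hy, hxy⟩

/-- a unit of `K` at `q` has value one above `q` -/
private theorem g3_val_one {K L : Type} [Field K] [NumberField K] [Field L] [NumberField L]
    [Algebra K L] {x : K} {D : ℤ} (h0 : x ≠ 0) (hx : IsIntegral ℤ ((D : K) * x))
    (hx' : IsIntegral ℤ ((D : K) * x⁻¹)) {q : ℕ} (hD : IsCoprime D (q : ℤ))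
    {v : HeightOneSpectrum (𝓞 L)} (hv : (q : 𝓞 L) ∈ v.asIdeal) :
    v.valuation L (algebraMap K L x) = 1 := by
  have h1 := g3_val_le (L := L) hx hD hv
  have h2 := g3_val_le (L := L) hx' hD hv
  have h3 : v.valuation L (algebraMap K L x) ≠ 0 :=
    (Valuation.ne_zero_iff _).2 ((map_ne_zero _).2 h0)
  refine le_antisymm h1 ?_
  rw [map_inv₀, map_inv₀] at h2
  exact (inv_le_one₀ (zero_lt_iff.2 h3)).1 h2

/-- the equation `y² + b y = x³` with `b` a unit above `q`, `q` prime to `27` -/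
private theorem g3_good_crv {L : Type} [Field L] [NumberField L] {q : ℕ} {b : L}
    (h27 : IsCoprime (27 : ℤ) (q : ℤ))
    (h : ∀ v : HeightOneSpectrum (𝓞 L), (q : 𝓞 L) ∈ v.asIdeal → v.valuation L b = 1) :
    GoodQ q (⟨0, 0, b, 0, 0⟩ : WeierstrassCurve L) := by
  intro v hv
  have h1 := h v hv
  refine ⟨⟨?_, ?_, h1.le, ?_, ?_⟩, ?_⟩
  · rw [map_zero]
    exact zero_le_one
  · rw [map_zero]
    exact zero_le_one
  · rw [map_zero]
    exact zero_le_one
  · rw [map_zero]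
    exact zero_le_one
  · have h2 : (⟨0, 0, b, 0, 0⟩ : WeierstrassCurve L).Δ = -(((27 : ℤ) : L) * b ^ 4) := by
      simp only [WeierstrassCurve.Δ, WeierstrassCurve.b₂, WeierstrassCurve.b₄,
        WeierstrassCurve.b₆, WeierstrassCurve.b₈]
      push_cast
      ring
    rw [h2, Valuation.map_neg, map_mul, map_pow, g3_val_int h27 hv, h1, one_pow, one_mul]

/-- **The exceptional primes.** PROOF. Copy of `exists_good` in MP_1a91b9_ntC/Sh/G.lean and of its lemmas `good_crv`, `val_int`, `val_le`, `val_one`, `exists_den` (private, renamed; do not import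
that file, it is heavy): the discriminant of
`y² + b y = x³` is `-27 b⁴`. Take the primes dividing the denominators of `a`, `a⁻¹`, `d`, `d⁻¹`, the norm of `d`, and `2`, `3`. -/
theorem exists_good3 {K : Type} [Field K] [NumberField K] {a : K} (ha : a ≠ 0)
    {d : 𝓞 K} (hd : d ≠ 0) : ∃ S : Finset ℕ, ∀ q : ℕ, q.Prime → q ∉ S → 5 ≤ q ∧
      ∀ (L : Type) [Field L] [NumberField L] [Algebra K L],
        GoodQ q (⟨0, 0, algebraMap K L a, 0, 0⟩ : WeierstrassCurve L) ∧
        GoodQ q (⟨0, 0, algebraMap K L (d : K) * algebraMap K L a, 0, 0⟩ : WeierstrassCurve L) ∧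
        GoodQ q (⟨0, 0, algebraMap K L (d : K) ^ 2 * algebraMap K L a, 0, 0⟩ :
          WeierstrassCurve L) ∧
        ∀ e : 𝓞 L, (e : L) = algebraMap K L (d : K) → IsCoprime (Algebra.norm ℤ e) (q : ℤ) := by
  have hd' : (d : K) ≠ 0 := by exact_mod_cast hd
  obtain ⟨D1, h1, i1⟩ := g3_exists_den a
  obtain ⟨D2, h2, i2⟩ := g3_exists_den a⁻¹
  obtain ⟨D5, h5, i5⟩ := g3_exists_den (d : K)
  obtain ⟨D6, h6, i6⟩ := g3_exists_den (d : K)⁻¹
  obtain ⟨n, hn⟩ : ∃ n, n = Algebra.norm ℤ d := ⟨_, rfl⟩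
  have hn0 : n ≠ 0 := by
    rw [hn]
    exact (Algebra.norm_ne_zero_iff).2 hd
  obtain ⟨D, hD⟩ : ∃ D : ℤ, D = (D1 * D2) * (D5 * D6) * n * 2 * 27 := ⟨_, rfl⟩
  have hD0 : D ≠ 0 := by
    rw [hD]
    exact mul_ne_zero (mul_ne_zero (mul_ne_zero (mul_ne_zero (mul_ne_zero h1 h2)
      (mul_ne_zero h5 h6)) hn0) two_ne_zero) (by norm_num)
  refine ⟨D.natAbs.primeFactors, fun q hq hqS => ?_⟩
  have hqD : IsCoprime D (q : ℤ) := by
    rw [isCoprime_comm, Int.isCoprime_iff_gcd_eq_one, Int.gcd, Int.natAbs_natCast]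
    refine (Nat.Prime.coprime_iff_not_dvd hq).2 fun h => hqS ?_
    exact Nat.mem_primeFactors.2 ⟨hq, h, Int.natAbs_ne_zero.2 hD0⟩
  have c12 : IsCoprime (D1 * D2) (q : ℤ) := hqD.of_isCoprime_of_dvd_left
    ⟨(D5 * D6) * n * 2 * 27, by rw [hD]; ring⟩
  have c56 : IsCoprime (D5 * D6) (q : ℤ) := hqD.of_isCoprime_of_dvd_left
    ⟨(D1 * D2) * n * 2 * 27, by rw [hD]; ring⟩
  have cn : IsCoprime n (q : ℤ) := hqD.of_isCoprime_of_dvd_left
    ⟨(D1 * D2) * (D5 * D6) * 2 * 27, by rw [hD]; ring⟩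
  have c2 : IsCoprime 2 (q : ℤ) := hqD.of_isCoprime_of_dvd_left
    ⟨(D1 * D2) * (D5 * D6) * n * 27, by rw [hD]; ring⟩
  have c27 : IsCoprime 27 (q : ℤ) := hqD.of_isCoprime_of_dvd_left
    ⟨(D1 * D2) * (D5 * D6) * n * 2, by rw [hD]; ring⟩
  have int_mul : ∀ (m : ℤ) {x : K}, _root_.IsIntegral ℤ x →
      _root_.IsIntegral ℤ ((m : K) * x) := fun m x hx =>
    (isIntegral_algebraMap (x := m)).mul hx
  have j1 : _root_.IsIntegral ℤ (((D1 * D2 : ℤ) : K) * a) := by
    have := int_mul D2 i1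
    rwa [← mul_assoc, ← Int.cast_mul, mul_comm D2] at this
  have j2 : _root_.IsIntegral ℤ (((D1 * D2 : ℤ) : K) * a⁻¹) := by
    have := int_mul D1 i2
    rwa [← mul_assoc, ← Int.cast_mul] at this
  have j5 : _root_.IsIntegral ℤ (((D5 * D6 : ℤ) : K) * (d : K)) := by
    have := int_mul D6 i5
    rwa [← mul_assoc, ← Int.cast_mul, mul_comm D6] at this
  have j6 : _root_.IsIntegral ℤ (((D5 * D6 : ℤ) : K) * (d : K)⁻¹) := by
    have := int_mul D5 i6
    rwa [← mul_assoc, ← Int.cast_mul] at this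
  refine ⟨?_, ?_⟩
  · have q2 : q ≠ 2 := by
      rintro rfl
      have h7 := Int.isCoprime_iff_gcd_eq_one.1 c2
      norm_num at h7
    have q3 : q ≠ 3 := by
      rintro rfl
      have h7 := Int.isCoprime_iff_gcd_eq_one.1 c27
      norm_num at h7
    have q4 : q ≠ 4 := by
      rintro rfl
      norm_num at hq
    have := hq.two_le
    omega
  · intro L _ _ _
    have va : ∀ v : HeightOneSpectrum (𝓞 L), (q : 𝓞 L) ∈ v.asIdeal →
        v.valuation L (algebraMap K L a) = 1 := fun v hv => g3_val_one (L := L) ha j1 j2 c12 hv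
    have vd : ∀ v : HeightOneSpectrum (𝓞 L), (q : 𝓞 L) ∈ v.asIdeal →
        v.valuation L (algebraMap K L (d : K)) = 1 :=
      fun v hv => g3_val_one (L := L) hd' j5 j6 c56 hv
    refine ⟨g3_good_crv c27 va, g3_good_crv c27 fun v hv => ?_,
      g3_good_crv c27 fun v hv => ?_, ?_⟩
    · rw [map_mul, va v hv, vd v hv, one_mul]
    · rw [map_mul, map_pow, va v hv, vd v hv, one_pow, one_mul]
    · intro e he
      have h7 : ((Algebra.norm ℤ e : ℤ) : ℚ) = ((n ^ Module.finrank K L : ℤ) : ℚ) := by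
        have : FiniteDimensional K L := Module.Finite.of_restrictScalars_finite ℚ K L
        rw [Algebra.coe_norm_int, he, ← Algebra.norm_norm (S := K), Algebra.norm_algebraMap,
          map_pow, hn]
        push_cast
        rw [Algebra.coe_norm_int]
      have h8 : Algebra.norm ℤ e = n ^ Module.finrank K L := by exact_mod_cast h7
      rw [h8]
      exact cn.pow_left

end Pool.Agent.Lib.MP_1a91b9_ntCS.S
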