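import Mathlib

/-!
# CUBIC STABILITY, block S, leaf G2: generation by a cube root, and cubes in extensions of degree prime to three
-/

set_option autoImplicit false

namespace Pool.Agent.Lib.MP_1a91b9_ntCS.S

/-- PROOF. `y` is integral over `F`, so `IntermediateField.adjoin F {y}` is `Algebra.adjoin F {y}` (`IntermediateField.adjoin_simple_toSubalgebra_of_isAlgebraic`), and every element is
`aeval y p`; divide `p` by the monic polynomial `X ^ 3 - C e` (`Polynomial.modByMonic`): the remainder has degree `< 3` (or: the set of the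
`α + β y + γ y²` is a subalgebra which contains `y`). See `quad_gen` in MP_1a91b9_ntC/LAll.lean. -/
theorem cube_gen {F F' : Type} [Field F] [Field F'] [Algebra F F'] {e : F} {y : F'}
    (hy : y ^ 3 = algebraMap F F' e) (hgen : IntermediateField.adjoin F {y} = ⊤) (z : F') :
    ∃ α β γ : F, z = algebraMap F F' α + algebraMap F F' β * y + algebraMap F F' γ * y ^ 2 := by
  have hint : IsIntegral F y := by
    refine ⟨Polynomial.X ^ 3 - Polynomial.C e, Polynomial.monic_X_pow_sub_C e three_ne_zero, ?_⟩
    simp [hy]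
  have halg : (IntermediateField.adjoin F {y}).toSubalgebra = Algebra.adjoin F {y} :=
    IntermediateField.adjoin_simple_toSubalgebra_of_isAlgebraic hint.isAlgebraic
  have hz : z ∈ Algebra.adjoin F {y} := by
    rw [← halg, hgen]
    exact Algebra.mem_top
  refine Algebra.adjoin_induction
    (p := fun w _ => ∃ α β γ : F,
      w = algebraMap F F' α + algebraMap F F' β * y + algebraMap F F' γ * y ^ 2)
    ?_ ?_ ?_ ?_ hz
  · intro w hw
    rw [Set.mem_singleton_iff] at hw
    exact ⟨0, 1, 0, by rw [hw, map_zero, map_one]; ring⟩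
  · intro r
    exact ⟨r, 0, 0, by rw [map_zero]; ring⟩
  · rintro w v _ _ ⟨a, b, c, h1⟩ ⟨a', b', c', h2⟩
    exact ⟨a + a', b + b', c + c', by rw [h1, h2, map_add, map_add, map_add]; ring⟩
  · rintro w v _ _ ⟨a, b, c, h1⟩ ⟨a', b', c', h2⟩
    refine ⟨a * a' + e * (b * c' + c * b'), a * b' + b * a' + e * (c * c'),
      a * c' + b * b' + c * a', ?_⟩
    rw [h1, h2]
    simp only [map_add, map_mul]
    rw [← hy]
    ring

/-- PROOF. `X ^ 3 - C e` is irreducible over `F` (a cubic without a root; `X_pow_sub_C_irreducible_of_prime`), so it is the minimal polynomial of `y`, and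
`3 ∣ finrank F L` (`minpoly.degree_dvd`, see `not_sq_odd` in MP_1a91b9_ntC/Sh/T.lean). -/
theorem not_cube {F L : Type} [Field F] [NumberField F] [Field L] [NumberField L] [Algebra F L]
    (h : (Module.finrank F L).Coprime 3) {e : F} (he : ¬ ∃ x : F, x ^ 3 = e) :
    ¬ ∃ y : L, y ^ 3 = algebraMap F L e := by
  rintro ⟨y, hy⟩
  have hirr : Irreducible (Polynomial.X ^ 3 - Polynomial.C e : Polynomial F) :=
    X_pow_sub_C_irreducible_of_prime Nat.prime_three fun b hb => he ⟨b, hb⟩
  have hmonic : (Polynomial.X ^ 3 - Polynomial.C e : Polynomial F).Monic :=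
    Polynomial.monic_X_pow_sub_C e three_ne_zero
  have hroot : Polynomial.aeval y (Polynomial.X ^ 3 - Polynomial.C e : Polynomial F) = 0 := by
    simp [hy]
  have hmin : Polynomial.X ^ 3 - Polynomial.C e = minpoly F y :=
    minpoly.eq_of_irreducible_of_monic hirr hroot hmonic
  have hfd : FiniteDimensional F L := by
    by_contra hf
    have h0 : Module.finrank F L = 0 := Module.finrank_of_not_finite hf
    rw [h0] at h
    exact absurd h (by decide)
  have hint : IsIntegral F y := IsIntegral.of_finite F y
  have hdvd : (minpoly F y).natDegree ∣ Module.finrank F L := minpoly.degree_dvd hint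
  rw [← hmin, Polynomial.natDegree_X_pow_sub_C] at hdvd
  have h1 : 3 ∣ Nat.gcd (Module.finrank F L) 3 := Nat.dvd_gcd hdvd (dvd_refl 3)
  rw [Nat.coprime_iff_gcd_eq_one] at h
  rw [h] at h1
  exact absurd h1 (by decide)

end Pool.Agent.Lib.MP_1a91b9_ntCS.S
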