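import Pool.Agent.Lib.MP_1a91b9_ntCS.S.I2

/-!
# CUBIC STABILITY, block S, leaf I3: the index and the rank
-/

set_option autoImplicit false
set_option linter.unusedSectionVars false

namespace Pool.Agent.Lib.MP_1a91b9_ntCS.S

open WeierstrassCurve NumberField

/-- The rank of a group and of a subgroup which contains a multiple. -/
private theorem I3_rank {A B : Type} [AddCommGroup A] [AddCommGroup B] (f : A →+ B)
    (hf : Function.Injective f) {n : ℕ} (hn : n ≠ 0) (h : ∀ x : B, n • x ∈ f.range) :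
    Module.finrank ℤ B = Module.finrank ℤ A := by
  have h1 : Module.rank ℤ A = Module.rank ℤ (LinearMap.range f.toIntLinearMap) :=
    (LinearEquiv.ofInjective f.toIntLinearMap hf).rank_eq
  let g : B →ₗ[ℤ] B := (n : ℤ) • LinearMap.id
  have hg : ∀ x, g x = n • x := fun x => natCast_zsmul x n
  have h2 := LinearMap.rank_range_add_rank_ker g
  have h3 : Module.rank ℤ (LinearMap.ker g) = 0 := by
    rw [rank_eq_zero_iff]
    rintro ⟨x, hx⟩
    refine ⟨(n : ℤ), by exact_mod_cast hn, ?_⟩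
    apply Subtype.ext
    rw [LinearMap.mem_ker, hg] at hx
    show (n : ℤ) • x = 0
    rw [natCast_zsmul, hx]
  have h4 : LinearMap.range g ≤ LinearMap.range f.toIntLinearMap := by
    rintro _ ⟨x, rfl⟩
    rw [hg]
    obtain ⟨y, hy⟩ := h x
    exact ⟨y, hy⟩
  have h5 : Module.rank ℤ B = Module.rank ℤ (LinearMap.range f.toIntLinearMap) := by
    refine le_antisymm ?_ (Submodule.rank_le _)
    rw [← h2, h3, add_zero]
    exact Submodule.rank_mono h4
  unfold Module.finrank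
  rw [h5, h1]

/-- A finitely generated group killed by a number is finite. -/
private theorem I3_fin {A : Type} [AddCommGroup A] (hA : AddGroup.FG A) {n : ℕ} (hn : n ≠ 0)
    (hk : ∀ x : A, n • x = 0) : Finite A := by
  have h1 : Module.Finite ℤ A := Module.Finite.iff_addGroup_fg.2 hA
  refine Module.finite_of_fg_torsion _ ?_
  intro x
  refine ⟨⟨(n : ℤ), mem_nonZeroDivisors_of_ne_zero (by exact_mod_cast hn)⟩, ?_⟩
  change (n : ℤ) • x = 0
  rw [natCast_zsmul, hk]

private theorem I3_ell {L L' : Type} [Field L] [NumberField L] [Field L'] [NumberField L']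
    [DecidableEq L'] [Algebra L L'] {a : L} (ha : a ≠ 0) :
    ((⟨0, 0, a, 0, 0⟩ : WeierstrassCurve L).baseChange L').IsElliptic := by
  have h1 : (⟨0, 0, a, 0, 0⟩ : WeierstrassCurve L).Δ ≠ 0 := by
    have h4 : (⟨0, 0, a, 0, 0⟩ : WeierstrassCurve L).Δ = -27 * a ^ 4 := by
      simp only [WeierstrassCurve.Δ, WeierstrassCurve.b₂, WeierstrassCurve.b₄,
        WeierstrassCurve.b₆, WeierstrassCurve.b₈]
      ring
    rw [h4]
    exact mul_ne_zero (by norm_num) (pow_ne_zero _ ha)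
  have h2 : ((⟨0, 0, a, 0, 0⟩ : WeierstrassCurve L).baseChange L').Δ ≠ 0 := by
    change ((⟨0, 0, a, 0, 0⟩ : WeierstrassCurve L).map (algebraMap L L')).Δ ≠ 0
    rw [WeierstrassCurve.map_Δ]
    exact (_root_.map_ne_zero _).2 h1
  exact ⟨isUnit_iff_ne_zero.2 h2⟩

/-- The index is prime to `q`. PROOF. As the end of `idx_coprime` (MP_1a91b9_ntC/Sh/Ix.lean): Mordell-Weil, `ix_card` for `n = 3 #V_1(L) #V_2(L)`, `kill3`. -/
theorem idx3 {L L' : Type} [Field L] [NumberField L] [Field L'] [NumberField L']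
    [DecidableEq L] [DecidableEq L'] [Algebra L L'] {a : L} (ha : a ≠ 0) {e z : L} (he : e ≠ 0)
    (hz : z ^ 2 + z + 1 = 0) {y : L'} (hy : y ^ 3 = algebraMap L L' e)
    (hn : ¬ ∃ z : L, algebraMap L L' z = y)
    (hg : ∀ z : L', ∃ α β γ : L, z = algebraMap L L' α + algebraMap L L' β * y +
      algebraMap L L' γ * y ^ 2) {q : ℕ} (hq : q.Prime) (hq3 : q ≠ 3)
    (hV1 : Finite (⟨0, 0, e * a, 0, 0⟩ : WeierstrassCurve L).toAffine.Point)
    (hc1 : (Nat.card (⟨0, 0, e * a, 0, 0⟩ : WeierstrassCurve L).toAffine.Point).Coprime q)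
    (hV2 : Finite (⟨0, 0, e ^ 2 * a, 0, 0⟩ : WeierstrassCurve L).toAffine.Point)
    (hc2 : (Nat.card (⟨0, 0, e ^ 2 * a, 0, 0⟩ : WeierstrassCurve L).toAffine.Point).Coprime q) :
    (HL (L := L) ((⟨0, 0, a, 0, 0⟩ : WeierstrassCurve L).baseChange L')).index.Coprime q := by
  have hell := I3_ell (L' := L') ha
  have hm1 : Nat.card (⟨0, 0, e * a, 0, 0⟩ : WeierstrassCurve L).toAffine.Point ≠ 0 :=
    Nat.card_ne_zero.2 ⟨⟨0⟩, hV1⟩
  have hm2 : Nat.card (⟨0, 0, e ^ 2 * a, 0, 0⟩ : WeierstrassCurve L).toAffine.Point ≠ 0 :=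
    Nat.card_ne_zero.2 ⟨⟨0⟩, hV2⟩
  have hfg : AddGroup.FG ((⟨0, 0, a, 0, 0⟩ : WeierstrassCurve L).baseChange L').toAffine.Point :=
    Pool.Agent.Lib.MP_17a322_nt.VJ.mordell_weil _
  have hfg' : AddGroup.FG (((⟨0, 0, a, 0, 0⟩ : WeierstrassCurve L).baseChange L').toAffine.Point ⧸
      HL (L := L) ((⟨0, 0, a, 0, 0⟩ : WeierstrassCurve L).baseChange L')) := inferInstance
  refine Pool.Agent.Lib.MP_1a91b9_ntC.Sh.ix_card hfg'
    (n := 3 * (Nat.card (⟨0, 0, e * a, 0, 0⟩ : WeierstrassCurve L).toAffine.Point *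
      Nat.card (⟨0, 0, e ^ 2 * a, 0, 0⟩ : WeierstrassCurve L).toAffine.Point))
    (mul_ne_zero three_ne_zero (mul_ne_zero hm1 hm2)) hq
    (Nat.Coprime.mul_left ((Nat.coprime_primes Nat.prime_three hq).2 (Ne.symm hq3))
      (Nat.Coprime.mul_left hc1 hc2)) ?_
  intro x
  obtain ⟨P, rfl⟩ := QuotientAddGroup.mk_surjective x
  rw [← QuotientAddGroup.mk_nsmul, QuotientAddGroup.eq_zero_iff]
  exact kill3 ha he hz hy hn hg hV1 hV2 P

/-- The index is finite and the ranks are equal. PROOF. The quotient of `E(L')` (finitely generated, Mordell-Weil) by `HL` is killed by `3 #V_1(L) #V_2(L) ≠ 0` (`kill3`), so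
it is finite (as in `ix_card`), and the index is not `0`. The map `E(L) → E(L')` (`Affine.Point.map` for `Algebra.ofId`) is injective with the range `HL` (the image is a subgroup
which contains the generators; a point `(u, v)` of `E(L')` with `u, v ∈ L` comes from a point of `E(L)`), so `rank E(L) = rank HL = rank E(L')` (finite index:
`Submodule.rank_eq_of_isTorsion_quotient` or the like: `Module.finrank ℤ` of a subgroup of finite index; see also MP_1a91b9_nt/TwistRank.lean). -/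
theorem rank3 {L L' : Type} [Field L] [NumberField L] [Field L'] [NumberField L']
    [DecidableEq L] [DecidableEq L'] [Algebra L L'] {a : L} (ha : a ≠ 0) {e z : L} (he : e ≠ 0)
    (hz : z ^ 2 + z + 1 = 0) {y : L'} (hy : y ^ 3 = algebraMap L L' e)
    (hn : ¬ ∃ z : L, algebraMap L L' z = y)
    (hg : ∀ z : L', ∃ α β γ : L, z = algebraMap L L' α + algebraMap L L' β * y +
      algebraMap L L' γ * y ^ 2)
    (hV1 : Finite (⟨0, 0, e * a, 0, 0⟩ : WeierstrassCurve L).toAffine.Point)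
    (hV2 : Finite (⟨0, 0, e ^ 2 * a, 0, 0⟩ : WeierstrassCurve L).toAffine.Point) :
    (HL (L := L) ((⟨0, 0, a, 0, 0⟩ : WeierstrassCurve L).baseChange L')).index ≠ 0 ∧
    Module.finrank ℤ ((⟨0, 0, a, 0, 0⟩ : WeierstrassCurve L).baseChange L').toAffine.Point =
      Module.finrank ℤ (⟨0, 0, a, 0, 0⟩ : WeierstrassCurve L).toAffine.Point := by
  have hell := I3_ell (L' := L') ha
  have hm1 : Nat.card (⟨0, 0, e * a, 0, 0⟩ : WeierstrassCurve L).toAffine.Point ≠ 0 :=
    Nat.card_ne_zero.2 ⟨⟨0⟩, hV1⟩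
  have hm2 : Nat.card (⟨0, 0, e ^ 2 * a, 0, 0⟩ : WeierstrassCurve L).toAffine.Point ≠ 0 :=
    Nat.card_ne_zero.2 ⟨⟨0⟩, hV2⟩
  have hm : 3 * (Nat.card (⟨0, 0, e * a, 0, 0⟩ : WeierstrassCurve L).toAffine.Point *
      Nat.card (⟨0, 0, e ^ 2 * a, 0, 0⟩ : WeierstrassCurve L).toAffine.Point) ≠ 0 :=
    mul_ne_zero three_ne_zero (mul_ne_zero hm1 hm2)
  have hfg : AddGroup.FG ((⟨0, 0, a, 0, 0⟩ : WeierstrassCurve L).baseChange L').toAffine.Point :=
    Pool.Agent.Lib.MP_17a322_nt.VJ.mordell_weil _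
  have hfg' : AddGroup.FG (((⟨0, 0, a, 0, 0⟩ : WeierstrassCurve L).baseChange L').toAffine.Point ⧸
      HL (L := L) ((⟨0, 0, a, 0, 0⟩ : WeierstrassCurve L).baseChange L')) := inferInstance
  constructor
  · have hfin := I3_fin hfg' hm (fun x => by
      obtain ⟨P, rfl⟩ := QuotientAddGroup.mk_surjective x
      rw [← QuotientAddGroup.mk_nsmul, QuotientAddGroup.eq_zero_iff]
      exact kill3 ha he hz hy hn hg hV1 hV2 P)
    exact Nat.card_ne_zero.2 ⟨⟨0⟩, hfin⟩
  · obtain ⟨W, hW⟩ : ∃ W : WeierstrassCurve L, W = ⟨0, 0, a, 0, 0⟩ := ⟨_, rfl⟩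
    have hk : ∀ P : (W.baseChange L').toAffine.Point,
        (3 * (Nat.card (⟨0, 0, e * a, 0, 0⟩ : WeierstrassCurve L).toAffine.Point *
          Nat.card (⟨0, 0, e ^ 2 * a, 0, 0⟩ : WeierstrassCurve L).toAffine.Point)) • P ∈
        HL (L := L) (W.baseChange L') := by
      subst hW
      exact fun P => kill3 ha he hz hy hn hg hV1 hV2 P
    rw [← hW]
    let f : W.toAffine.Point →+ (W.baseChange L').toAffine.Point :=
      Affine.Point.map (W' := W) (Algebra.ofId L L')
    have hf : Function.Injective f := Affine.Point.map_injective (W' := W) (Algebra.ofId L L')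
    refine I3_rank f hf hm fun x => ?_
    refine (AddSubgroup.closure_le (K := f.range)).2 ?_ (hk x)
    rintro _ ⟨u, v, h, rfl⟩
    have h1 : W.toAffine.Nonsingular u v :=
      (Affine.map_nonsingular (W := W.toAffine) (f := algebraMap L L') (algebraMap L L').injective
        u v).1 h
    exact ⟨Affine.Point.some u v h1, rfl⟩

end Pool.Agent.Lib.MP_1a91b9_ntCS.S
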