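import Pool.Agent.Lib.MP_1a91b9_ntC.Sh.D

/-!
# CUBIC STABILITY, block S, leaf D: the discriminant of a cubic extension up to rational squares

`A = N(x₀)`, `x₀³ = e`, `e` an algebraic integer of `N`, `x₀` not in `N`; the degree of `N` over `ℚ` is even.
-/

set_option autoImplicit false

namespace Pool.Agent.Lib.MP_1a91b9_ntCS.S

open NumberField Pool.Agent.Lib.MP_1a91b9_ntC.Sh

private theorem D_nat {q n : ℕ} (h : n.Coprime q) : UnitQ q (n : ℚ) := by
  refine ⟨?_, ?_⟩
  · rw [Rat.num_natCast]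
    exact Nat.isCoprime_iff_coprime.2 h
  · rw [Rat.den_natCast]
    exact Nat.coprime_one_left q

section

variable {N A : Type} [Field N] [NumberField N] [Field A] [NumberField A] [Algebra N A]

private theorem D_irr {z : N} (hz : z ^ 2 + z + 1 = 0) {e : N} {x₀ : A}
    (hx : x₀ ^ 3 = algebraMap N A e) (hn : ¬ ∃ y : N, algebraMap N A y = x₀) :
    Irreducible (Polynomial.X ^ 3 - Polynomial.C e : Polynomial N) := by
  refine X_pow_sub_C_irreducible_of_prime Nat.prime_three fun b hb => ?_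
  have hZ : (algebraMap N A z) ^ 2 + algebraMap N A z + 1 = 0 := by
    rw [← map_pow, ← map_add, ← map_one (algebraMap N A), ← map_add, hz, map_zero]
  have h1 : x₀ ^ 3 = (algebraMap N A b) ^ 3 := by rw [hx, ← hb, map_pow]
  have h2 : (x₀ - algebraMap N A b) * ((x₀ - algebraMap N A z * algebraMap N A b) *
      (x₀ - algebraMap N A z ^ 2 * algebraMap N A b)) = 0 := by
    linear_combination h1 + (-x₀ ^ 2 * algebraMap N A b +
      algebraMap N A z * x₀ * algebraMap N A b ^ 2 -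
      (algebraMap N A z - 1) * algebraMap N A b ^ 3) * hZ
  rcases mul_eq_zero.1 h2 with h3 | h3
  · exact hn ⟨b, (sub_eq_zero.1 h3).symm⟩
  · rcases mul_eq_zero.1 h3 with h4 | h4
    · exact hn ⟨z * b, by rw [map_mul]; exact (sub_eq_zero.1 h4).symm⟩
    · exact hn ⟨z ^ 2 * b, by rw [map_mul, map_pow]; exact (sub_eq_zero.1 h4).symm⟩

private theorem D_li {z : N} (hz : z ^ 2 + z + 1 = 0) {e : N} {x₀ : A}
    (hx : x₀ ^ 3 = algebraMap N A e) (hn : ¬ ∃ y : N, algebraMap N A y = x₀) :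
    LinearIndependent N ![(1 : A), x₀, x₀ ^ 2] := by
  have hirr := D_irr hz hx hn
  have hmon : (Polynomial.X ^ 3 - Polynomial.C e : Polynomial N).Monic :=
    Polynomial.monic_X_pow_sub_C e (by norm_num)
  have hroot : Polynomial.aeval x₀ (Polynomial.X ^ 3 - Polynomial.C e : Polynomial N) = 0 := by
    rw [map_sub, map_pow, Polynomial.aeval_X, Polynomial.aeval_C, hx, sub_self]
  have hmin := minpoly.eq_of_irreducible_of_monic hirr hroot hmon
  rw [Fintype.linearIndependent_iff]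
  intro g hg
  rw [Fin.sum_univ_three] at hg
  have hg' : g 0 • (1 : A) + g 1 • x₀ + g 2 • x₀ ^ 2 = 0 := hg
  rw [Algebra.smul_def, Algebra.smul_def, Algebra.smul_def, mul_one] at hg'
  obtain ⟨P, hP⟩ : ∃ P : Polynomial N, P = Polynomial.C (g 0) + Polynomial.C (g 1) * Polynomial.X +
    Polynomial.C (g 2) * Polynomial.X ^ 2 := ⟨_, rfl⟩
  have h1 : Polynomial.aeval x₀ P = 0 := by
    rw [hP, map_add, map_add, map_mul, map_mul, map_pow, Polynomial.aeval_X, Polynomial.aeval_C,
      Polynomial.aeval_C, Polynomial.aeval_C]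
    exact hg'
  have h2 : (Polynomial.X ^ 3 - Polynomial.C e : Polynomial N) ∣ P := by
    rw [hmin]
    exact minpoly.dvd N x₀ h1
  have h3 : P.natDegree < (Polynomial.X ^ 3 - Polynomial.C e : Polynomial N).natDegree := by
    rw [Polynomial.natDegree_X_pow_sub_C]
    have h4 : P.natDegree ≤ 2 := by
      rw [hP]
      refine Polynomial.natDegree_add_le_of_degree_le (Polynomial.natDegree_add_le_of_degree_le ?_ ?_)
        (Polynomial.natDegree_C_mul_X_pow_le _ _)
      · rw [Polynomial.natDegree_C]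
        exact Nat.zero_le 2
      · refine le_trans (Polynomial.natDegree_C_mul_le _ _) ?_
        exact le_trans Polynomial.natDegree_X_le (by norm_num)
    omega
  have h4 : P = 0 := Polynomial.eq_zero_of_dvd_of_natDegree_lt h2 h3
  have c0 : P.coeff 0 = g 0 := by
    rw [hP]
    simp
  have c1 : P.coeff 1 = g 1 := by
    rw [hP]
    simp [Polynomial.coeff_C]
  have c2 : P.coeff 2 = g 2 := by
    rw [hP]
    simp
  rw [h4, Polynomial.coeff_zero] at c0 c1 c2
  intro i
  fin_cases i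
  · exact c0.symm
  · exact c1.symm
  · exact c2.symm

private theorem D_basis {z : N} (hz : z ^ 2 + z + 1 = 0) {e : N} {x₀ : A}
    (hx : x₀ ^ 3 = algebraMap N A e)
    (hx' : ∀ z : A, ∃ α β γ : N, z = algebraMap N A α + algebraMap N A β * x₀ +
      algebraMap N A γ * x₀ ^ 2)
    (hn : ¬ ∃ y : N, algebraMap N A y = x₀) :
    ∃ b : Module.Basis (Fin 3) N A, b 0 = 1 ∧ b 1 = x₀ ∧ b 2 = x₀ ^ 2 := by
  have hli := D_li hz hx hn
  have hsp : ⊤ ≤ Submodule.span N (Set.range ![(1 : A), x₀, x₀ ^ 2]) := by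
    intro w _
    obtain ⟨α, β, γ, rfl⟩ := hx' w
    have h1 : algebraMap N A α + algebraMap N A β * x₀ + algebraMap N A γ * x₀ ^ 2 =
        α • (1 : A) + β • x₀ + γ • x₀ ^ 2 := by
      rw [Algebra.smul_def, Algebra.smul_def, Algebra.smul_def, mul_one]
    rw [h1]
    exact Submodule.add_mem _ (Submodule.add_mem _
      (Submodule.smul_mem _ _ (Submodule.subset_span ⟨0, rfl⟩))
      (Submodule.smul_mem _ _ (Submodule.subset_span ⟨1, rfl⟩)))
      (Submodule.smul_mem _ _ (Submodule.subset_span ⟨2, rfl⟩))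
  exact ⟨Module.Basis.mk hli hsp, by rw [Module.Basis.mk_apply]; rfl,
    by rw [Module.Basis.mk_apply]; rfl, by rw [Module.Basis.mk_apply]; rfl⟩

private theorem D_finrank {z : N} (hz : z ^ 2 + z + 1 = 0) {e : N} {x₀ : A}
    (hx : x₀ ^ 3 = algebraMap N A e)
    (hx' : ∀ z : A, ∃ α β γ : N, z = algebraMap N A α + algebraMap N A β * x₀ +
      algebraMap N A γ * x₀ ^ 2)
    (hn : ¬ ∃ y : N, algebraMap N A y = x₀) : Module.finrank N A = 3 := by
  obtain ⟨b, -, -, -⟩ := D_basis hz hx hx' hn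
  rw [Module.finrank_eq_card_basis b, Fintype.card_fin]

private theorem D_trace {z : N} (hz : z ^ 2 + z + 1 = 0) {e : N} {x₀ : A}
    (hx : x₀ ^ 3 = algebraMap N A e)
    (hx' : ∀ z : A, ∃ α β γ : N, z = algebraMap N A α + algebraMap N A β * x₀ +
      algebraMap N A γ * x₀ ^ 2)
    (hn : ¬ ∃ y : N, algebraMap N A y = x₀) :
    Algebra.trace N A x₀ = 0 ∧ Algebra.trace N A (x₀ ^ 2) = 0 := by
  obtain ⟨b, h0, h1, h2⟩ := D_basis hz hx hx' hn
  have e1 : x₀ * b 0 = b 1 := by rw [h0, h1, mul_one]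
  have e2 : x₀ * b 1 = b 2 := by rw [h1, h2, pow_two]
  have e3 : x₀ * b 2 = e • b 0 := by
    rw [h0, h2, Algebra.smul_def, mul_one, ← hx]
    ring
  have f1 : x₀ ^ 2 * b 0 = b 2 := by rw [h0, h2, mul_one]
  have f2 : x₀ ^ 2 * b 1 = e • b 0 := by
    rw [h0, h1, Algebra.smul_def, mul_one, ← hx]
    ring
  have f3 : x₀ ^ 2 * b 2 = e • b 1 := by
    rw [h1, h2, Algebra.smul_def, ← hx]
    ring
  constructor
  · rw [Algebra.trace_eq_matrix_trace b, Matrix.trace_fin_three, Algebra.leftMulMatrix_eq_repr_mul,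
      Algebra.leftMulMatrix_eq_repr_mul, Algebra.leftMulMatrix_eq_repr_mul, e1, e2, e3, map_smul,
      Finsupp.smul_apply, Module.Basis.repr_self, Module.Basis.repr_self, Module.Basis.repr_self,
      Finsupp.single_apply, Finsupp.single_apply, Finsupp.single_apply, if_neg (by decide),
      if_neg (by decide), if_neg (by decide), smul_zero, add_zero, add_zero]
  · rw [Algebra.trace_eq_matrix_trace b, Matrix.trace_fin_three, Algebra.leftMulMatrix_eq_repr_mul,
      Algebra.leftMulMatrix_eq_repr_mul, Algebra.leftMulMatrix_eq_repr_mul, f1, f2, f3, map_smul,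
      map_smul, Finsupp.smul_apply, Finsupp.smul_apply, Module.Basis.repr_self,
      Module.Basis.repr_self, Module.Basis.repr_self, Finsupp.single_apply, Finsupp.single_apply,
      Finsupp.single_apply, if_neg (by decide), if_neg (by decide), if_neg (by decide), smul_zero,
      add_zero, add_zero]

/-- the traces over `ℚ` -/
private theorem D_tr {z : N} (hz : z ^ 2 + z + 1 = 0) {e : N} {x₀ : A}
    (hx : x₀ ^ 3 = algebraMap N A e)
    (hx' : ∀ z : A, ∃ α β γ : N, z = algebraMap N A α + algebraMap N A β * x₀ +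
      algebraMap N A γ * x₀ ^ 2)
    (hn : ¬ ∃ y : N, algebraMap N A y = x₀) (α β γ : N) :
    Algebra.trace ℚ A (algebraMap N A α + algebraMap N A β * x₀ + algebraMap N A γ * x₀ ^ 2) =
      3 * Algebra.trace ℚ N α := by
  obtain ⟨t1, t2⟩ := D_trace hz hx hx' hn
  have h : Algebra.trace N A (algebraMap N A α + algebraMap N A β * x₀ +
      algebraMap N A γ * x₀ ^ 2) = 3 • α := by
    rw [map_add (Algebra.trace N A), map_add (Algebra.trace N A), Algebra.trace_algebraMap,
      D_finrank hz hx hx' hn, ← Algebra.smul_def, ← Algebra.smul_def, map_smul, map_smul, t1, t2,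
      smul_zero, smul_zero, add_zero, add_zero]
  rw [← Algebra.trace_trace (S := N), h, map_nsmul, nsmul_eq_mul]
  norm_num

/-- the family `(ω, ω x₀, ω x₀²)` -/
private noncomputable def D_fam {ι : Type} (ω : ι → N) (x₀ : A) : ι ⊕ (ι ⊕ ι) → A :=
  Sum.elim (fun i => algebraMap N A (ω i)) (Sum.elim (fun i => algebraMap N A (ω i) * x₀)
    (fun i => algebraMap N A (ω i) * x₀ ^ 2))

private theorem D_swap {ι : Type} [Fintype ι] [DecidableEq ι] :
    (Matrix.fromBlocks (0 : Matrix ι ι ℚ) (1 : Matrix ι ι ℚ) (1 : Matrix ι ι ℚ) (0 : Matrix ι ι ℚ)).det ^ 2 = 1 := by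
  rw [pow_two, ← Matrix.det_mul, Matrix.fromBlocks_multiply]
  simp only [Matrix.mul_zero, Matrix.mul_one, zero_add, add_zero]
  rw [Matrix.fromBlocks_one, Matrix.det_one]

private theorem D_anti {ι : Type} [Fintype ι] [DecidableEq ι] (B : Matrix ι ι ℚ) :
    (Matrix.fromBlocks 0 B B 0).det =
      (Matrix.fromBlocks (0 : Matrix ι ι ℚ) (1 : Matrix ι ι ℚ) (1 : Matrix ι ι ℚ) (0 : Matrix ι ι ℚ)).det * B.det ^ 2 := by
  have h : Matrix.fromBlocks 0 B B 0 = Matrix.fromBlocks (0 : Matrix ι ι ℚ) (1 : Matrix ι ι ℚ) (1 : Matrix ι ι ℚ) (0 : Matrix ι ι ℚ) *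
      Matrix.fromBlocks B 0 0 B := by
    rw [Matrix.fromBlocks_multiply]
    simp only [Matrix.mul_zero, zero_add, add_zero, Matrix.zero_mul, Matrix.one_mul]
  rw [h, Matrix.det_mul, Matrix.det_fromBlocks_zero₂₁, pow_two]

private theorem D_tre {ι : Type} [Fintype ι] [DecidableEq ι] (ω : Module.Basis ι ℚ N) (e : N)
    (i j : ι) : Algebra.trace ℚ N (ω i * (e * ω j)) =
      (Algebra.traceMatrix ℚ ω * Algebra.leftMulMatrix ω e) i j := by
  rw [Matrix.mul_apply]
  have h3 : e * ω j = ∑ k, Algebra.leftMulMatrix ω e k j • ω k := by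
    conv_lhs => rw [← ω.sum_repr (e * ω j)]
    exact Finset.sum_congr rfl fun k _ => by rw [Algebra.leftMulMatrix_eq_repr_mul]
  rw [h3, Finset.mul_sum, map_sum]
  refine Finset.sum_congr rfl fun k _ => ?_
  rw [Algebra.traceMatrix_apply, Algebra.traceForm_apply, mul_smul_comm, map_smul,
    smul_eq_mul, mul_comm]

private theorem D_det {ι : Type} [Fintype ι] [DecidableEq ι] (ω : Module.Basis ι ℚ N) {z : N}
    (hz : z ^ 2 + z + 1 = 0) {e : N} {x₀ : A} (hx : x₀ ^ 3 = algebraMap N A e)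
    (hx' : ∀ z : A, ∃ α β γ : N, z = algebraMap N A α + algebraMap N A β * x₀ +
      algebraMap N A γ * x₀ ^ 2)
    (hn : ¬ ∃ y : N, algebraMap N A y = x₀) :
    ∃ ε : ℚ, ε ^ 2 = 1 ∧ Algebra.discr ℚ (D_fam ω x₀) =
      ε * ((3 ^ Fintype.card ι) ^ 3 * Algebra.discr ℚ ω ^ 3 * Algebra.norm ℚ e ^ 2) := by
  have hM : Algebra.traceMatrix ℚ (D_fam ω x₀) = Matrix.fromBlocks
      ((3 : ℚ) • Algebra.traceMatrix ℚ ω) 0 0 (Matrix.fromBlocks 0
      ((3 : ℚ) • (Algebra.traceMatrix ℚ ω * Algebra.leftMulMatrix ω e))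
      ((3 : ℚ) • (Algebra.traceMatrix ℚ ω * Algebra.leftMulMatrix ω e)) 0) := by
    ext i j
    rcases i with i | i | i <;> rcases j with j | j | j
    · rw [Matrix.fromBlocks_apply₁₁, Algebra.traceMatrix_apply, Algebra.traceForm_apply,
        Matrix.smul_apply, Algebra.traceMatrix_apply, Algebra.traceForm_apply]
      have h1 := D_tr hz hx hx' hn (ω i * ω j) 0 0
      have h2 : D_fam ω x₀ (Sum.inl i) * D_fam ω x₀ (Sum.inl j) =
          algebraMap N A (ω i * ω j) + algebraMap N A 0 * x₀ + algebraMap N A 0 * x₀ ^ 2 := by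
        show algebraMap N A (ω i) * algebraMap N A (ω j) = _
        rw [map_mul, map_zero]
        ring
      rw [h2, h1, smul_eq_mul]
    · rw [Matrix.fromBlocks_apply₁₂, Algebra.traceMatrix_apply, Algebra.traceForm_apply,
        Matrix.zero_apply]
      have h1 := D_tr hz hx hx' hn 0 (ω i * ω j) 0
      have h2 : D_fam ω x₀ (Sum.inl i) * D_fam ω x₀ (Sum.inr (Sum.inl j)) =
          algebraMap N A 0 + algebraMap N A (ω i * ω j) * x₀ + algebraMap N A 0 * x₀ ^ 2 := by
        show algebraMap N A (ω i) * (algebraMap N A (ω j) * x₀) = _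
        rw [map_mul, map_zero]
        ring
      rw [h2, h1, map_zero, mul_zero]
    · rw [Matrix.fromBlocks_apply₁₂, Algebra.traceMatrix_apply, Algebra.traceForm_apply,
        Matrix.zero_apply]
      have h1 := D_tr hz hx hx' hn 0 0 (ω i * ω j)
      have h2 : D_fam ω x₀ (Sum.inl i) * D_fam ω x₀ (Sum.inr (Sum.inr j)) =
          algebraMap N A 0 + algebraMap N A 0 * x₀ + algebraMap N A (ω i * ω j) * x₀ ^ 2 := by
        show algebraMap N A (ω i) * (algebraMap N A (ω j) * x₀ ^ 2) = _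
        rw [map_mul, map_zero]
        ring
      rw [h2, h1, map_zero, mul_zero]
    · rw [Matrix.fromBlocks_apply₂₁, Algebra.traceMatrix_apply, Algebra.traceForm_apply,
        Matrix.zero_apply]
      have h1 := D_tr hz hx hx' hn 0 (ω i * ω j) 0
      have h2 : D_fam ω x₀ (Sum.inr (Sum.inl i)) * D_fam ω x₀ (Sum.inl j) =
          algebraMap N A 0 + algebraMap N A (ω i * ω j) * x₀ + algebraMap N A 0 * x₀ ^ 2 := by
        show algebraMap N A (ω i) * x₀ * algebraMap N A (ω j) = _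
        rw [map_mul, map_zero]
        ring
      rw [h2, h1, map_zero, mul_zero]
    · rw [Matrix.fromBlocks_apply₂₂, Matrix.fromBlocks_apply₁₁, Algebra.traceMatrix_apply,
        Algebra.traceForm_apply, Matrix.zero_apply]
      have h1 := D_tr hz hx hx' hn 0 0 (ω i * ω j)
      have h2 : D_fam ω x₀ (Sum.inr (Sum.inl i)) * D_fam ω x₀ (Sum.inr (Sum.inl j)) =
          algebraMap N A 0 + algebraMap N A 0 * x₀ + algebraMap N A (ω i * ω j) * x₀ ^ 2 := by
        show algebraMap N A (ω i) * x₀ * (algebraMap N A (ω j) * x₀) = _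
        rw [map_mul, map_zero]
        ring
      rw [h2, h1, map_zero, mul_zero]
    · rw [Matrix.fromBlocks_apply₂₂, Matrix.fromBlocks_apply₁₂, Algebra.traceMatrix_apply,
        Algebra.traceForm_apply, Matrix.smul_apply, ← D_tre ω e i j]
      have h1 := D_tr hz hx hx' hn (ω i * (e * ω j)) 0 0
      have h2 : D_fam ω x₀ (Sum.inr (Sum.inl i)) * D_fam ω x₀ (Sum.inr (Sum.inr j)) =
          algebraMap N A (ω i * (e * ω j)) + algebraMap N A 0 * x₀ + algebraMap N A 0 * x₀ ^ 2 := by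
        show algebraMap N A (ω i) * x₀ * (algebraMap N A (ω j) * x₀ ^ 2) = _
        rw [map_mul, map_mul, map_zero, ← hx]
        ring
      rw [h2, h1, smul_eq_mul]
    · rw [Matrix.fromBlocks_apply₂₁, Algebra.traceMatrix_apply, Algebra.traceForm_apply,
        Matrix.zero_apply]
      have h1 := D_tr hz hx hx' hn 0 0 (ω i * ω j)
      have h2 : D_fam ω x₀ (Sum.inr (Sum.inr i)) * D_fam ω x₀ (Sum.inl j) =
          algebraMap N A 0 + algebraMap N A 0 * x₀ + algebraMap N A (ω i * ω j) * x₀ ^ 2 := by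
        show algebraMap N A (ω i) * x₀ ^ 2 * algebraMap N A (ω j) = _
        rw [map_mul, map_zero]
        ring
      rw [h2, h1, map_zero, mul_zero]
    · rw [Matrix.fromBlocks_apply₂₂, Matrix.fromBlocks_apply₂₁, Algebra.traceMatrix_apply,
        Algebra.traceForm_apply, Matrix.smul_apply, ← D_tre ω e i j]
      have h1 := D_tr hz hx hx' hn (ω i * (e * ω j)) 0 0
      have h2 : D_fam ω x₀ (Sum.inr (Sum.inr i)) * D_fam ω x₀ (Sum.inr (Sum.inl j)) =
          algebraMap N A (ω i * (e * ω j)) + algebraMap N A 0 * x₀ + algebraMap N A 0 * x₀ ^ 2 := by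
        show algebraMap N A (ω i) * x₀ ^ 2 * (algebraMap N A (ω j) * x₀) = _
        rw [map_mul, map_mul, map_zero, ← hx]
        ring
      rw [h2, h1, smul_eq_mul]
    · rw [Matrix.fromBlocks_apply₂₂, Matrix.fromBlocks_apply₂₂, Algebra.traceMatrix_apply,
        Algebra.traceForm_apply, Matrix.zero_apply]
      have h1 := D_tr hz hx hx' hn 0 (ω i * (e * ω j)) 0
      have h2 : D_fam ω x₀ (Sum.inr (Sum.inr i)) * D_fam ω x₀ (Sum.inr (Sum.inr j)) =
          algebraMap N A 0 + algebraMap N A (ω i * (e * ω j)) * x₀ + algebraMap N A 0 * x₀ ^ 2 := by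
        show algebraMap N A (ω i) * x₀ ^ 2 * (algebraMap N A (ω j) * x₀ ^ 2) = _
        rw [map_mul, map_mul, map_zero, ← hx]
        ring
      rw [h2, h1, map_zero, mul_zero]
  refine ⟨(Matrix.fromBlocks (0 : Matrix ι ι ℚ) (1 : Matrix ι ι ℚ) (1 : Matrix ι ι ℚ) (0 : Matrix ι ι ℚ)).det, D_swap, ?_⟩
  rw [Algebra.discr_def, hM, Matrix.det_fromBlocks_zero₂₁, D_anti, Matrix.det_smul, Matrix.det_smul,
    Matrix.det_mul, ← Algebra.discr_def, Algebra.norm_eq_matrix_det ω]
  ring

/-- the index -/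
private theorem D_index {ι : Type} [Fintype ι] [DecidableEq ι] (v : ι → 𝓞 A)
    (hc : Fintype.card ι = Module.finrank ℚ A) :
    ∃ f : ℤ, Algebra.discr ℚ (fun i => (v i : A)) = (f : ℚ) ^ 2 * (discr A : ℚ) := by
  classical
  have hcard : Fintype.card (Module.Free.ChooseBasisIndex ℤ (𝓞 A)) = Fintype.card ι := by
    rw [hc, ← RingOfIntegers.rank, Module.finrank_eq_card_basis (RingOfIntegers.basis A)]
  let e₁ : Module.Free.ChooseBasisIndex ℤ (𝓞 A) ≃ ι := Fintype.equivOfCardEq hcard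
  let b := (integralBasis A).reindex e₁
  let P : Matrix ι ι ℤ := Matrix.of fun i j => (RingOfIntegers.basis A).repr (v j) (e₁.symm i)
  refine ⟨P.det, ?_⟩
  have h1 : b.toMatrix (fun i => (v i : A)) = P.map (algebraMap ℤ ℚ) := by
    ext i j
    rw [Module.Basis.toMatrix_apply, Module.Basis.repr_reindex_apply]
    exact integralBasis_repr_apply A (v j) (e₁.symm i)
  have h2 := Algebra.discr_of_matrix_vecMul (A := ℚ) b (b.toMatrix (fun i => (v i : A)))
  rw [Module.Basis.toMatrix_map_vecMul] at h2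
  rw [h2, h1]
  have h3 : (P.map (algebraMap ℤ ℚ)).det = (P.det : ℚ) := by
    have := (RingHom.map_det (algebraMap ℤ ℚ) P).symm
    exact this
  have h4 : Algebra.discr ℚ b = (discr A : ℚ) := by
    rw [coe_discr]
    have h5 : (b : ι → A) = integralBasis A ∘ e₁.symm := by
      funext i
      exact Module.Basis.reindex_apply _ _ _
    rw [h5, Algebra.discr_reindex]
  rw [h3, h4]

end

/-- **The discriminant.**

PROOF. ADAPTATION of MP_1a91b9_ntC/Sh/D.lean (quadratic case; copy its private lemmas with new names). `(1, x₀, x₀²)` is a basis of `A` over `N` (linear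
independence: the minimal polynomial of `x₀` is `X³ - e`, as `x₀` is not in `N` and `z ∈ N`; or directly: `X³ - e` is irreducible,
`X_pow_sub_C_irreducible_of_prime`; a relation `s + t x₀ + u x₀² = 0` with degree `< 3`), so `[A : N] = 3`. The trace over `N` of
`α + β x₀ + γ x₀²` is `3 α`. For an integral basis `ω` of `N` (`n` elements) the family `(ω, ω x₀, ω x₀²)` has the trace matrix (blocks `3 Tr(ω_i ω_j)` at `(0,0)`,
`3 Tr(e ω_i ω_j)` at `(1,2)` and `(2,1)`, zero elsewhere), with determinant `3^n d · (-1)^n (3^n d N(e))²`, `d = disc(ω)`; `n` is even, so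
`f² disc A = 27^n d³ N(e)²` with the index `f : ℤ` (`D_index`). `r = 27^(n/2) / f`. For the second clause `f²` divides `27^n N(e)²` because `disc A = ± N(different) d³`
(`natAbs_discr_eq_absNorm_differentIdeal_mul_natAbs_discr_pow`, as in `disc_quad`). -/
theorem disc_cub {N A : Type} [Field N] [NumberField N] [Field A] [NumberField A] [Algebra N A]
    (h2 : Even (Module.finrank ℚ N)) {z : N} (hz : z ^ 2 + z + 1 = 0)
    {e : 𝓞 N} {x₀ : A} (hx : x₀ ^ 3 = algebraMap N A (e : N)) (he : e ≠ 0)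
    (hx' : ∀ z : A, ∃ α β γ : N, z = algebraMap N A α + algebraMap N A β * x₀ +
      algebraMap N A γ * x₀ ^ 2)
    (hn : ¬ ∃ y : N, algebraMap N A y = x₀) :
    ∃ r : ℚ, r ≠ 0 ∧ (|(discr A : ℝ)| = (r : ℝ) ^ 2 * |(discr N : ℝ)| ^ 3 *
      |((Algebra.norm ℚ (e : N) : ℚ) : ℝ)| ^ 2) ∧
      ∀ q : ℕ, q.Prime → q ≠ 3 → IsCoprime (Algebra.norm ℤ e) (q : ℤ) → UnitQ q r := by
  classical
  let ι := Module.Free.ChooseBasisIndex ℤ (𝓞 N)
  set n := Fintype.card ι with hndef
  have hfr := D_finrank hz hx hx' hn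
  have hnN : Module.finrank ℚ N = n := by
    rw [← RingOfIntegers.rank, Module.finrank_eq_card_basis (RingOfIntegers.basis N)]
  obtain ⟨k, hk⟩ := h2
  rw [hnN] at hk
  have hnA : Fintype.card (ι ⊕ (ι ⊕ ι)) = Module.finrank ℚ A := by
    rw [Fintype.card_sum, Fintype.card_sum, ← Module.finrank_mul_finrank ℚ N A, hfr, hnN]
    ring
  have he' : (e : N) ≠ 0 := fun h => he (RingOfIntegers.coe_eq_zero_iff.1 h)
  have hxi : IsIntegral ℤ x₀ := by
    have h1 : IsIntegral ℤ (x₀ ^ 3) := by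
      rw [hx]
      exact (RingOfIntegers.isIntegral_coe e).map (IsScalarTower.toAlgHom ℤ N A)
    exact IsIntegral.of_pow three_pos h1
  have hωi : ∀ i : ι, IsIntegral ℤ (algebraMap N A (integralBasis N i)) := by
    intro i
    rw [integralBasis_apply]
    exact (RingOfIntegers.isIntegral_coe (RingOfIntegers.basis N i)).map
      (IsScalarTower.toAlgHom ℤ N A)
  have hvi : ∀ i : ι ⊕ (ι ⊕ ι), IsIntegral ℤ (D_fam (integralBasis N) x₀ i) := by
    rintro (i | i | i)
    · exact hωi i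
    · exact (hωi i).mul hxi
    · exact (hωi i).mul (hxi.pow 2)
  obtain ⟨f, hf⟩ := D_index (fun i => (⟨D_fam (integralBasis N) x₀ i, hvi i⟩ : 𝓞 A)) hnA
  have hf1 : Algebra.discr ℚ (D_fam (integralBasis N) x₀) = (f : ℚ) ^ 2 * (discr A : ℚ) := hf
  obtain ⟨ε, hε, hD⟩ := D_det (integralBasis N) hz hx hx' hn
  rw [hD, ← coe_discr] at hf1
  have hdN : (discr N : ℚ) ≠ 0 := Int.cast_ne_zero.2 (discr_ne_zero N)
  have hne : Algebra.norm ℚ (e : N) ≠ 0 := Algebra.norm_ne_zero_iff.2 he'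
  have hε0 : ε ≠ 0 := by
    rintro rfl
    norm_num at hε
  have hεa : |ε| = 1 := by
    rw [pow_two] at hε
    rcases mul_self_eq_one_iff.1 hε with h1 | h1
    · rw [h1, abs_one]
    · rw [h1, abs_neg, abs_one]
  have hf0 : f ≠ 0 := by
    rintro rfl
    rw [Int.cast_zero, zero_pow two_ne_zero, zero_mul] at hf1
    have h2 : ((3 : ℚ) ^ n) ^ 3 ≠ 0 := by positivity
    exact mul_ne_zero hε0 (mul_ne_zero (mul_ne_zero h2 (pow_ne_zero 3 hdN)) (pow_ne_zero 2 hne)) hf1
  have hfq : (f : ℚ) ≠ 0 := Int.cast_ne_zero.2 hf0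
  -- absolute values
  have habs : (f : ℚ) ^ 2 * |(discr A : ℚ)| =
      (27 ^ k) ^ 2 * |(discr N : ℚ)| ^ 3 * |Algebra.norm ℚ (e : N)| ^ 2 := by
    have h1 := congrArg (fun x : ℚ => |x|) hf1
    simp only [abs_mul, abs_pow] at h1
    have h3 : |(3 : ℚ)| = 3 := abs_of_pos (by norm_num)
    rw [hεa, one_mul, h3, sq_abs (f : ℚ)] at h1
    rw [← h1]
    change ((3 : ℚ) ^ n) ^ 3 * _ * _ = _
    rw [hk]
    have h4 : ((3 : ℚ) ^ (k + k)) ^ 3 = (27 ^ k) ^ 2 := by
      rw [← pow_mul, ← pow_mul, show (27 : ℚ) = 3 ^ 3 by norm_num, ← pow_mul]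
      congr 1
      ring
    rw [h4]
  refine ⟨27 ^ k * (f.natAbs : ℚ)⁻¹, ?_, ?_, ?_⟩
  · have h1 : (f.natAbs : ℚ) ≠ 0 := Nat.cast_ne_zero.2 (Int.natAbs_ne_zero.2 hf0)
    positivity
  · have h0 : ((f.natAbs : ℚ)) ^ 2 = (f : ℚ) ^ 2 := by
      rw [Nat.cast_natAbs, Int.cast_abs, sq_abs]
    have h1 : |(discr A : ℚ)| = (27 ^ k * (f.natAbs : ℚ)⁻¹) ^ 2 * |(discr N : ℚ)| ^ 3 *
        |Algebra.norm ℚ (e : N)| ^ 2 := by
      rw [mul_pow, inv_pow, h0]
      field_simp
      linear_combination habs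
    have h3 := congrArg (fun x : ℚ => (x : ℝ)) h1
    push_cast at h3
    push_cast
    exact h3
  · intro q hq hq2 hcop
    have hfcop : f.natAbs.Coprime q := by
      have h1 := natAbs_discr_eq_absNorm_differentIdeal_mul_natAbs_discr_pow N (𝓞 N) A (𝓞 A)
      rw [hfr] at h1
      have h2 : (f.natAbs : ℤ) ^ 2 * ((discr A).natAbs : ℤ) =
          (27 ^ k) ^ 2 * ((discr N).natAbs : ℤ) ^ 3 * ((Algebra.norm ℤ e).natAbs : ℤ) ^ 2 := by
        have h3 : ((Algebra.norm ℤ e : ℤ) : ℚ) = Algebra.norm ℚ (e : N) :=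
          Algebra.coe_norm_int e
        have h4 : (((f.natAbs : ℤ) ^ 2 * ((discr A).natAbs : ℤ) : ℤ) : ℚ) =
            (((27 ^ k) ^ 2 * ((discr N).natAbs : ℤ) ^ 3 *
              ((Algebra.norm ℤ e).natAbs : ℤ) ^ 2 : ℤ) : ℚ) := by
          push_cast
          rw [h3, sq_abs (f : ℚ)]
          exact habs
        exact_mod_cast h4
      have h5 : f.natAbs ^ 2 * (discr A).natAbs =
          (27 ^ k) ^ 2 * (discr N).natAbs ^ 3 * (Algebra.norm ℤ e).natAbs ^ 2 := by
        exact_mod_cast h2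
      rw [h1] at h5
      have h6 : 0 < (discr N).natAbs ^ 3 := by
        have := Int.natAbs_ne_zero.2 (discr_ne_zero N)
        positivity
      have h7 : (27 ^ k) ^ 2 * (Algebra.norm ℤ e).natAbs ^ 2 =
          f.natAbs ^ 2 * Ideal.absNorm (differentIdeal (𝓞 N) (𝓞 A)) := by
        have h8 : (discr N).natAbs ^ 3 * ((27 ^ k) ^ 2 * (Algebra.norm ℤ e).natAbs ^ 2) =
            (discr N).natAbs ^ 3 * (f.natAbs ^ 2 *
              Ideal.absNorm (differentIdeal (𝓞 N) (𝓞 A))) := by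
          linear_combination -h5
        exact Nat.eq_of_mul_eq_mul_left h6 h8
      have h9 : f.natAbs ∣ (27 ^ k) ^ 2 * (Algebra.norm ℤ e).natAbs ^ 2 := by
        rw [h7, pow_two, mul_assoc]
        exact Dvd.intro _ rfl
      have h10 : ((27 ^ k) ^ 2 * (Algebra.norm ℤ e).natAbs ^ 2).Coprime q := by
        refine Nat.Coprime.mul_left ?_ (Nat.Coprime.pow_left 2 ?_)
        · refine Nat.Coprime.pow_left 2 (Nat.Coprime.pow_left k ?_)
          have h12 : Nat.Coprime 3 q := (Nat.coprime_primes Nat.prime_three hq).2 (Ne.symm hq2)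
          exact Nat.Coprime.pow_left 3 h12
        · have h11 := Int.isCoprime_iff_gcd_eq_one.1 hcop
          rw [Int.gcd, Int.natAbs_natCast] at h11
          exact h11
      exact h10.coprime_dvd_left h9
    have h12 : UnitQ q ((27 : ℚ) ^ k) := by
      have h13 : ((27 ^ k : ℕ) : ℚ) = (27 : ℚ) ^ k := by push_cast; rfl
      rw [← h13]
      have h14 : Nat.Coprime 3 q := (Nat.coprime_primes Nat.prime_three hq).2 (Ne.symm hq2)
      exact D_nat (Nat.Coprime.pow_left k (Nat.Coprime.pow_left 3 h14))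
    exact h12.mul ((D_nat hfcop).inv hq)

/-- PROOF. Linear independence and span of `(1, x₀, x₀²)` as above. -/
theorem finrank_cub {N A : Type} [Field N] [NumberField N] [Field A] [NumberField A] [Algebra N A]
    {z : N} (hz : z ^ 2 + z + 1 = 0) {e : N} {x₀ : A} (hx : x₀ ^ 3 = algebraMap N A e)
    (hx' : ∀ z : A, ∃ α β γ : N, z = algebraMap N A α + algebraMap N A β * x₀ +
      algebraMap N A γ * x₀ ^ 2)
    (hn : ¬ ∃ y : N, algebraMap N A y = x₀) : Module.finrank N A = 3 :=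
  D_finrank hz hx hx' hn

end Pool.Agent.Lib.MP_1a91b9_ntCS.S
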