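import Pool.Agent.Lib.MP_1a91b9_ntC.Sh.P

/-!
# CUBIC STABILITY, block S, leaf P1: the complex periods of the two cubic twists
-/

set_option autoImplicit false
set_option linter.unusedSectionVars false

namespace Pool.Agent.Lib.MP_1a91b9_ntCS.S

open NumberField WeierstrassCurve MeasureTheory
open Pool.Agent.Lib.MP_1a91b9_nuT.Per Pool.Agent.Lib.MP_1a91b9_nuT.CT

variable [Pool.Agent.Lib.MP_1a91b9_nuT.CD]

omit [Pool.Agent.Lib.MP_1a91b9_nuT.CD] in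
private theorem P1_cbrt (z : ℂ) (hz : z ≠ 0) : ∃ u : ℂˣ, (u : ℂ) ^ 3 = z := by
  obtain ⟨y, hy⟩ := IsAlgClosed.exists_pow_nat_eq z (n := 3) (by norm_num)
  have hy0 : y ≠ 0 := by
    rintro rfl
    rw [zero_pow three_ne_zero] at hy
    exact hz hy.symm
  exact ⟨Units.mk0 y hy0, hy⟩

private theorem P1_perC (a : ℂ) (u : ℂˣ) :
    ‖(u : ℂ)‖ ^ 2 * perC (⟨0, 0, (u : ℂ) ^ 3 * a, 0, 0⟩ : WeierstrassCurve ℂ) =
      perC (⟨0, 0, a, 0, 0⟩ : WeierstrassCurve ℂ) := by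
  have hu0 : (u : ℂ) ≠ 0 := u.ne_zero
  have h1 := perC_vc (⟨0, 0, (u : ℂ) ^ 3 * a, 0, 0⟩ : WeierstrassCurve ℂ) ⟨u, 0, 0, 0⟩
  have h2 : (⟨u, 0, 0, 0⟩ : VariableChange ℂ) •
      (⟨0, 0, (u : ℂ) ^ 3 * a, 0, 0⟩ : WeierstrassCurve ℂ) =
      (⟨0, 0, a, 0, 0⟩ : WeierstrassCurve ℂ) := by
    ext
    · rw [variableChange_a₁]
      simp
    · rw [variableChange_a₂]
      simp
    · rw [variableChange_a₃, Units.val_inv_eq_inv_val]
      field_simp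
      ring
    · rw [variableChange_a₄]
      simp
    · rw [variableChange_a₆]
      simp
  rw [h2] at h1
  exact h1.symm

private theorem P1_perC_tw (a z : ℂ) (hz : z ≠ 0) :
    ‖z‖ ^ 2 * perC (⟨0, 0, z * a, 0, 0⟩ : WeierstrassCurve ℂ) *
      perC (⟨0, 0, z ^ 2 * a, 0, 0⟩ : WeierstrassCurve ℂ) =
      perC (⟨0, 0, a, 0, 0⟩ : WeierstrassCurve ℂ) ^ 2 := by
  obtain ⟨u, hu⟩ := P1_cbrt z hz
  have h1 := P1_perC a u
  have h2 := P1_perC a (u ^ 2)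
  have h4 : ((u : ℂ) ^ 2) ^ 3 = z ^ 2 := by
    rw [← hu]
    ring
  rw [Units.val_pow_eq_pow_val, norm_pow, h4] at h2
  rw [hu] at h1
  have h3 : ‖z‖ = ‖(u : ℂ)‖ ^ 3 := by rw [← hu, norm_pow]
  rw [h3]
  calc (‖(u : ℂ)‖ ^ 3) ^ 2 * perC (⟨0, 0, z * a, 0, 0⟩ : WeierstrassCurve ℂ) *
      perC (⟨0, 0, z ^ 2 * a, 0, 0⟩ : WeierstrassCurve ℂ) =
      (‖(u : ℂ)‖ ^ 2 * perC (⟨0, 0, z * a, 0, 0⟩ : WeierstrassCurve ℂ)) *
      ((‖(u : ℂ)‖ ^ 2) ^ 2 * perC (⟨0, 0, z ^ 2 * a, 0, 0⟩ : WeierstrassCurve ℂ)) := by ring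
    _ = perC (⟨0, 0, a, 0, 0⟩ : WeierstrassCurve ℂ) ^ 2 := by rw [h1, h2, sq]

private theorem P1_perAt {F : Type*} [Field F] (W : WeierstrassCurve F) {v : InfinitePlace F}
    (hv : v.IsComplex) : perAt W v = 2 * perC (W.map v.embedding) := by
  rw [perAt, dif_neg (InfinitePlace.not_isReal_iff_isComplex.2 hv)]

/-- The two twists. PROOF. ADAPTATION of `prod_per_tw` in MP_1a91b9_ntC/Sh/P.lean. Over `ℂ`: `u³ = z`, `perC_vc` for `⟨u, 0, 0, 0⟩` and the curve `⟨0, 0, z a, 0, 0⟩` gives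
`‖u‖² perC(⟨0, 0, z a, 0, 0⟩) = perC(⟨0, 0, a, 0, 0⟩)`, and for `⟨u ^ 2, 0, 0, 0⟩` and `⟨0, 0, z² a, 0, 0⟩` the same with `‖u‖⁴`; the product: `‖z‖² perC perC = perC²`.
And `∏ (v e)² = |N(e)|` (all the places are complex, `InfinitePlace.prod_eq_abs_norm`). -/
theorem prod_per_tw3 {N : Type} [Field N] [NumberField N] (hc : ∀ v : InfinitePlace N, v.IsComplex)
    {a e : N} (he : e ≠ 0) :
    |((Algebra.norm ℚ e : ℚ) : ℝ)| *
      (∏ v : InfinitePlace N, perAt (⟨0, 0, e * a, 0, 0⟩ : WeierstrassCurve N) v) *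
      (∏ v : InfinitePlace N, perAt (⟨0, 0, e ^ 2 * a, 0, 0⟩ : WeierstrassCurve N) v) =
      (∏ v : InfinitePlace N, perAt (⟨0, 0, a, 0, 0⟩ : WeierstrassCurve N) v) ^ 2 := by
  have h2 : |((Algebra.norm ℚ e : ℚ) : ℝ)| = ∏ v : InfinitePlace N, v e ^ 2 := by
    have h3 := InfinitePlace.prod_eq_abs_norm e
    have h4 : ∏ v : InfinitePlace N, v e ^ 2 = ∏ v : InfinitePlace N, v e ^ v.mult := by
      refine Finset.prod_congr rfl fun v _ => ?_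
      rw [InfinitePlace.mult, if_neg (InfinitePlace.not_isReal_iff_isComplex.2 (hc v))]
    rw [h4, h3]
    push_cast
    rfl
  rw [h2, ← Finset.prod_mul_distrib, ← Finset.prod_mul_distrib, ← Finset.prod_pow]
  refine Finset.prod_congr rfl fun v _ => ?_
  rw [P1_perAt _ (hc v), P1_perAt _ (hc v), P1_perAt _ (hc v)]
  have h5 : (⟨0, 0, e * a, 0, 0⟩ : WeierstrassCurve N).map v.embedding =
      (⟨0, 0, v.embedding e * v.embedding a, 0, 0⟩ : WeierstrassCurve ℂ) := by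
    ext <;> simp
  have h6 : (⟨0, 0, e ^ 2 * a, 0, 0⟩ : WeierstrassCurve N).map v.embedding =
      (⟨0, 0, v.embedding e ^ 2 * v.embedding a, 0, 0⟩ : WeierstrassCurve ℂ) := by
    ext <;> simp
  have h7 : (⟨0, 0, a, 0, 0⟩ : WeierstrassCurve N).map v.embedding =
      (⟨0, 0, v.embedding a, 0, 0⟩ : WeierstrassCurve ℂ) := by
    ext <;> simp
  have h8 := P1_perC_tw (v.embedding a) (v.embedding e) ((map_ne_zero v.embedding).2 he)
  rw [InfinitePlace.norm_embedding_eq] at h8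
  rw [h5, h6, h7, mul_pow, ← h8]
  ring

end Pool.Agent.Lib.MP_1a91b9_ntCS.S
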