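import Pool.Agent.Lib.MP_1a91b9_ntC.Sh.P

/-!
# CUBIC STABILITY, block S, leaf P2: the complex periods of the base change
-/

set_option autoImplicit false
set_option linter.unusedSectionVars false

namespace Pool.Agent.Lib.MP_1a91b9_ntCS.S

open NumberField WeierstrassCurve MeasureTheory
open Pool.Agent.Lib.MP_1a91b9_nuT.Per Pool.Agent.Lib.MP_1a91b9_nuT.CT

variable [Pool.Agent.Lib.MP_1a91b9_nuT.CD]

private theorem P2_perAt {F : Type*} [Field F] (W : WeierstrassCurve F) {v : InfinitePlace F}
    (hv : v.IsComplex) : perAt W v = 2 * perC (W.map v.embedding) := by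
  rw [perAt, dif_neg (InfinitePlace.not_isReal_iff_isComplex.2 hv)]

omit [Pool.Agent.Lib.MP_1a91b9_nuT.CD] in
/-- the points of the conjugate curve -/
private noncomputable def P2_cj (W : WeierstrassCurve ℂ) (x : ℂ) : {y : ℂ // W.toAffine.Equation x y} ≃
    {y : ℂ // (W.map (starRingEnd ℂ)).toAffine.Equation ((starRingEnd ℂ) x) y} where
  toFun y := ⟨(starRingEnd ℂ) y.1, (Affine.map_equation W (f := starRingEnd ℂ)
    (starRingEnd ℂ).injective x y.1).2 y.2⟩
  invFun y := ⟨(starRingEnd ℂ) y.1, by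
    have h := y.2
    rw [← Complex.conj_conj y.1] at h
    exact (Affine.map_equation W (f := starRingEnd ℂ) (starRingEnd ℂ).injective x _).1 h⟩
  left_inv y := by
    apply Subtype.ext
    exact Complex.conj_conj y.1
  right_inv y := by
    apply Subtype.ext
    exact Complex.conj_conj y.1

private theorem P2_perC_conj (W : WeierstrassCurve ℂ) :
    perC (W.map (starRingEnd ℂ)) = perC W := by
  rw [perC, perC]
  have hmp : MeasurePreserving (Complex.conjLIE : ℂ ≃ₗᵢ[ℝ] ℂ) volume volume :=
    Complex.conjLIE.measurePreserving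
  have hme : MeasurableEmbedding (Complex.conjLIE : ℂ ≃ₗᵢ[ℝ] ℂ) :=
    Complex.conjLIE.toHomeomorph.measurableEmbedding
  rw [← hmp.integral_comp hme]
  congr 1
  ext x
  have hx : (Complex.conjLIE : ℂ ≃ₗᵢ[ℝ] ℂ) x = (starRingEnd ℂ) x := rfl
  rw [hx, ← (P2_cj W x).tsum_eq]
  refine tsum_congr fun y => ?_
  have e1 : (((P2_cj W x) y : {y : ℂ // (W.map (starRingEnd ℂ)).toAffine.Equation
      ((starRingEnd ℂ) x) y}) : ℂ) = (starRingEnd ℂ) (y : ℂ) := rfl
  rw [e1]
  have e2 : 2 * (starRingEnd ℂ) (y : ℂ) + (W.map (starRingEnd ℂ)).a₁ * (starRingEnd ℂ) x +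
      (W.map (starRingEnd ℂ)).a₃ = (starRingEnd ℂ) (2 * (y : ℂ) + W.a₁ * x + W.a₃) := by
    rw [map_add, map_add, map_mul, map_mul, map_ofNat, map_a₁, map_a₃]
  rw [e2, Complex.norm_conj]

private theorem P2_perC_nonneg (W : WeierstrassCurve ℂ) : 0 ≤ perC W := by
  rw [perC]
  refine integral_nonneg fun x => tsum_nonneg fun y => ?_
  positivity

/-- the period at a complex place only depends on the place, not on the embedding -/
private theorem P2_mk {F : Type*} [Field F] (W : WeierstrassCurve F) (φ : F →+* ℂ)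
    (hv : (InfinitePlace.mk φ).IsComplex) :
    perAt W (InfinitePlace.mk φ) = 2 * perC (W.map φ) := by
  rw [P2_perAt W hv]
  have h := InfinitePlace.mk_embedding (InfinitePlace.mk φ)
  rw [InfinitePlace.mk_eq_iff] at h
  rcases h with h | h
  · rw [h]
  · have h1 : W.map φ = (W.map (InfinitePlace.mk φ).embedding).map (starRingEnd ℂ) := by
      rw [WeierstrassCurve.map_map]
      exact congrArg W.map h.symm
    rw [h1, P2_perC_conj]

omit [Pool.Agent.Lib.MP_1a91b9_nuT.CD] in
private theorem P2_prod_emb {F : Type} [Field F] [NumberField F]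
    (hc : ∀ v : InfinitePlace F, v.IsComplex) (G : InfinitePlace F → ℝ) :
    ∏ φ : F →+* ℂ, G (InfinitePlace.mk φ) = (∏ v : InfinitePlace F, G v) ^ 2 := by
  classical
  rw [← Finset.prod_fiberwise Finset.univ InfinitePlace.mk, ← Finset.prod_pow]
  refine Finset.prod_congr rfl fun v _ => ?_
  rw [Finset.prod_congr rfl fun φ hφ => by rw [(Finset.mem_filter.1 hφ).2], Finset.prod_const,
    InfinitePlace.card_filter_mk_eq, InfinitePlace.mult,
    if_neg (InfinitePlace.not_isReal_iff_isComplex.2 (hc v))]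

/-- The base change: above each complex place there are three places. PROOF. Copy of `prod_per_bc` (and of the private lemmas which it uses, renamed) in
MP_1a91b9_ntC/Sh/P.lean with `3` in place of `2`; `Module.finrank N A = 3` is given. -/
theorem prod_per_bc3 {N A : Type} [Field N] [NumberField N] [Field A] [NumberField A] [Algebra N A]
    (hc : ∀ v : InfinitePlace N, v.IsComplex) (h3 : Module.finrank N A = 3)
    (E : WeierstrassCurve N) :
    ∏ w : InfinitePlace A, perAt (E.baseChange A) w =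
      (∏ v : InfinitePlace N, perAt E v) ^ 3 := by
  classical
  have hcA : ∀ w : InfinitePlace A, w.IsComplex := by
    intro w
    rw [← InfinitePlace.not_isReal_iff_isComplex]
    intro h
    exact InfinitePlace.not_isReal_iff_isComplex.2 (hc (w.comap (algebraMap N A)))
      (h.comap (algebraMap N A))
  have hcard : ∀ σ : N →+* ℂ,
      (Finset.univ.filter fun φ : A →+* ℂ => φ.comp (algebraMap N A) = σ).card = 3 := by
    intro σ
    let _ : Algebra N ℂ := σ.toAlgebra
    have h2 : Fintype.card (A →ₐ[N] ℂ) = 3 := by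
      rw [AlgHom.card N A ℂ, h3]
    rw [← h2, ← Fintype.card_subtype]
    refine Fintype.card_congr ⟨fun φ => ⟨φ.1, fun x => ?_⟩, fun ψ => ⟨ψ.toRingHom, ?_⟩, ?_, ?_⟩
    · exact congrArg (fun f : N →+* ℂ => f x) φ.2
    · ext x
      exact ψ.commutes x
    · intro φ
      rfl
    · intro ψ
      rfl
  have h1 : (∏ w : InfinitePlace A, perAt (E.baseChange A) w) ^ 2 =
      ((∏ v : InfinitePlace N, perAt E v) ^ 3) ^ 2 := by
    rw [pow_right_comm, ← P2_prod_emb hcA, ← P2_prod_emb hc, ← Finset.prod_pow,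
      ← Finset.prod_fiberwise Finset.univ (fun φ : A →+* ℂ => φ.comp (algebraMap N A))]
    refine Finset.prod_congr rfl fun σ _ => ?_
    rw [← hcard σ, ← Finset.prod_const]
    refine Finset.prod_congr rfl fun φ hφ => ?_
    have hφ' : φ.comp (algebraMap N A) = σ := (Finset.mem_filter.1 hφ).2
    rw [P2_mk _ φ (hcA _), P2_mk _ σ (hc _), ← hφ', ← WeierstrassCurve.map_map]
    rfl
  have hpos : ∀ {F : Type} [Field F] [NumberField F] (W : WeierstrassCurve F)
      (_ : ∀ v : InfinitePlace F, v.IsComplex), 0 ≤ ∏ v : InfinitePlace F, perAt W v := by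
    intro F _ _ W hF
    refine Finset.prod_nonneg fun v _ => ?_
    rw [P2_perAt W (hF v)]
    have := P2_perC_nonneg (W.map v.embedding)
    positivity
  exact (pow_left_inj₀ (hpos _ hcA) (pow_nonneg (hpos _ hc) 3) two_ne_zero).1 h1

end Pool.Agent.Lib.MP_1a91b9_ntCS.S
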