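import Pool.Agent.Lib.MP_1a91b9_ntC.Sh.R
import Pool.Agent.Lib.MP_1a91b9_ntCS.S.D
import Pool.Agent.Lib.MP_1a91b9_ntCS.S.P1
import Pool.Agent.Lib.MP_1a91b9_ntCS.S.P2

/-!
# CUBIC STABILITY, block S, leaf R: the period relation and the leading terms
-/

set_option autoImplicit false
set_option linter.unusedSectionVars false

namespace Pool.Agent.Lib.MP_1a91b9_ntCS.S

open NumberField IsDedekindDomain WeierstrassCurve
open Pool.Agent.Lib.MP_1a91b9_nuT.S9 Pool.Agent.Lib.MP_1a91b9_nuT.Per Pool.Agent.Lib.MP_1a91b9_nuT.CT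
open Pool.Agent.Lib.MP_1a91b9_ntC.Sh

variable [Pool.Agent.Lib.MP_1a91b9_nuT.CD]

/-- **The period relation.** PROOF. As `period_rel` in MP_1a91b9_ntC/Sh/R.lean, with `disc_cub` (the degree of `N` is even: all the places are complex,
`InfinitePlace.card_add_two_mul_card_eq_rank`, `nrRealPlaces = 0`), `finrank_cub`, `prod_per_tw3`, `prod_per_bc3` and `rat_normFactor` for the four curves;
`√|disc A| = |r_d| (√|disc N|)³ |N(e)|`; `r = |r_d| r_{V1} r_{V2} r_E r_A⁻¹`. -/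
theorem period_rel3 {N A : Type} [Field N] [NumberField N] [Field A] [NumberField A] [Algebra N A]
    (hc : ∀ v : InfinitePlace N, v.IsComplex) (a : N) {z : N} (hz : z ^ 2 + z + 1 = 0) {e : 𝓞 N}
    {x₀ : A} (hx : x₀ ^ 3 = algebraMap N A (e : N)) (he : e ≠ 0)
    (hx' : ∀ z : A, ∃ α β γ : N, z = algebraMap N A α + algebraMap N A β * x₀ +
      algebraMap N A γ * x₀ ^ 2)
    (hn : ¬ ∃ y : N, algebraMap N A y = x₀) :
    ∃ r : ℚ, (∀ q : ℕ, q.Prime → q ≠ 3 → IsCoprime (Algebra.norm ℤ e) (q : ℤ) →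
      GoodQ q (⟨0, 0, (e : N) * a, 0, 0⟩ : WeierstrassCurve N) →
      GoodQ q (⟨0, 0, (e : N) ^ 2 * a, 0, 0⟩ : WeierstrassCurve N) →
      GoodQ q (⟨0, 0, a, 0, 0⟩ : WeierstrassCurve N) →
      GoodQ q ((⟨0, 0, a, 0, 0⟩ : WeierstrassCurve N).baseChange A) → UnitQ q r) ∧
      period (⟨0, 0, (e : N) * a, 0, 0⟩ : WeierstrassCurve N) *
        period (⟨0, 0, (e : N) ^ 2 * a, 0, 0⟩ : WeierstrassCurve N) *
        period (⟨0, 0, a, 0, 0⟩ : WeierstrassCurve N) * √|(discr A : ℝ)| =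
      (r : ℝ) * (√|(discr N : ℝ)| ^ 3 *
        period ((⟨0, 0, a, 0, 0⟩ : WeierstrassCurve N).baseChange A)) := by
  have he' : (e : N) ≠ 0 := by
    intro h
    exact he (by exact_mod_cast h)
  have hev : Even (Module.finrank ℚ N) := by
    have h1 := InfinitePlace.card_add_two_mul_card_eq_rank N
    have h2 : InfinitePlace.nrRealPlaces N = 0 := nrRealPlaces_eq_zero_iff.2 ⟨hc⟩
    rw [h2, zero_add] at h1
    rw [← h1]
    exact even_two_mul _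
  obtain ⟨rd, hd1, hd2, hd3⟩ := disc_cub hev hz hx he hx' hn
  obtain ⟨rV, hV⟩ := Pool.Agent.Lib.MP_1a91b9_nuT3.S9.rat_normFactor
    (⟨0, 0, (e : N) * a, 0, 0⟩ : WeierstrassCurve N)
  obtain ⟨rW, hW⟩ := Pool.Agent.Lib.MP_1a91b9_nuT3.S9.rat_normFactor
    (⟨0, 0, (e : N) ^ 2 * a, 0, 0⟩ : WeierstrassCurve N)
  obtain ⟨rE, hE⟩ := Pool.Agent.Lib.MP_1a91b9_nuT3.S9.rat_normFactor
    (⟨0, 0, a, 0, 0⟩ : WeierstrassCurve N)
  obtain ⟨rA, hA⟩ := Pool.Agent.Lib.MP_1a91b9_nuT3.S9.rat_normFactor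
    ((⟨0, 0, a, 0, 0⟩ : WeierstrassCurve N).baseChange A)
  have hA0 := Pool.Agent.Lib.MP_1a91b9_nuT3.S9.finprod_normFactor_ne
    ((⟨0, 0, a, 0, 0⟩ : WeierstrassCurve N).baseChange A)
  have hA1 : (rA : ℝ) ≠ 0 := by rw [hA]; exact hA0
  refine ⟨|rd| * rV * rW * rE * rA⁻¹, ?_, ?_⟩
  · intro q hq hq2 hqe g1 g2 g3 g4
    have h1 : UnitQ q |rd| := by
      have h2 := hd3 q hq hq2 hqe
      rcases abs_choice rd with h3 | h3
      · rw [h3]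
        exact h2
      · rw [h3]
        exact ⟨by rw [Rat.num_neg_eq_neg_num]; exact h2.1.neg_left, by
          rw [Rat.den_neg_eq_den]; exact h2.2⟩
    exact (((h1.mul (nf_unit' hq g1 hV)).mul (nf_unit' hq g2 hW)).mul (nf_unit' hq g3 hE)).mul
      ((nf_unit' hq g4 hA).inv hq)
  · have h1 := prod_per_tw3 hc (a := a) he'
    have h2 := prod_per_bc3 hc (finrank_cub hz hx hx' hn)
      (⟨0, 0, a, 0, 0⟩ : WeierstrassCurve N)
    have h3 : √|(discr A : ℝ)| = |(rd : ℝ)| * √|(discr N : ℝ)| ^ 3 *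
        |((Algebra.norm ℚ (e : N) : ℚ) : ℝ)| := by
      have h4 : |(discr N : ℝ)| = √|(discr N : ℝ)| ^ 2 := (Real.sq_sqrt (abs_nonneg _)).symm
      have h5 : (rd : ℝ) ^ 2 * |(discr N : ℝ)| ^ 3 * |((Algebra.norm ℚ (e : N) : ℚ) : ℝ)| ^ 2 =
          (|(rd : ℝ)| * √|(discr N : ℝ)| ^ 3 * |((Algebra.norm ℚ (e : N) : ℚ) : ℝ)|) ^ 2 := by
        rw [mul_pow, mul_pow, sq_abs (rd : ℝ)]
        congr 2
        nth_rewrite 1 [h4]
        ring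
      rw [hd2, h5, Real.sqrt_sq (by positivity)]
    rw [period, period, period, period, ← hV, ← hW, ← hE, ← hA, h2, h3]
    push_cast
    have h4 : (rA : ℝ)⁻¹ * rA = 1 := inv_mul_cancel₀ hA1
    calc (rV : ℝ) * (∏ v : InfinitePlace N,
            perAt (⟨0, 0, (e : N) * a, 0, 0⟩ : WeierstrassCurve N) v) *
          ((rW : ℝ) * ∏ v : InfinitePlace N,
            perAt (⟨0, 0, (e : N) ^ 2 * a, 0, 0⟩ : WeierstrassCurve N) v) *
          ((rE : ℝ) * ∏ v : InfinitePlace N, perAt (⟨0, 0, a, 0, 0⟩ : WeierstrassCurve N) v) *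
          (|(rd : ℝ)| * √|(discr N : ℝ)| ^ 3 * |((Algebra.norm ℚ (e : N) : ℚ) : ℝ)|) =
        (rV : ℝ) * rW * (|((Algebra.norm ℚ (e : N) : ℚ) : ℝ)| * (∏ v : InfinitePlace N,
            perAt (⟨0, 0, (e : N) * a, 0, 0⟩ : WeierstrassCurve N) v) *
            (∏ v : InfinitePlace N,
            perAt (⟨0, 0, (e : N) ^ 2 * a, 0, 0⟩ : WeierstrassCurve N) v)) *
          ((rE : ℝ) * ∏ v : InfinitePlace N, perAt (⟨0, 0, a, 0, 0⟩ : WeierstrassCurve N) v) *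
          (|(rd : ℝ)| * √|(discr N : ℝ)| ^ 3) := by ring
      _ = |(rd : ℝ)| * rV * rW * rE * ((rA : ℝ)⁻¹ * rA) * (√|(discr N : ℝ)| ^ 3 *
          (∏ v : InfinitePlace N, perAt (⟨0, 0, a, 0, 0⟩ : WeierstrassCurve N) v) ^ 3) := by
        rw [h1, h4]
        ring
      _ = _ := by ring

omit [Pool.Agent.Lib.MP_1a91b9_nuT.CD] in
/-- **The relation between the leading terms.** PROOF. As `lead_rel` in MP_1a91b9_ntC/Sh/R.lean: `s = r₁ r₂ r`. -/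
theorem lead_rel3 {q : ℕ} (hq : q.Prime) {g1 g2 : ℂ} {p1 p2 pE pA dN dA : ℝ} (hdN : dN ≠ 0)
    (hdA : dA ≠ 0) {r₁ r₂ r : ℚ} (h1 : UnitQ q r₁) (h2 : UnitQ q r₂) (h : UnitQ q r) (hg1 : g1 ≠ 0)
    (hg2 : g2 ≠ 0) (e1 : g1 * (√|dN| : ℝ) / (p1 : ℝ) = (r₁ : ℂ))
    (e2 : g2 * (√|dN| : ℝ) / (p2 : ℝ) = (r₂ : ℂ))
    (e3 : p1 * p2 * pE * √|dA| = (r : ℝ) * (√|dN| ^ 3 * pA)) :
    ∃ s : ℚ, UnitQ q s ∧
      g1 * g2 * ((√|dA| / pA : ℝ) : ℂ) = (s : ℂ) * ((√|dN| / pE : ℝ) : ℂ) := by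
  have hr1 : (r₁ : ℂ) ≠ 0 := by exact_mod_cast h1.ne_zero hq
  have hr2 : (r₂ : ℂ) ≠ 0 := by exact_mod_cast h2.ne_zero hq
  have hrr : (r : ℝ) ≠ 0 := by exact_mod_cast h.ne_zero hq
  have hs : (√|dN| : ℝ) ≠ 0 := (Real.sqrt_pos.2 (abs_pos.2 hdN)).ne'
  have hp1 : p1 ≠ 0 := by
    rintro rfl
    rw [Complex.ofReal_zero, div_zero] at e1
    exact hr1 e1.symm
  have hp2 : p2 ≠ 0 := by
    rintro rfl
    rw [Complex.ofReal_zero, div_zero] at e2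
    exact hr2 e2.symm
  refine ⟨r₁ * r₂ * r, (h1.mul h2).mul h, ?_⟩
  have hsA : (√|dA| : ℝ) ≠ 0 := (Real.sqrt_pos.2 (abs_pos.2 hdA)).ne'
  by_cases hA : pA = 0
  · have hE : pE = 0 := by
      rw [hA, mul_zero, mul_zero] at e3
      exact (mul_eq_zero.1 ((mul_eq_zero.1 e3).resolve_right hsA)).resolve_left
        (mul_ne_zero hp1 hp2)
    rw [hA, hE, div_zero, div_zero, Complex.ofReal_zero, mul_zero, mul_zero]
  · have hE : pE ≠ 0 := by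
      rintro rfl
      rw [mul_zero, zero_mul] at e3
      exact mul_ne_zero hrr (mul_ne_zero (pow_ne_zero 3 hs) hA) e3.symm
    have hp1c : (p1 : ℂ) ≠ 0 := by exact_mod_cast hp1
    have hp2c : (p2 : ℂ) ≠ 0 := by exact_mod_cast hp2
    have hEc : (pE : ℂ) ≠ 0 := by exact_mod_cast hE
    have hAc : (pA : ℂ) ≠ 0 := by exact_mod_cast hA
    have hsc : ((√|dN| : ℝ) : ℂ) ≠ 0 := by exact_mod_cast hs
    have h3 : g1 * ((√|dN| : ℝ) : ℂ) = (r₁ : ℂ) * (p1 : ℂ) := (div_eq_iff hp1c).1 e1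
    have h3' : g2 * ((√|dN| : ℝ) : ℂ) = (r₂ : ℂ) * (p2 : ℂ) := (div_eq_iff hp2c).1 e2
    have h4 : (p1 : ℂ) * (p2 : ℂ) * (pE : ℂ) * ((√|dA| : ℝ) : ℂ) =
        (r : ℂ) * (((√|dN| : ℝ) : ℂ) ^ 3 * (pA : ℂ)) := by
      exact_mod_cast e3
    rw [Complex.ofReal_div, Complex.ofReal_div, mul_div_assoc', mul_div_assoc',
      div_eq_div_iff hAc hEc]
    refine mul_right_cancel₀ (pow_ne_zero 2 hsc) ?_
    push_cast
    calc g1 * g2 * ((√|dA| : ℝ) : ℂ) * (pE : ℂ) * ((√|dN| : ℝ) : ℂ) ^ 2 =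
        (g1 * ((√|dN| : ℝ) : ℂ)) * (g2 * ((√|dN| : ℝ) : ℂ)) * (pE : ℂ) *
          ((√|dA| : ℝ) : ℂ) := by ring
      _ = (r₁ : ℂ) * (r₂ : ℂ) * ((p1 : ℂ) * (p2 : ℂ) * (pE : ℂ) * ((√|dA| : ℝ) : ℂ)) := by
        rw [h3, h3']; ring
      _ = (r₁ : ℂ) * (r₂ : ℂ) * ((r : ℂ) * (((√|dN| : ℝ) : ℂ) ^ 3 * (pA : ℂ))) := by
        rw [h4]
      _ = _ := by ring

end Pool.Agent.Lib.MP_1a91b9_ntCS.S
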