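import Pool.Agent.Lib.MP_1a91b9_ntC.Sh.R
import Pool.Agent.Lib.MP_1a91b9_nuI.Ta.Gen

/-!
# CUBIC STABILITY, block S, leaf Tm: the Tamagawa numbers of `E : y² + a y = x³`
-/

set_option autoImplicit false
set_option linter.unusedSectionVars false

namespace Pool.Agent.Lib.MP_1a91b9_ntCS.S

open NumberField IsDedekindDomain WeierstrassCurve
open Pool.Agent.Lib.MP_1a91b9_nuT.S9 Pool.Agent.Lib.MP_1a91b9_ntC.Sh

variable [Pool.Agent.Lib.MP_1a91b9_nuT.CD]

open Pool.Agent.Lib.MP_1a91b9_nuX.GM (GoodW IntW) in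
open Pool.Agent.Lib.MP_1a91b9_nuX.TM (sw) in
omit [Pool.Agent.Lib.MP_1a91b9_nuT.CD] in
/-- the short form of the curve -/
private theorem Tm_short_form {N : Type} [Field N] [CharZero N] (a : N) :
    (⟨1, 0, 0, -a / 2⟩ : VariableChange N) • (⟨0, 0, a, 0, 0⟩ : WeierstrassCurve N) =
      sw 0 (a ^ 2 / 4) := by
  rw [variableChange_def, sw]
  simp only [inv_one, Units.val_one]
  ext <;> ring

/-- **All Tamagawa numbers are prime to `q`.** PROOF. As `tam_good` in MP_1a91b9_ntC/Sh/Tm.lean (copy; do not import that file, it is heavy), with `⟨1, 0, 0, -a / 2⟩ • ⟨0, 0, a, 0, 0⟩ = sw 0 (a ^ 2 / 4)` and the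
invariant `j = 0`. -/
theorem tam_good3 {N : Type} [Field N] [NumberField N] {a : N} (ha : a ≠ 0) {q : ℕ}
    (hq : q.Prime) (h5 : 5 ≤ q) (hg : GoodQ q (⟨0, 0, a, 0, 0⟩ : WeierstrassCurve N))
    (v : HeightOneSpectrum (𝓞 N)) :
    (tam (⟨0, 0, a, 0, 0⟩ : WeierstrassCurve N) v).Coprime q := by
  have hD := Tm_short_form a
  have hab : 4 * (0 : N) ^ 3 + 27 * (a ^ 2 / 4) ^ 2 ≠ 0 := by
    have h1 : 4 * (0 : N) ^ 3 + 27 * (a ^ 2 / 4) ^ 2 = 27 / 16 * a ^ 4 := by ring
    rw [h1]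
    exact mul_ne_zero (by norm_num) (pow_ne_zero 4 ha)
  have hj' : 6912 * (0 : N) ^ 3 =
      ((0 : ℤ) : N) * (4 * (0 : N) ^ 3 + 27 * (a ^ 2 / 4) ^ 2) := by
    rw [Int.cast_zero, zero_mul, zero_pow (by norm_num), mul_zero]
  refine Pool.Agent.Lib.MP_1a91b9_nuI.tam_gen hab hj' hD hq h5 v ?_
  by_cases hv : (q : 𝓞 N) ∈ v.asIdeal
  · right
    obtain ⟨⟨g1, g2, g3, g4, g6⟩, g7⟩ := hg v hv
    have key : ∀ z : N, Valued.v (algebraMap N (v.adicCompletion N) z) = v.valuation N z :=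
      fun z => HeightOneSpectrum.valuedAdicCompletion_eq_valuation' v z
    refine ⟨((⟨1, 0, 0, -a / 2⟩ : VariableChange N).map
      (algebraMap N (v.adicCompletion N)))⁻¹, ?_⟩
    rw [← hD, WeierstrassCurve.baseChange, ← WeierstrassCurve.map_variableChange, inv_smul_smul]
    exact
      { a1 := by rw [WeierstrassCurve.map_a₁, key]; exact g1
        a2 := by rw [WeierstrassCurve.map_a₂, key]; exact g2
        a3 := by rw [WeierstrassCurve.map_a₃, key]; exact g3
        a4 := by rw [WeierstrassCurve.map_a₄, key]; exact g4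
        a6 := by rw [WeierstrassCurve.map_a₆, key]; exact g6
        disc := by rw [WeierstrassCurve.map_Δ, key]; exact g7 }
  · left
    have e : (q : v.adicCompletion N) = algebraMap N (v.adicCompletion N) (q : N) :=
      (map_natCast _ q).symm
    have e' : (q : N) = algebraMap (𝓞 N) N (q : 𝓞 N) := (map_natCast _ q).symm
    have e2 : Valued.v (algebraMap N (v.adicCompletion N) (q : N)) = v.valuation N (q : N) :=
      HeightOneSpectrum.valuedAdicCompletion_eq_valuation' v _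
    rw [e, e2, e']
    refine le_antisymm (v.valuation_le_one _) (not_lt.1 fun h => hv ?_)
    exact (v.valuation_lt_one_iff_mem (K := N) (q : 𝓞 N)).1 h

end Pool.Agent.Lib.MP_1a91b9_ntCS.S
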