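import Pool.Agent.Lib.MP_1a91b9_ntC.Sh.T
import Pool.Agent.Lib.MP_1a91b9_ntCS.S.F
import Pool.Agent.Lib.MP_1a91b9_ntCS.S.R
import Pool.Agent.Lib.MP_1a91b9_ntCS.S.G
import Pool.Agent.Lib.MP_1a91b9_ntCS.S.G2
import Pool.Agent.Lib.MP_1a91b9_ntCS.S.Tm
import Pool.Agent.Lib.MP_1a91b9_ntCS.S.I3
import Pool.Agent.Lib.MP_1a91b9_ntCC.RE
import Pool.Agent.Lib.MP_1a91b9_ntCC.RO

/-!
# CUBIC STABILITY, block S, leaf T: the step in the towers above `F`
-/

set_option autoImplicit false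
set_option linter.unusedSectionVars false

namespace Pool.Agent.Lib.MP_1a91b9_ntCS.S

open NumberField IsDedekindDomain WeierstrassCurve Pool.Agent.Lib.MP_1a91b9_ntC.Sh
open Pool.Agent.Lib.MP_1a91b9_ntJ (TowP)

/-- The condition on the ramification for the curve `V` over `F`. -/
def RamV (K : Type) [Field K] [NumberField K] {F : Type} [Field F] [NumberField F] [Algebra K F]
    (V : WeierstrassCurve F) (q : ℕ) (L : Type) [Field L] [NumberField L] [Algebra F L] : Prop :=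
  ∀ (v : HeightOneSpectrum (𝓞 F)) (w : HeightOneSpectrum (𝓞 L)),
    v.asIdeal.map (algebraMap (𝓞 F) (𝓞 L)) ≤ w.asIdeal ^ 2 →
      ((q : 𝓞 F) ∈ v.asIdeal →
        Ideal.absNorm (v.asIdeal.comap (algebraMap (𝓞 K) (𝓞 F))) = q) ∧
      ((q : 𝓞 F) ∉ v.asIdeal → ∀ (V₀ : WeierstrassCurve (𝓞 F))
        (C₀ : WeierstrassCurve.VariableChange F),
        C₀ • V = V₀.map (algebraMap (𝓞 F) F) → V₀.Δ ∉ v.asIdeal →
          ¬ q ∣ Nat.card (V₀.map (Ideal.Quotient.mk v.asIdeal)).toAffine.Point)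

/-- **The step in the towers.**

PROOF. ADAPTATION of `tow_step` (MP_1a91b9_ntC/Sh/T.lean). `CD` by `MP_1a91b9_ntW.cd8`. `S = S1 ∪ S2 ∪ S3`, from `hT1`, `hT2`, `exists_good3`; `5 ≤ q`. The degree of `L / F` divides `q ^ k`, so
it is prime to three and `d` is not a cube in `L` (`not_cube`); `y` is not in `L`; `hg` by `cube_gen`. `hT1`, `hT2` for `N = L`, `W = V_i` over `L`, `C = 1` give `g_1`, `g_2`, entire, with
the values; `g = g_1 g_2`. L-series: `ql3` and `oddT_tower` (block R). Leading terms: `period_rel3` and `lead_rel3` (`r_i` = the rational number times `∏ tam / #V_i(L)²`, as in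
`tow_step`). Rank: `rank3`; index: `idx3` (`IdxQ` and `HL` are the same set; classical decidability); Tamagawa: `tam_good3` over `L` and over `L'`; Sha: `sha_stab3`
(`Nat.card = 1`, `Subsingleton`). The places are complex: `cplx` with `s = 2 z + 1`, `s² = -3`. -/
theorem tow_step3 {K : Type} [Field K] [NumberField K] (hK : Module.finrank ℚ K = 2)
    (h3 : ∃ s : K, s ^ 2 = -3) {a : K} (ha : a ≠ 0) {F : Type} [Field F] [NumberField F]
    [Algebra K F] (hF : IntermediateField.adjoin K {x : F | ∃ c : K, x ^ 3 = algebraMap K F c} = ⊤)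
    {d : 𝓞 K} (hd : d ≠ 0) (hcu : ¬ ∃ x : F, x ^ 3 = algebraMap K F (d : K))
    (hT1 : TowP K (⟨0, 0, algebraMap K F (a * (d : K)), 0, 0⟩ : WeierstrassCurve F))
    (hT2 : TowP K (⟨0, 0, algebraMap K F (a * (d : K) ^ 2), 0, 0⟩ : WeierstrassCurve F)) :
    ∃ S : Finset ℕ, ∀ (q : ℕ) [Fact q.Prime], q ∉ S →
      ∀ (k : ℕ) (L M : Type) [Field L] [NumberField L] [Field M] [NumberField M] [Algebra F L]
        [Algebra L M] [Algebra F M] [IsScalarTower F L M] [IsGalois F M],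
        Module.finrank F M = q ^ k →
      RamV K (⟨0, 0, algebraMap K F (a * (d : K)), 0, 0⟩ : WeierstrassCurve F) q L →
      RamV K (⟨0, 0, algebraMap K F (a * (d : K) ^ 2), 0, 0⟩ : WeierstrassCurve F) q L →
      ∀ (L' : Type) [Field L'] [NumberField L'] [Algebra L L'] (y : L'),
        y ^ 3 = algebraMap L L' (algebraMap F L (algebraMap K F (d : K))) →
        IntermediateField.adjoin L {y} = ⊤ →
        RelQ q (((⟨0, 0, a, 0, 0⟩ : WeierstrassCurve K).map (algebraMap K F)).map (algebraMap F L))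
          ((((⟨0, 0, a, 0, 0⟩ : WeierstrassCurve K).map (algebraMap K F)).map
            (algebraMap F L)).map (algebraMap L L')) := by
  have _ : Pool.Agent.Lib.MP_1a91b9_nuT.CD := Pool.Agent.Lib.MP_1a91b9_ntW.cd8
  obtain ⟨z, hz⟩ : ∃ z : K, z ^ 2 + z + 1 = 0 := by
    obtain ⟨s, hs⟩ := h3
    refine ⟨(-1 + s) / 2, ?_⟩
    field_simp
    linear_combination hs
  obtain ⟨S1, hS1⟩ := hT1
  obtain ⟨S2, hS2⟩ := hT2
  obtain ⟨S3, hS3⟩ := exists_good3 ha hd
  refine ⟨S1 ∪ (S2 ∪ S3), fun q hq hqS k L M _ _ _ _ _ _ _ _ _ hM hr1 hr2 L' _ _ _ y hy hgen =>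
    ?_⟩
  obtain ⟨hqS1, hqS2, hqS3⟩ : q ∉ S1 ∧ q ∉ S2 ∧ q ∉ S3 := by
    rw [Finset.mem_union, Finset.mem_union, not_or, not_or] at hqS
    exact hqS
  obtain ⟨h5, hgood⟩ := hS3 q hq.out hqS3
  have hq3 : q ≠ 3 := by omega
  -- `K → L`
  let _ : Algebra K L := ((algebraMap F L).comp (algebraMap K F)).toAlgebra
  have _ : IsScalarTower K F L := IsScalarTower.of_algebraMap_eq fun x => rfl
  let _ : Algebra K L' := ((algebraMap L L').comp (algebraMap K L)).toAlgebra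
  have _ : IsScalarTower K L L' := IsScalarTower.of_algebraMap_eq fun x => rfl
  have hKL : ∀ x : K, algebraMap F L (algebraMap K F x) = algebraMap K L x := fun x => rfl
  -- the degree
  have hfM : FiniteDimensional F M := Module.Finite.of_restrictScalars_finite ℚ F M
  have hdeg : (Module.finrank F L).Coprime 3 := by
    have h1 : (q ^ k).Coprime 3 :=
      Nat.Coprime.pow_left k ((Nat.coprime_primes hq.out Nat.prime_three).2 hq3)
    rw [← hM, ← Module.finrank_mul_finrank F L M] at h1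
    exact Nat.Coprime.coprime_mul_right h1
  have hn : ¬ ∃ z : L, algebraMap L L' z = y := by
    rintro ⟨z, rfl⟩
    refine not_cube hdeg hcu ⟨z, (algebraMap L L').injective ?_⟩
    rw [map_pow, hy]
  have hy' : y ^ 3 = algebraMap L L' (algebraMap K L (d : K)) := by rw [hy, hKL]
  have hg' : ∀ z : L', ∃ α β γ : L, z = algebraMap L L' α + algebraMap L L' β * y +
      algebraMap L L' γ * y ^ 2 := fun z => cube_gen hy' hgen z
  have hd0 : algebraMap K L (d : K) ≠ 0 := by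
    rw [Ne, map_eq_zero]
    exact_mod_cast hd
  have ha0 : algebraMap K L a ≠ 0 := (map_ne_zero _).2 ha
  have ha0' : algebraMap K L' a ≠ 0 := (map_ne_zero _).2 ha
  have hzL : (algebraMap K L z) ^ 2 + algebraMap K L z + 1 = 0 := by
    rw [← map_pow, ← map_add, ← map_one (algebraMap K L), ← map_add, hz, map_zero]
  -- the curves
  have eE : ((⟨0, 0, a, 0, 0⟩ : WeierstrassCurve K).map (algebraMap K F)).map (algebraMap F L) =
      (⟨0, 0, algebraMap K L a, 0, 0⟩ : WeierstrassCurve L) :=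
    WeierstrassCurve.ext (by simp) (by simp) rfl (by simp) (by simp)
  have eV1 : (⟨0, 0, algebraMap K F (a * (d : K)), 0, 0⟩ : WeierstrassCurve F).baseChange L =
      (⟨0, 0, algebraMap K L (d : K) * algebraMap K L a, 0, 0⟩ : WeierstrassCurve L) := by
    refine WeierstrassCurve.ext (map_zero _) (map_zero _) ?_ (map_zero _) (map_zero _)
    change algebraMap F L (algebraMap K F (a * (d : K))) = _
    rw [hKL, map_mul, mul_comm]
  have eV2 : (⟨0, 0, algebraMap K F (a * (d : K) ^ 2), 0, 0⟩ : WeierstrassCurve F).baseChange L =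
      (⟨0, 0, algebraMap K L (d : K) ^ 2 * algebraMap K L a, 0, 0⟩ : WeierstrassCurve L) := by
    refine WeierstrassCurve.ext (map_zero _) (map_zero _) ?_ (map_zero _) (map_zero _)
    change algebraMap F L (algebraMap K F (a * (d : K) ^ 2)) = _
    rw [hKL, map_mul, map_pow, mul_comm]
  obtain ⟨g, g1, g2, g3, ⟨r, r1, r2, r3⟩, g5, g6, g7, g8⟩ := hS1 q hqS1 k L L M hM hr1
    (⟨0, 0, algebraMap K L (d : K) * algebraMap K L a, 0, 0⟩ : WeierstrassCurve L) 1 (by
      rw [eV1, one_smul]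
      exact WeierstrassCurve.map_id _)
  obtain ⟨g', g1', g2', g3', ⟨r', r1', r2', r3'⟩, g5', g6', g7', g8'⟩ := hS2 q hqS2 k L L M hM hr2
    (⟨0, 0, algebraMap K L (d : K) ^ 2 * algebraMap K L a, 0, 0⟩ : WeierstrassCurve L) 1 (by
      rw [eV2, one_smul]
      exact WeierstrassCurve.map_id _)
  obtain ⟨hgE, hgV1, hgV2, hge⟩ := hgood L
  obtain ⟨hgE', -, -, -⟩ := hgood L'
  have hsL : (2 * algebraMap K L z + 1) ^ 2 = ((-3 : ℤ) : L) := by
    push_cast
    linear_combination 4 * hzL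
  have hsL' : (2 * algebraMap K L' z + 1) ^ 2 = ((-3 : ℤ) : L') := by
    have h1 : (algebraMap K L' z) ^ 2 + algebraMap K L' z + 1 = 0 := by
      rw [← map_pow, ← map_add, ← map_one (algebraMap K L'), ← map_add, hz, map_zero]
    push_cast
    linear_combination 4 * h1
  rw [eE]
  obtain ⟨e, he⟩ : ∃ e : 𝓞 L, (e : L) = algebraMap K L (d : K) :=
    ⟨algebraMap (𝓞 K) (𝓞 L) d, rfl⟩
  have he0 : e ≠ 0 := by
    rintro rfl
    exact hd0 (by rw [← he]; rfl)
  have eL' : (⟨0, 0, algebraMap K L a, 0, 0⟩ : WeierstrassCurve L).map (algebraMap L L') =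
      (⟨0, 0, algebraMap K L' a, 0, 0⟩ : WeierstrassCurve L') :=
    WeierstrassCurve.ext (map_zero _) (map_zero _) rfl (map_zero _) (map_zero _)
  refine ⟨⟨fun s => g s * g' s, g1.mul g1', mul_ne_zero g3 g3', fun s hs => ?_, ?_⟩, ?_, ?_,
    fun v => tam_good3 ha0 hq.out h5 hgE v, ?_, ?_⟩
  · -- the L-series
    have ho : Pool.Agent.Lib.MP_1a91b9_ntN.OddT L :=
      Pool.Agent.Lib.MP_1a91b9_ntCC.oddT_tower K hK h3 F hF L M (by
        rw [hM]
        exact (hq.out.odd_of_ne_two (by omega)).pow)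
    have h1 := Pool.Agent.Lib.MP_1a91b9_ntCC.ql3 (L' := L') ⟨_, hzL⟩ ho ha0 hy' hn hg' hs
    change _ = _ * (g s * g' s)
    rw [g2 s hs, g2' s hs, ← h1, eL']
    rfl
  · -- the leading terms
    obtain ⟨ρ, hρ1, hρ2⟩ := period_rel3 (cplx hsL (by norm_num)) (algebraMap K L a) hzL
      (by rw [he]; exact hy') he0 hg' hn
    have hρ : UnitQ q ρ := by
      refine hρ1 q hq.out hq3 (hge e he) ?_ ?_ hgE ?_
      · rw [he]
        exact hgV1
      · rw [he]
        exact hgV2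
      · have h4 : (⟨0, 0, algebraMap K L a, 0, 0⟩ : WeierstrassCurve L).baseChange
            L' = (⟨0, 0, algebraMap K L' a, 0, 0⟩ : WeierstrassCurve L') := eL'
        rw [h4]
        exact hgE'
    obtain ⟨V1, hV1⟩ : ∃ V : WeierstrassCurve L, V = ⟨0, 0, algebraMap K L (d : K) *
      algebraMap K L a, 0, 0⟩ := ⟨_, rfl⟩
    obtain ⟨V2, hV2⟩ : ∃ V : WeierstrassCurve L, V = ⟨0, 0, algebraMap K L (d : K) ^ 2 *
      algebraMap K L a, 0, 0⟩ := ⟨_, rfl⟩
    rw [← hV1] at g5 g6 g8 r3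
    rw [← hV2] at g5' g6' g8' r3'
    rw [he, ← hV1, ← hV2] at hρ2
    have key : ∀ (V : WeierstrassCurve L) (G : ℂ → ℂ) (t : ℚ), IsCoprime t.num (q : ℤ) →
        t.den.Coprime q → Nat.card (Pool.Agent.Lib.MP_1a91b9_nuT3.S9.ShaP q V) = 1 →
        (∀ v : HeightOneSpectrum (𝓞 L), (Pool.Agent.Lib.MP_1a91b9_nuT.S9.tam V v).Coprime q) →
        (Nat.card V.toAffine.Point).Coprime q →
        G 1 * (√|(discr L : ℝ)| : ℝ) / (Pool.Agent.Lib.MP_1a91b9_nuT.S9.period V : ℝ) =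
          (t * ((Nat.card (Pool.Agent.Lib.MP_1a91b9_nuT3.S9.ShaP q V) : ℝ) *
            ((∏ᶠ v : HeightOneSpectrum (𝓞 L),
              Pool.Agent.Lib.MP_1a91b9_nuT.S9.tam V v : ℕ) : ℝ) /
              (Nat.card V.toAffine.Point : ℝ) ^ 2) : ℝ) →
        ∃ t' : ℚ, UnitQ q t' ∧ G 1 * (√|(discr L : ℝ)| : ℝ) /
          (Pool.Agent.Lib.MP_1a91b9_nuT.S9.period V : ℝ) = (t' : ℂ) := by
      intro V G t t1 t2 k5 k6 k8 t3
      have htam : (∏ᶠ v : HeightOneSpectrum (𝓞 L),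
          Pool.Agent.Lib.MP_1a91b9_nuT.S9.tam V v).Coprime q :=
        finprod_induction (fun x : ℕ => x.Coprime q) (Nat.coprime_one_left q)
          (fun _ _ => Nat.Coprime.mul_left) k6
      obtain ⟨tp, htp⟩ : ∃ tp : ℕ, tp = ∏ᶠ v : HeightOneSpectrum (𝓞 L),
        Pool.Agent.Lib.MP_1a91b9_nuT.S9.tam V v := ⟨_, rfl⟩
      rw [← htp] at htam t3
      refine ⟨t * ((tp : ℚ) * (((Nat.card V.toAffine.Point : ℕ) : ℚ) *
        ((Nat.card V.toAffine.Point : ℕ) : ℚ))⁻¹),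
        UnitQ.mul ⟨t1, t2⟩ ((unitQ_nat htam).mul (((unitQ_nat k8).mul (unitQ_nat k8)).inv hq.out)), ?_⟩
      rw [t3, k5]
      push_cast
      rw [sq, one_mul, div_eq_mul_inv]
    obtain ⟨t₁, ht1, ht1'⟩ := key V1 g r r1 r2 g5 g6 g8 r3
    obtain ⟨t₂, ht2, ht2'⟩ := key V2 g' r' r1' r2' g5' g6' g8' r3'
    exact lead_rel3 hq.out (by exact_mod_cast discr_ne_zero L) (by exact_mod_cast discr_ne_zero L')
      ht1 ht2 hρ g3 g3' ht1' ht2' hρ2
  · -- the rank
    classical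
    exact (rank3 (L' := L') ha0 hd0 hzL hy' hn hg' g7 g7').2
  · -- the index
    classical
    exact idx3 ha0 hd0 hzL hy' hn hg' hq.out hq3 g7 g8 g7' g8'
  · -- the Tamagawa numbers over `L'`
    rw [eL']
    exact fun v => tam_good3 ha0' hq.out h5 hgE' v
  · -- the Tate-Shafarevich group
    have hsub1 : Subsingleton (Pool.Agent.Lib.MP_1a91b9_nuT3.S9.ShaP q
        (⟨0, 0, algebraMap K L (d : K) * algebraMap K L a, 0, 0⟩ : WeierstrassCurve L)) :=
      (Nat.card_eq_one_iff_unique.1 g5).1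
    have hsub2 : Subsingleton (Pool.Agent.Lib.MP_1a91b9_nuT3.S9.ShaP q
        (⟨0, 0, algebraMap K L (d : K) ^ 2 * algebraMap K L a, 0, 0⟩ : WeierstrassCurve L)) :=
      (Nat.card_eq_one_iff_unique.1 g5').1
    exact sha_stab3 (cplx hsL (by norm_num)) (cplx hsL' (by norm_num)) hy' hd0 hzL hg' hn q hq3
      hsub1 hsub2


end Pool.Agent.Lib.MP_1a91b9_ntCS.S
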