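import Mathlib

/-!
# CUBIC STABILITY, block S, leaf A2: the corestriction from a subgroup of index three

`act` is an action of the group `G` on `A`, `χ : G → ZMod 3` a homomorphism, `r i` an element with `χ (r i) = i`; `u` is zero outside `χ = 0` and a
cocycle on `χ = 0`. Compare `corF` in MP_1a91b9_ntC/Sh/A.lean (index two).
-/

set_option autoImplicit false

namespace Pool.Agent.Lib.MP_1a91b9_ntCS.S

/-- The corestriction of `u`. -/
def corG {G A : Type*} [Group G] [AddCommGroup A] (act : G → A →+ A) (r : ZMod 3 → G) (u : G → A)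
    (τ : G) : A :=
  ∑ i : ZMod 3, ∑ k : ZMod 3, act (r i)⁻¹ (u (r i * τ * (r k)⁻¹))

private theorem A2_inv {G : Type*} [Group G] (χ : G → ZMod 3)
    (hχ : ∀ σ τ, χ (σ * τ) = χ σ + χ τ) (x : G) : χ x⁻¹ = -χ x := by
  have h1 : χ 1 = 0 := by
    have h := hχ 1 1
    rw [mul_one] at h
    exact (left_eq_add.1 h)
  have h2 := hχ x x⁻¹
  rw [mul_inv_cancel, h1] at h2
  exact (neg_eq_of_add_eq_zero_right h2.symm).symm

private theorem A2_chi {G : Type*} [Group G] (χ : G → ZMod 3)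
    (hχ : ∀ σ τ, χ (σ * τ) = χ σ + χ τ) (r : ZMod 3 → G) (hr : ∀ i, χ (r i) = i) (i k : ZMod 3) (τ : G) :
    χ (r i * τ * (r k)⁻¹) = i + χ τ - k := by
  rw [hχ, hχ, A2_inv χ hχ, hr, hr, sub_eq_add_neg]

private theorem A2_act {G A : Type*} [Group G] [AddCommGroup A] (act : G → A →+ A)
    (hm : ∀ σ τ a, act (σ * τ) a = act σ (act τ a)) (r : ZMod 3 → G) (i k : ZMod 3) (τ : G) (x : A) :
    act (r i)⁻¹ (act (r i * τ * (r k)⁻¹) x) = act τ (act (r k)⁻¹ x) := by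
  rw [← hm, ← hm]
  congr 2
  group

private theorem A2_re {A : Type*} [AddCommGroup A] (f : ZMod 3 → A) (c : ZMod 3) :
    ∑ i : ZMod 3, f (i + c) = ∑ i : ZMod 3, f i :=
  Fintype.sum_equiv (Equiv.addRight c) _ _ fun _ => rfl

/-- PROOF. Only the term `k = i + χ τ` is not zero (`χ (r i * τ * (r k)⁻¹) = i + χ τ - k`; `Finset.sum_eq_single`, `map_zero`). -/
theorem corG_eq {G A : Type*} [Group G] [AddCommGroup A] (act : G → A →+ A) (χ : G → ZMod 3)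
    (hχ : ∀ σ τ, χ (σ * τ) = χ σ + χ τ) (r : ZMod 3 → G) (hr : ∀ i, χ (r i) = i) (u : G → A)
    (h0 : ∀ σ, χ σ ≠ 0 → u σ = 0) (τ : G) :
    corG act r u τ = ∑ i : ZMod 3, act (r i)⁻¹ (u (r i * τ * (r (i + χ τ))⁻¹)) := by
  unfold corG
  refine Finset.sum_congr rfl fun i _ => ?_
  refine Finset.sum_eq_single (i + χ τ) (fun k _ hk => ?_) (fun h => absurd (Finset.mem_univ _) h)
  rw [h0 _ (by rw [A2_chi χ hχ r hr]; exact sub_ne_zero.2 hk.symm), map_zero]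

/-- PROOF. By `corG_eq`. `r i * (σ * τ) * (r (i + χ σ + χ τ))⁻¹ = (r i * σ * (r k)⁻¹) * (r k * τ * (r (k + χ τ))⁻¹)`, `k = i + χ σ`, both factors in
`χ = 0`, so `hu`; `act (r i)⁻¹ (act (r i * σ * (r k)⁻¹) x) = act σ (act (r k)⁻¹ x)` by `hm`; the second sum is `act σ (corG τ)` after the reindexing
`i ↦ i + χ σ` (`Fintype.sum_equiv (Equiv.addRight (χ σ))`, `map_sum`). -/
theorem corG_coc {G A : Type*} [Group G] [AddCommGroup A] (act : G → A →+ A)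
    (hm : ∀ σ τ a, act (σ * τ) a = act σ (act τ a)) (χ : G → ZMod 3)
    (hχ : ∀ σ τ, χ (σ * τ) = χ σ + χ τ) (r : ZMod 3 → G) (hr : ∀ i, χ (r i) = i) (u : G → A)
    (h0 : ∀ σ, χ σ ≠ 0 → u σ = 0)
    (hu : ∀ σ, χ σ = 0 → ∀ τ, χ τ = 0 → u (σ * τ) = u σ + act σ (u τ)) (σ τ : G) :
    corG act r u (σ * τ) = corG act r u σ + act σ (corG act r u τ) := by
  rw [corG_eq act χ hχ r hr u h0, corG_eq act χ hχ r hr u h0, corG_eq act χ hχ r hr u h0, map_sum,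
    ← A2_re (fun i => act σ (act (r i)⁻¹ (u (r i * τ * (r (i + χ τ))⁻¹)))) (χ σ), ← Finset.sum_add_distrib]
  refine Finset.sum_congr rfl fun i _ => ?_
  have h1 : r i * (σ * τ) * (r (i + χ (σ * τ)))⁻¹ =
      (r i * σ * (r (i + χ σ))⁻¹) * (r (i + χ σ) * τ * (r (i + χ σ + χ τ))⁻¹) := by
    rw [hχ, ← add_assoc]
    group
  have h2 : χ (r i * σ * (r (i + χ σ))⁻¹) = 0 := by
    rw [A2_chi χ hχ r hr, sub_self]
  have h3 : χ (r (i + χ σ) * τ * (r (i + χ σ + χ τ))⁻¹) = 0 := by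
    rw [A2_chi χ hχ r hr, sub_self]
  rw [h1, hu _ h2 _ h3, map_add, A2_act act hm r]

/-- PROOF. By `corG_eq`: `act (r i)⁻¹ (act (r i * τ * (r k)⁻¹) P - P) = act τ (act (r k)⁻¹ P) - act (r i)⁻¹ P`, `k = i + χ τ`; reindex the first sum. -/
theorem corG_cob {G A : Type*} [Group G] [AddCommGroup A] (act : G → A →+ A)
    (hm : ∀ σ τ a, act (σ * τ) a = act σ (act τ a)) (χ : G → ZMod 3)
    (hχ : ∀ σ τ, χ (σ * τ) = χ σ + χ τ) (r : ZMod 3 → G) (hr : ∀ i, χ (r i) = i) (u : G → A)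
    (h0 : ∀ σ, χ σ ≠ 0 → u σ = 0) (P : A) (hu : ∀ σ, χ σ = 0 → u σ = act σ P - P) (τ : G) :
    corG act r u τ = act τ (∑ i : ZMod 3, act (r i)⁻¹ P) - ∑ i : ZMod 3, act (r i)⁻¹ P := by
  rw [corG_eq act χ hχ r hr u h0, map_sum, ← A2_re (fun i => act τ (act (r i)⁻¹ P)) (χ τ), ← Finset.sum_sub_distrib]
  refine Finset.sum_congr rfl fun i _ => ?_
  have h2 : χ (r i * τ * (r (i + χ τ))⁻¹) = 0 := by
    rw [A2_chi χ hχ r hr, sub_self]
  rw [hu _ h2, map_sub, A2_act act hm r]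

theorem corG_nsmul {G A : Type*} [Group G] [AddCommGroup A] (act : G → A →+ A) (r : ZMod 3 → G)
    (u : G → A) (n : ℕ) (τ : G) : corG act r (n • u) τ = n • corG act r u τ := by
  unfold corG
  rw [Finset.smul_sum]
  refine Finset.sum_congr rfl fun i _ => ?_
  rw [Finset.smul_sum]
  refine Finset.sum_congr rfl fun k _ => ?_
  rw [Pi.smul_apply, map_nsmul]

end Pool.Agent.Lib.MP_1a91b9_ntCS.S
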