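import Pool.Agent.Lib.MP_1a91b9_ntCS.S.D
import Pool.Agent.Lib.MP_1a91b9_ntCS.S.Z

/-!
# CUBIC STABILITY, block S, leaf I1: the automorphism of a cubic extension and the eigenspaces

`L' = L(y)`, `y³ = e ∈ L`, `y` not in `L`, `z ∈ L`, `z² + z + 1 = 0`.
-/

set_option autoImplicit false
set_option linter.unusedSectionVars false

namespace Pool.Agent.Lib.MP_1a91b9_ntCS.S

open WeierstrassCurve NumberField

private theorem I1_z {L : Type} [Field L] [NumberField L] {z : L} (hz : z ^ 2 + z + 1 = 0) :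
    z ≠ 0 ∧ z ≠ 1 ∧ z ^ 2 ≠ 1 ∧ z ^ 3 = 1 := by
  have h3 : (3 : L) ≠ 0 := by norm_num
  refine ⟨?_, ?_, ?_, ?_⟩
  · rintro rfl
    norm_num at hz
  · rintro rfl
    norm_num at hz
  · intro h
    apply h3
    linear_combination (2 - z) * hz + (z - 1) * h
  · linear_combination (z - 1) * hz

private theorem I1_irr {L L' : Type} [Field L] [NumberField L] [Field L'] [NumberField L'] [Algebra L L']
    {z : L} (hz : z ^ 2 + z + 1 = 0) {e : L} {y : L'} (hy : y ^ 3 = algebraMap L L' e)
    (hn : ¬ ∃ z : L, algebraMap L L' z = y) :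
    Irreducible (Polynomial.X ^ 3 - Polynomial.C e : Polynomial L) := by
  refine X_pow_sub_C_irreducible_of_prime Nat.prime_three fun b hb => ?_
  have hzz : algebraMap L L' z ^ 2 + algebraMap L L' z + 1 = 0 := by
    rw [← map_pow, ← map_add, ← map_one (algebraMap L L'), ← map_add, hz, map_zero]
  have h1 : (y - algebraMap L L' b) * (y - algebraMap L L' z * algebraMap L L' b) *
      (y - algebraMap L L' z ^ 2 * algebraMap L L' b) = 0 := by
    have hb' : algebraMap L L' b ^ 3 = y ^ 3 := by rw [hy, ← hb, map_pow]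
    have h3 : algebraMap L L' z ^ 3 = 1 := by linear_combination (algebraMap L L' z - 1) * hzz
    linear_combination (-(algebraMap L L' b) * y ^ 2 + algebraMap L L' z * (algebraMap L L' b) ^ 2 * y) * hzz
      - (algebraMap L L' b) ^ 3 * h3 - hb'
  rcases mul_eq_zero.1 h1 with h2 | h2
  · rcases mul_eq_zero.1 h2 with h3 | h3
    · exact hn ⟨b, (sub_eq_zero.1 h3).symm⟩
    · exact hn ⟨z * b, by rw [map_mul, ← sub_eq_zero.1 h3]⟩
  · exact hn ⟨z ^ 2 * b, by rw [map_mul, map_pow, ← sub_eq_zero.1 h2]⟩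

private theorem I1_li {L L' : Type} [Field L] [NumberField L] [Field L'] [NumberField L'] [Algebra L L']
    {z : L} (hz : z ^ 2 + z + 1 = 0) {e : L} {y : L'} (hy : y ^ 3 = algebraMap L L' e)
    (hn : ¬ ∃ z : L, algebraMap L L' z = y) (a b c : L)
    (h : algebraMap L L' a + algebraMap L L' b * y + algebraMap L L' c * y ^ 2 = 0) :
    a = 0 ∧ b = 0 ∧ c = 0 := by
  have hirr := I1_irr hz hy hn
  have hmon : (Polynomial.X ^ 3 - Polynomial.C e : Polynomial L).Monic :=
    Polynomial.monic_X_pow_sub_C e (by norm_num)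
  have hmin : (Polynomial.X ^ 3 - Polynomial.C e : Polynomial L) = minpoly L y := by
    refine minpoly.eq_of_irreducible_of_monic hirr ?_ hmon
    rw [map_sub, map_pow, Polynomial.aeval_X, Polynomial.aeval_C, hy, sub_self]
  let P : Polynomial L := Polynomial.C a + Polynomial.C b * Polynomial.X + Polynomial.C c * Polynomial.X ^ 2
  have hP : Polynomial.aeval y P = 0 := by
    show Polynomial.aeval y (Polynomial.C a + Polynomial.C b * Polynomial.X + Polynomial.C c * Polynomial.X ^ 2) = 0
    rw [map_add, map_add, map_mul, map_mul, map_pow, Polynomial.aeval_X, Polynomial.aeval_C, Polynomial.aeval_C,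
      Polynomial.aeval_C, h]
  have hdvd : (Polynomial.X ^ 3 - Polynomial.C e : Polynomial L) ∣ P := by
    rw [hmin]
    exact minpoly.dvd L y hP
  have hdeg : P.natDegree < (Polynomial.X ^ 3 - Polynomial.C e : Polynomial L).natDegree := by
    rw [Polynomial.natDegree_X_pow_sub_C]
    refine lt_of_le_of_lt ?_ (by norm_num : 2 < 3)
    show (Polynomial.C a + Polynomial.C b * Polynomial.X + Polynomial.C c * Polynomial.X ^ 2).natDegree ≤ 2
    compute_degree
  have hP0 := Polynomial.eq_zero_of_dvd_of_natDegree_lt hdvd hdeg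
  refine ⟨?_, ?_, ?_⟩
  · have h1 := congrArg (fun p : Polynomial L => p.coeff 0) hP0
    simpa [P, Polynomial.coeff_X, Polynomial.coeff_X_pow] using h1
  · have h1 := congrArg (fun p : Polynomial L => p.coeff 1) hP0
    simpa [P, Polynomial.coeff_X, Polynomial.coeff_X_pow, Polynomial.coeff_C] using h1
  · have h1 := congrArg (fun p : Polynomial L => p.coeff 2) hP0
    simpa [P, Polynomial.coeff_X, Polynomial.coeff_X_pow, Polynomial.coeff_C] using h1

/-- PROOF. As `nn_auto` in MP_1a91b9_ntC/NoNew.lean: `y` has the minimal polynomial `X³ - e` (`finrank_cub`), and `z y` is another root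
(`IntermediateField`/`AdjoinRoot` lift, or `PowerBasis.lift` of the power basis `1, y, y²`). Or directly: `σ (α + β y + γ y²) = α + z β y + z² γ y²` is well defined
by the uniqueness of the coefficients. -/
theorem cub_auto {L L' : Type} [Field L] [NumberField L] [Field L'] [NumberField L'] [Algebra L L']
    {z : L} (hz : z ^ 2 + z + 1 = 0) {e : L} {y : L'} (hy : y ^ 3 = algebraMap L L' e)
    (hn : ¬ ∃ z : L, algebraMap L L' z = y)
    (hg : ∀ z : L', ∃ α β γ : L, z = algebraMap L L' α + algebraMap L L' β * y +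
      algebraMap L L' γ * y ^ 2) : ∃ σ : L' →ₐ[L] L', σ y = algebraMap L L' z * y := by
  let f : Polynomial L := Polynomial.X ^ 3 - Polynomial.C e
  have hfact : Fact (Irreducible f) := ⟨I1_irr hz hy hn⟩
  have hz3 := (I1_z hz).2.2.2
  have h1 : f.eval₂ ((Algebra.ofId L L' : L →ₐ[L] L') : L →+* L') y = 0 := by
    show (Polynomial.X ^ 3 - Polynomial.C e : Polynomial L).eval₂ _ y = 0
    rw [Polynomial.eval₂_sub, Polynomial.eval₂_pow, Polynomial.eval₂_X, Polynomial.eval₂_C, hy]
    exact sub_self _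
  have h2 : f.eval₂ ((Algebra.ofId L L' : L →ₐ[L] L') : L →+* L') (algebraMap L L' z * y) = 0 := by
    show (Polynomial.X ^ 3 - Polynomial.C e : Polynomial L).eval₂ _ (algebraMap L L' z * y) = 0
    rw [Polynomial.eval₂_sub, Polynomial.eval₂_pow, Polynomial.eval₂_X, Polynomial.eval₂_C, mul_pow, ← map_pow,
      hz3, map_one, one_mul, hy]
    exact sub_self _
  let φ : AdjoinRoot f →ₐ[L] L' := AdjoinRoot.liftAlgHom f (Algebra.ofId L L') y h1
  let ψ : AdjoinRoot f →ₐ[L] L' := AdjoinRoot.liftAlgHom f (Algebra.ofId L L') (algebraMap L L' z * y) h2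
  have hφ : φ (AdjoinRoot.root f) = y := AdjoinRoot.liftAlgHom_root f _ y h1
  have hψ : ψ (AdjoinRoot.root f) = algebraMap L L' z * y := AdjoinRoot.liftAlgHom_root f _ _ h2
  have hbij : Function.Bijective φ := by
    refine ⟨(φ : AdjoinRoot f →+* L').injective, fun w => ?_⟩
    obtain ⟨α, β, γ, rfl⟩ := hg w
    refine ⟨algebraMap L (AdjoinRoot f) α + algebraMap L (AdjoinRoot f) β * AdjoinRoot.root f +
      algebraMap L (AdjoinRoot f) γ * AdjoinRoot.root f ^ 2, ?_⟩
    rw [map_add, map_add, map_mul, map_mul, map_pow, AlgHom.commutes, AlgHom.commutes, AlgHom.commutes, hφ]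
  let Φ : AdjoinRoot f ≃ₐ[L] L' := AlgEquiv.ofBijective φ hbij
  refine ⟨ψ.comp (Φ.symm : L' →ₐ[L] AdjoinRoot f), ?_⟩
  have h3 : Φ.symm y = AdjoinRoot.root f := by
    rw [AlgEquiv.symm_apply_eq]
    exact hφ.symm
  show ψ (Φ.symm y) = algebraMap L L' z * y
  rw [h3, hψ]

/-- The eigenspaces of `σ` in `L'`. PROOF. `x = α + β y + γ y²`, `σ x = α + z β y + z² γ y²`; the coefficients are unique (linear independence of
`1, y, y²`, `finrank_cub` and the spanning family, or eliminate: `1 + z + z² = 0`), `z ^ i ≠ z ^ j`. -/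
theorem cub_eig {L L' : Type} [Field L] [NumberField L] [Field L'] [NumberField L'] [Algebra L L']
    {z : L} (hz : z ^ 2 + z + 1 = 0) {e : L} {y : L'} (hy : y ^ 3 = algebraMap L L' e)
    (hn : ¬ ∃ z : L, algebraMap L L' z = y)
    (hg : ∀ z : L', ∃ α β γ : L, z = algebraMap L L' α + algebraMap L L' β * y +
      algebraMap L L' γ * y ^ 2) (σ : L' →ₐ[L] L') (hσ : σ y = algebraMap L L' z * y) (i : ℕ)
    (hi : i < 3) (x : L') (hx : σ x = algebraMap L L' z ^ i * x) :
    ∃ α : L, x = algebraMap L L' α * y ^ i := by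
  obtain ⟨hz0, hz1, hz2, hz3⟩ := I1_z hz
  obtain ⟨α, β, γ, rfl⟩ := hg x
  rw [map_add, map_add, map_mul, map_mul, map_pow, AlgHom.commutes, AlgHom.commutes, AlgHom.commutes, hσ] at hx
  have h1 := I1_li hz hy hn (α - z ^ i * α) (β * z - z ^ i * β) (γ * z ^ 2 - z ^ i * γ) (by
    simp only [map_sub, map_mul, map_pow]
    linear_combination hx)
  obtain ⟨ha, hb, hc⟩ := h1
  have hi' : i = 0 ∨ i = 1 ∨ i = 2 := by omega
  rcases hi' with rfl | rfl | rfl
  · have hb' : β = 0 := by
      have h2 : β * (z - 1) = 0 := by linear_combination hb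
      exact (mul_eq_zero.1 h2).resolve_right (sub_ne_zero.2 hz1)
    have hc' : γ = 0 := by
      have h2 : γ * (z ^ 2 - 1) = 0 := by linear_combination hc
      exact (mul_eq_zero.1 h2).resolve_right (sub_ne_zero.2 hz2)
    exact ⟨α, by rw [hb', hc', map_zero, pow_zero]; ring⟩
  · have ha' : α = 0 := by
      have h2 : α * (1 - z) = 0 := by linear_combination ha
      exact (mul_eq_zero.1 h2).resolve_right (sub_ne_zero.2 (Ne.symm hz1))
    have hc' : γ = 0 := by
      have h2 : γ * (z * (z - 1)) = 0 := by linear_combination hc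
      exact (mul_eq_zero.1 h2).resolve_right (mul_ne_zero hz0 (sub_ne_zero.2 hz1))
    exact ⟨β, by rw [ha', hc', map_zero, pow_one]; ring⟩
  · have ha' : α = 0 := by
      have h2 : α * (1 - z ^ 2) = 0 := by linear_combination ha
      exact (mul_eq_zero.1 h2).resolve_right (sub_ne_zero.2 (Ne.symm hz2))
    have hb' : β = 0 := by
      have h2 : β * (z * (1 - z)) = 0 := by linear_combination hb
      exact (mul_eq_zero.1 h2).resolve_right (mul_ne_zero hz0 (sub_ne_zero.2 (Ne.symm hz1)))
    exact ⟨γ, by rw [ha', hb', map_zero]; ring⟩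

end Pool.Agent.Lib.MP_1a91b9_ntCS.S
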