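import Pool.Agent.Lib.MP_1a91b9_ntC.Sh.Ix
import Pool.Agent.Lib.MP_1a91b9_ntCS.S.I1

/-!
# CUBIC STABILITY, block S, leaf I2: the points of `E` over `L'`, killed by `3 #V_1(L) #V_2(L)` modulo `E(L)`

`L' = L(y)`, `y³ = e ∈ L`, `y` not in `L`; `E : b² + a b = x³`, `V_i` the twists by `e`, `e²`.
-/

set_option autoImplicit false
set_option linter.unusedSectionVars false

namespace Pool.Agent.Lib.MP_1a91b9_ntCS.S

open WeierstrassCurve NumberField

/-- the subgroup generated by the points with coordinates in `L` -/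
def HL {L L' : Type} [Field L] [Field L'] [DecidableEq L'] [Algebra L L'] (W' : WeierstrassCurve L') :
    AddSubgroup W'.toAffine.Point :=
  AddSubgroup.closure {P : W'.toAffine.Point | ∃ (u v : L)
    (h : W'.toAffine.Nonsingular (algebraMap L L' u) (algebraMap L L' v)),
      P = Affine.Point.some _ _ h}

/-- `(x, y)` is mapped to `(z x, y)`. -/
private def I2_m {F : Type} [Field F] (W : WeierstrassCurve F) (w1 : W.a₁ = 0) (w2 : W.a₂ = 0)
    (w4 : W.a₄ = 0) {z : F} (hz : z ^ 2 + z + 1 = 0) : W.toAffine.Point → W.toAffine.Point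
  | Affine.Point.zero => Affine.Point.zero
  | Affine.Point.some x y h => Affine.Point.some (z * x) y (zns W w1 w2 w4 hz h)

private theorem I2_cube {F : Type} [Field F] {z : F} (hz : z ^ 2 + z + 1 = 0) : z ^ 3 = 1 := by
  linear_combination (z - 1) * hz

private theorem I2_ne {F : Type} [Field F] {z : F} (hz : z ^ 2 + z + 1 = 0) : z ≠ 0 := by
  rintro rfl
  norm_num at hz

private theorem I2_slope {F : Type} [Field F] [DecidableEq F] (W : WeierstrassCurve F) (w1 : W.a₁ = 0)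
    (w2 : W.a₂ = 0) (w4 : W.a₄ = 0) {z : F} (hz : z ^ 2 + z + 1 = 0) (x₁ x₂ y₁ y₂ : F) :
    W.toAffine.slope (z * x₁) (z * x₂) y₁ y₂ = z ^ 2 * W.toAffine.slope x₁ x₂ y₁ y₂ := by
  have h0 := I2_ne hz
  have h3 := I2_cube hz
  have w1' : W.toAffine.a₁ = 0 := w1
  have w2' : W.toAffine.a₂ = 0 := w2
  have w4' : W.toAffine.a₄ = 0 := w4
  have hn : ∀ x y : F, W.toAffine.negY x y = -y - W.toAffine.a₃ := by
    intro x y
    rw [Affine.negY, w1', zero_mul, sub_zero]
  unfold Affine.slope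
  rw [hn, hn, hn, hn, w1', w2', w4']
  by_cases h : x₁ = x₂
  · rw [if_pos h, if_pos (by rw [h])]
    split_ifs with h'
    · rw [mul_zero]
    · rw [← mul_div_assoc]
      congr 1
      ring
  · rw [if_neg h, if_neg (fun h' => h (mul_left_cancel₀ h0 h')), ← mul_sub]
    have h4 : x₁ - x₂ ≠ 0 := sub_ne_zero.2 h
    rw [div_eq_iff (mul_ne_zero h0 h4), mul_assoc, mul_comm z, ← mul_assoc (_ / _),
      div_mul_cancel₀ _ h4]
    linear_combination -(y₁ - y₂) * h3

private theorem I2_m_add {F : Type} [Field F] [DecidableEq F] (W : WeierstrassCurve F) (w1 : W.a₁ = 0)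
    (w2 : W.a₂ = 0) (w4 : W.a₄ = 0) {z : F} (hz : z ^ 2 + z + 1 = 0) (P Q : W.toAffine.Point) :
    I2_m W w1 w2 w4 hz (P + Q) = I2_m W w1 w2 w4 hz P + I2_m W w1 w2 w4 hz Q := by
  have h0 := I2_ne hz
  have h3 := I2_cube hz
  have w1' : W.toAffine.a₁ = 0 := w1
  have w2' : W.toAffine.a₂ = 0 := w2
  have w4' : W.toAffine.a₄ = 0 := w4
  have hn : ∀ x y : F, W.toAffine.negY x y = -y - W.toAffine.a₃ := by
    intro x y
    rw [Affine.negY, w1', zero_mul, sub_zero]
  rcases P with _ | ⟨x₁, y₁, h₁⟩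
  · change I2_m W w1 w2 w4 hz (0 + Q) = 0 + I2_m W w1 w2 w4 hz Q
    rw [zero_add, zero_add]
  rcases Q with _ | ⟨x₂, y₂, h₂⟩
  · change I2_m W w1 w2 w4 hz (_ + 0) = _ + 0
    rw [add_zero, add_zero]
  change I2_m W w1 w2 w4 hz (_ + _) = Affine.Point.some (z * x₁) y₁ _ + Affine.Point.some (z * x₂) y₂ _
  by_cases hxy : x₁ = x₂ ∧ y₁ = W.toAffine.negY x₂ y₂
  · rw [Affine.Point.add_of_Y_eq hxy.1 hxy.2, Affine.Point.add_of_Y_eq (by rw [hxy.1])
      (by rw [hxy.2, hn, hn])]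
    rfl
  · have hxy' : ¬ (z * x₁ = z * x₂ ∧ y₁ = W.toAffine.negY (z * x₂) y₂) := by
      rintro ⟨h4, h5⟩
      apply hxy
      rw [hn] at h5 ⊢
      exact ⟨mul_left_cancel₀ h0 h4, h5⟩
    rw [Affine.Point.add_some hxy, Affine.Point.add_some hxy']
    change Affine.Point.some _ _ _ = _
    rw [Affine.Point.some.injEq]
    have hX : W.toAffine.addX (z * x₁) (z * x₂) (W.toAffine.slope (z * x₁) (z * x₂) y₁ y₂) =
        z * W.toAffine.addX x₁ x₂ (W.toAffine.slope x₁ x₂ y₁ y₂) := by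
      rw [I2_slope W w1 w2 w4 hz]
      unfold Affine.addX
      rw [w1', w2']
      linear_combination z * (W.toAffine.slope x₁ x₂ y₁ y₂) ^ 2 * h3
    refine ⟨hX.symm, ?_⟩
    unfold Affine.addY Affine.negAddY
    rw [hX, hn, hn, I2_slope W w1 w2 w4 hz]
    linear_combination (W.toAffine.slope x₁ x₂ y₁ y₂) *
      (W.toAffine.addX x₁ x₂ (W.toAffine.slope x₁ x₂ y₁ y₂) - x₁) * h3

private def I2_M {F : Type} [Field F] [DecidableEq F] (W : WeierstrassCurve F) (w1 : W.a₁ = 0)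
    (w2 : W.a₂ = 0) (w4 : W.a₄ = 0) {z : F} (hz : z ^ 2 + z + 1 = 0) :
    W.toAffine.Point →+ W.toAffine.Point where
  toFun := I2_m W w1 w2 w4 hz
  map_zero' := rfl
  map_add' := I2_m_add W w1 w2 w4 hz

private theorem I2_M_some {F : Type} [Field F] [DecidableEq F] (W : WeierstrassCurve F) (w1 : W.a₁ = 0)
    (w2 : W.a₂ = 0) (w4 : W.a₄ = 0) {z : F} (hz : z ^ 2 + z + 1 = 0) (x y : F)
    (h : W.toAffine.Nonsingular x y) : I2_M W w1 w2 w4 hz (Affine.Point.some x y h) =
      Affine.Point.some (z * x) y (zns W w1 w2 w4 hz h) := rfl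

private theorem I2_kill {L L' : Type} [Field L] [NumberField L] [Field L'] [NumberField L']
    [DecidableEq L] [DecidableEq L'] [Algebra L L'] {a : L} (ha : a ≠ 0) {e z : L} (he : e ≠ 0)
    (hz : (algebraMap L L' z) ^ 2 + (algebraMap L L' z) + 1 = 0) {w : L'} (hw : w ^ 3 = algebraMap L L' e)
    (σ : L' →ₐ[L] L') (hσ : σ w = algebraMap L L' z * w)
    (heig : ∀ x : L', σ x = algebraMap L L' z * x → ∃ α : L, x = algebraMap L L' α * w)
    (hfix : ∀ x : L', σ x = x → ∃ α : L, x = algebraMap L L' α)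
    {W : WeierstrassCurve L} (hW : W = ⟨0, 0, a, 0, 0⟩) (w1 : (W.baseChange L').a₁ = 0)
    (w2 : (W.baseChange L').a₂ = 0) (w4 : (W.baseChange L').a₄ = 0)
    (Q : (W.baseChange L').toAffine.Point)
    (hQ : (Affine.Point.map (W' := W) σ : (W.baseChange L').toAffine.Point →+
      (W.baseChange L').toAffine.Point) Q = I2_M (W.baseChange L') w1 w2 w4 hz Q) :
    Nat.card (⟨0, 0, e * a, 0, 0⟩ : WeierstrassCurve L).toAffine.Point • Q = 0 := by
  obtain ⟨V, hVe⟩ : ∃ V : WeierstrassCurve L, V = ⟨0, 0, e * a, 0, 0⟩ := ⟨_, rfl⟩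
  rw [← hVe]
  have hw0 : w ≠ 0 := by
    rintro rfl
    rw [zero_pow three_ne_zero] at hw
    exact he ((map_eq_zero (algebraMap L L')).1 hw.symm)
  have hWΔ : W.Δ ≠ 0 := by
    have h4 : W.Δ = -27 * a ^ 4 := by
      rw [hW]
      simp only [WeierstrassCurve.Δ, WeierstrassCurve.b₂, WeierstrassCurve.b₄,
        WeierstrassCurve.b₆, WeierstrassCurve.b₈]
      ring
    rw [h4]
    exact mul_ne_zero (by norm_num) (pow_ne_zero _ ha)
  have hVΔ : V.Δ ≠ 0 := by
    have h4 : V.Δ = -27 * (e * a) ^ 4 := by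
      rw [hVe]
      simp only [WeierstrassCurve.Δ, WeierstrassCurve.b₂, WeierstrassCurve.b₄,
        WeierstrassCurve.b₆, WeierstrassCurve.b₈]
      ring
    rw [h4]
    exact mul_ne_zero (by norm_num) (pow_ne_zero _ (mul_ne_zero he ha))
  have hWΔ' : (W.baseChange L').Δ ≠ 0 := by
    change (W.map (algebraMap L L')).Δ ≠ 0
    rw [WeierstrassCurve.map_Δ]
    exact (_root_.map_ne_zero _).2 hWΔ
  have ha1 : (W.baseChange L').toAffine.a₁ = 0 := w1
  have ha2 : (W.baseChange L').toAffine.a₂ = 0 := w2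
  have ha4 : (W.baseChange L').toAffine.a₄ = 0 := w4
  have ha3 : (W.baseChange L').toAffine.a₃ = algebraMap L L' a := by
    change algebraMap L L' W.a₃ = _
    rw [hW]
  have ha6 : (W.baseChange L').toAffine.a₆ = 0 := by
    change algebraMap L L' W.a₆ = 0
    rw [hW, map_zero]
  have hnsW : ∀ x z : L', (W.baseChange L').toAffine.Nonsingular x z ↔
      z ^ 2 + algebraMap L L' a * z = x ^ 3 := by
    intro x z
    rw [← Affine.equation_iff_nonsingular_of_Δ_ne_zero hWΔ', Affine.equation_iff, ha1, ha3, ha6,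
      ha2, ha4]
    simp only [zero_mul, add_zero]
  have hnsV : ∀ x z : L, V.toAffine.Nonsingular x z ↔ z ^ 2 + e * a * z = x ^ 3 := by
    intro x z
    have v1 : V.toAffine.a₁ = 0 := by rw [hVe]
    have v2 : V.toAffine.a₂ = 0 := by rw [hVe]
    have v3 : V.toAffine.a₃ = e * a := by rw [hVe]
    have v4 : V.toAffine.a₄ = 0 := by rw [hVe]
    have v6 : V.toAffine.a₆ = 0 := by rw [hVe]
    rw [← Affine.equation_iff_nonsingular_of_Δ_ne_zero hVΔ, Affine.equation_iff, v1, v3, v6,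
      v2, v4]
    simp only [zero_mul, add_zero]
  let S : (W.baseChange L').toAffine.Point →+ (W.baseChange L').toAffine.Point :=
    Affine.Point.map (W' := W) σ
  have hS : ∀ x y h, ∃ h', S (Affine.Point.some x y h) = Affine.Point.some (σ x) (σ y) h' :=
    fun x y h => ⟨_, rfl⟩
  let Am : AddSubgroup (W.baseChange L').toAffine.Point :=
    (S - I2_M (W.baseChange L') w1 w2 w4 hz).ker
  have hAm : ∀ Q, Q ∈ Am ↔ S Q = I2_M (W.baseChange L') w1 w2 w4 hz Q := by
    intro Q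
    rw [AddMonoidHom.mem_ker]
    show S Q - _ = 0 ↔ _
    exact sub_eq_zero
  have hAmc : ∀ x b h, Affine.Point.some x b h ∈ Am →
      ∃ α c : L, x = algebraMap L L' α * w ∧ b = algebraMap L L' c ∧
        c ^ 2 + a * c = α ^ 3 * e := by
    intro x b h hQ
    rw [hAm] at hQ
    obtain ⟨h', e'⟩ := hS x b h
    rw [e', I2_M_some, Affine.Point.some.injEq] at hQ
    obtain ⟨α, hα⟩ := heig x hQ.1
    obtain ⟨c, hc⟩ := hfix b hQ.2
    refine ⟨α, c, hα, hc, ?_⟩
    apply (algebraMap L L').injective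
    have h4 := (hnsW _ _).1 h
    rw [hα, hc] at h4
    rw [map_add, map_mul, map_mul, map_pow, map_pow, ← hw]
    linear_combination h4
  have key : ∀ Q : Am, ∃ R : V.toAffine.Point,
      (Q.1 = 0 ∧ R = 0) ∨ ∃ (α c : L) (h : _) (h' : _),
        Q.1 = Affine.Point.some (algebraMap L L' α * w) (algebraMap L L' c) h ∧
          R = Affine.Point.some (e * α) (e * c) h' := by
    rintro ⟨Q, hQ⟩
    rcases Q with _ | ⟨x, b, h⟩
    · exact ⟨0, Or.inl ⟨rfl, rfl⟩⟩
    · obtain ⟨α, c, rfl, rfl, h4⟩ := hAmc x b h hQ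
      have h5 : V.toAffine.Nonsingular (e * α) (e * c) := by
        rw [hnsV]
        linear_combination e ^ 2 * h4
      exact ⟨Affine.Point.some _ _ h5, Or.inr ⟨α, c, h, h5, rfl, rfl⟩⟩
  choose f hf using key
  have hfinj : Function.Injective f := by
    intro Q Q' hQQ
    apply Subtype.ext
    rcases hf Q with ⟨h4, h5⟩ | ⟨x, c, h, h', h4, h5⟩
    · rcases hf Q' with ⟨h4', h5'⟩ | ⟨x', c', g, g', h4', h5'⟩
      · rw [h4, h4']
      · rw [h5, h5'] at hQQ
        cases hQQ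
    · rcases hf Q' with ⟨h4', h5'⟩ | ⟨x', c', g, g', h4', h5'⟩
      · rw [h5, h5'] at hQQ
        cases hQQ
      · rw [h5, h5', Affine.Point.some.injEq] at hQQ
        have h6 : x = x' := mul_left_cancel₀ he hQQ.1
        have h7 : c = c' := mul_left_cancel₀ he hQQ.2
        rw [h4, h4', Affine.Point.some.injEq, h6, h7]
        exact ⟨rfl, rfl⟩
  have hfsur : Function.Surjective f := by
    intro R
    rcases R with _ | ⟨x, b, h⟩
    · refine ⟨0, ?_⟩
      rcases hf 0 with ⟨h4, h5⟩ | ⟨x', c', g, g', h4', h5'⟩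
      · exact h5
      · cases h4'
    · have h0 := (hnsV _ _).1 h
      have h1 : (W.baseChange L').toAffine.Nonsingular (algebraMap L L' (e⁻¹ * x) * w)
          (algebraMap L L' (e⁻¹ * b)) := by
        rw [hnsW]
        have h2 : (e⁻¹ * b) ^ 2 + a * (e⁻¹ * b) = (e⁻¹ * x) ^ 3 * e := by
          field_simp
          linear_combination h0
        have h3 := congrArg (algebraMap L L') h2
        rw [map_add, map_mul, map_mul _ _ e, map_pow, map_pow, ← hw] at h3
        linear_combination h3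
      have h2 : Affine.Point.some _ _ h1 ∈ Am := by
        rw [hAm]
        obtain ⟨h', e'⟩ := hS _ _ h1
        rw [e', I2_M_some, Affine.Point.some.injEq]
        refine ⟨?_, AlgHom.commutes _ _⟩
        rw [_root_.map_mul σ, AlgHom.commutes, hσ]
        ring
      refine ⟨⟨_, h2⟩, ?_⟩
      rcases hf ⟨_, h2⟩ with ⟨h4, h5⟩ | ⟨x', c', g, g', h4', h5'⟩
      · cases h4
      · rw [h5', Affine.Point.some.injEq]
        rw [Affine.Point.some.injEq] at h4'
        have h6 : e⁻¹ * x = x' :=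
          (algebraMap L L').injective (mul_right_cancel₀ hw0 h4'.1)
        have h7 : e⁻¹ * b = c' := (algebraMap L L').injective h4'.2
        rw [← h6, ← h7, mul_inv_cancel_left₀ he, mul_inv_cancel_left₀ he]
        exact ⟨rfl, rfl⟩
  have hcard : Nat.card Am = Nat.card V.toAffine.Point := Nat.card_eq_of_bijective f ⟨hfinj, hfsur⟩
  have h3 : Nat.card Am • (⟨Q, (hAm Q).2 hQ⟩ : Am) = 0 := card_nsmul_eq_zero'
  rw [hcard] at h3
  exact congrArg Subtype.val h3

/-- For `P` in `E(L')`: `3 #V_1(L) #V_2(L) P` is in `E(L)`.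

PROOF. ADAPTATION of `idx_coprime` in MP_1a91b9_ntC/Sh/Ix.lean. `σ` from `cub_auto`, `S = Affine.Point.map σ` (an additive map of `E(L')`, `S (S (S Q)) = Q`), and
`M : E(L') →+ E(L')`, `M (x, y) = (z x, y)` (the transport by the automorphism; it is an additive map: `WeierstrassCurve` variable change `⟨z ^ 2, 0, 0, 0⟩`, `tr`-like
map in MP_1a91b9_nuT (exists_tr), or prove directly that `M` is additive from the formulas; `M` commutes with `S`; `Q + M Q + M (M Q) = 0` by `zsum`).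
`N0 = P + S P + S² P`, `N1 = P + M²S P + M S² P`, `N2 = P + M S P + M²S² P`: the sum is `3 P` (coefficient of `S P`: `1 + M² + M = 0`). `S N0 = N0`,
`S N1 = M N1`, `S N2 = M² N2` (check). `N0` has coordinates in `L` (`cub_eig` with `i = 0`; or it is `0`), so it is in `HL`. For `i = 1, 2` the group `A_i = {Q | S Q = M ^ i Q}`
is in bijection with `V_i(L)`: `Q = (x, b)`, `σ b = b`, `σ x = z ^ i x`, so `b ∈ L`, `x = α y ^ i` (`cub_eig`), and `(e ^ i α, e ^ i b)` is on `V_i` for `i = 1`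
(`(e b)² + a e (e b) = e² x³ = (e α)³`), for `i = 2`: `(e² α, e² b)`: `e⁴ (b² + a b) = e⁴ α³ y⁶ = (e² α)³`. So `#A_i = #V_i(L)` kills `N_i` (`card_nsmul_eq_zero'`). -/
theorem kill3 {L L' : Type} [Field L] [NumberField L] [Field L'] [NumberField L']
    [DecidableEq L] [DecidableEq L'] [Algebra L L'] {a : L} (ha : a ≠ 0) {e z : L} (he : e ≠ 0)
    (hz : z ^ 2 + z + 1 = 0) {y : L'} (hy : y ^ 3 = algebraMap L L' e)
    (hn : ¬ ∃ z : L, algebraMap L L' z = y)
    (hg : ∀ z : L', ∃ α β γ : L, z = algebraMap L L' α + algebraMap L L' β * y +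
      algebraMap L L' γ * y ^ 2)
    (hV1 : Finite (⟨0, 0, e * a, 0, 0⟩ : WeierstrassCurve L).toAffine.Point)
    (hV2 : Finite (⟨0, 0, e ^ 2 * a, 0, 0⟩ : WeierstrassCurve L).toAffine.Point)
    (P : ((⟨0, 0, a, 0, 0⟩ : WeierstrassCurve L).baseChange L').toAffine.Point) :
    (3 * (Nat.card (⟨0, 0, e * a, 0, 0⟩ : WeierstrassCurve L).toAffine.Point *
      Nat.card (⟨0, 0, e ^ 2 * a, 0, 0⟩ : WeierstrassCurve L).toAffine.Point)) • P ∈
      HL (L := L) ((⟨0, 0, a, 0, 0⟩ : WeierstrassCurve L).baseChange L') := by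
  obtain ⟨W, hW⟩ : ∃ W : WeierstrassCurve L, W = ⟨0, 0, a, 0, 0⟩ := ⟨_, rfl⟩
  revert P
  rw [← hW]
  intro P
  have w1 : (W.baseChange L').a₁ = 0 := by
    change algebraMap L L' W.a₁ = 0
    rw [hW, map_zero]
  have w2 : (W.baseChange L').a₂ = 0 := by
    change algebraMap L L' W.a₂ = 0
    rw [hW, map_zero]
  have w4 : (W.baseChange L').a₄ = 0 := by
    change algebraMap L L' W.a₄ = 0
    rw [hW, map_zero]
  obtain ⟨σ, hσ⟩ := cub_auto hz hy hn hg
  obtain ⟨ζ, hζe⟩ : ∃ ζ : L', ζ = algebraMap L L' z := ⟨_, rfl⟩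
  have hζ : ζ ^ 2 + ζ + 1 = 0 := by
    rw [hζe, ← map_pow, ← map_add, ← map_one (algebraMap L L'), ← map_add, hz, map_zero]
  have hζσ : σ ζ = ζ := by rw [hζe, AlgHom.commutes]
  have hζ3 : ζ ^ 3 = 1 := I2_cube hζ
  have hσσ : ∀ x, σ (σ (σ x)) = x := by
    intro x
    obtain ⟨α, β, γ, rfl⟩ := hg x
    simp only [map_add, map_mul, map_pow, AlgHom.commutes, hσ, ← hζe, hζσ]
    linear_combination (algebraMap L L' β * y + algebraMap L L' γ * y ^ 2 * (ζ ^ 3 + 1)) * hζ3
  have hfix : ∀ x : L', σ x = x → ∃ α : L, x = algebraMap L L' α := by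
    intro x hx
    obtain ⟨α, hα⟩ := cub_eig hz hy hn hg σ hσ 0 (by norm_num) x (by rw [hx, pow_zero, one_mul])
    exact ⟨α, by rw [hα, pow_zero, mul_one]⟩
  let S : (W.baseChange L').toAffine.Point →+ (W.baseChange L').toAffine.Point :=
    Affine.Point.map (W' := W) σ
  have hS : ∀ x y h, ∃ h', S (Affine.Point.some x y h) = Affine.Point.some (σ x) (σ y) h' :=
    fun x y h => ⟨_, rfl⟩
  have hSSS : ∀ Q, S (S (S Q)) = Q := by
    rintro (_ | ⟨x, y, h⟩)
    · rfl
    · obtain ⟨h', e⟩ := hS x y h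
      obtain ⟨h'', e'⟩ := hS _ _ h'
      obtain ⟨k3, e''⟩ := hS _ _ h''
      rw [e, e', e'', Affine.Point.some.injEq]
      exact ⟨hσσ x, hσσ y⟩
  let M : (W.baseChange L').toAffine.Point →+ (W.baseChange L').toAffine.Point :=
    I2_M (W.baseChange L') w1 w2 w4 hζ
  have hM : ∀ x y h, ∃ h', M (Affine.Point.some x y h) = Affine.Point.some (ζ * x) y h' :=
    fun x y h => ⟨_, rfl⟩
  have hMS : ∀ Q, S (M Q) = M (S Q) := by
    rintro (_ | ⟨x, y, h⟩)
    · rfl
    · obtain ⟨h', e⟩ := hM x y h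
      obtain ⟨h'', e'⟩ := hS _ _ h'
      obtain ⟨k, f⟩ := hS x y h
      obtain ⟨k', f'⟩ := hM _ _ k
      rw [e, e', f, f', Affine.Point.some.injEq, map_mul, hζσ]
      exact ⟨rfl, rfl⟩
  have hMMM : ∀ Q, M (M (M Q)) = Q := by
    rintro (_ | ⟨x, y, h⟩)
    · rfl
    · obtain ⟨h', e⟩ := hM x y h
      obtain ⟨h'', e'⟩ := hM _ _ h'
      obtain ⟨k3, e''⟩ := hM _ _ h''
      rw [e, e', e'', Affine.Point.some.injEq]
      exact ⟨by linear_combination x * hζ3, rfl⟩
  have hsum : ∀ Q, Q + M Q + M (M Q) = 0 := by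
    rintro (_ | ⟨x, y, h⟩)
    · change (0 : (W.baseChange L').toAffine.Point) + M 0 + M (M 0) = 0
      rw [map_zero, map_zero, add_zero, add_zero]
    · obtain ⟨h', e⟩ := hM x y h
      obtain ⟨h'', e'⟩ := hM _ _ h'
      have h2 : (W.baseChange L').toAffine.Nonsingular (ζ ^ 2 * x) y := by
        rw [pow_two, mul_assoc]
        exact h''
      have h3 : Affine.Point.some (ζ * (ζ * x)) y h'' = Affine.Point.some (ζ ^ 2 * x) y h2 := by
        rw [Affine.Point.some.injEq, pow_two, mul_assoc]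
        exact ⟨rfl, rfl⟩
      rw [e, e', h3]
      exact zsum three_ne_zero (W.baseChange L') w1 w2 w4 hζ h h' h2
  have hSfix : ∀ Q, S Q = Q → Q ∈ HL (L := L) (W.baseChange L') := by
    rintro (_ | ⟨x, y, h⟩) hQ
    · exact AddSubgroup.zero_mem _
    · obtain ⟨h', e⟩ := hS x y h
      rw [e, Affine.Point.some.injEq] at hQ
      obtain ⟨a, rfl⟩ := hfix x hQ.1
      obtain ⟨b, rfl⟩ := hfix y hQ.2
      exact AddSubgroup.subset_closure ⟨a, b, h, rfl⟩
  -- the components
  have h0 : P + S P + S (S P) ∈ HL (L := L) (W.baseChange L') := by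
    apply hSfix
    rw [map_add, map_add, hSSS]
    abel
  have h1 : Nat.card (⟨0, 0, e * a, 0, 0⟩ : WeierstrassCurve L).toAffine.Point •
      (P + M (M (S P)) + M (S (S P))) = 0 := by
    have hz' : (algebraMap L L' z) ^ 2 + (algebraMap L L' z) + 1 = 0 := by rw [← hζe]; exact hζ
    refine I2_kill ha he hz' hy σ hσ ?_ hfix hW w1 w2 w4 _ ?_
    · intro x hx
      obtain ⟨α, hα⟩ := cub_eig hz hy hn hg σ hσ 1 (by norm_num) x (by rw [hx, pow_one])
      exact ⟨α, by rw [hα, pow_one]⟩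
    · have hMz : I2_M (W.baseChange L') w1 w2 w4 hz' = M := by
        subst hζe
        rfl
      rw [hMz]
      change S (P + M (M (S P)) + M (S (S P))) = M (P + M (M (S P)) + M (S (S P)))
      simp only [map_add, hMS, hSSS, hMMM]
      abel
  have h2 : Nat.card (⟨0, 0, e ^ 2 * a, 0, 0⟩ : WeierstrassCurve L).toAffine.Point •
      (P + M (S P) + M (M (S (S P)))) = 0 := by
    have hz2 : (algebraMap L L' (z ^ 2)) ^ 2 + (algebraMap L L' (z ^ 2)) + 1 = 0 := by
      rw [map_pow, ← hζe]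
      linear_combination ζ * hζ3 + hζ
    have hy2 : (y ^ 2) ^ 3 = algebraMap L L' (e ^ 2) := by
      rw [map_pow, ← hy]
      ring
    have hσ2 : σ (y ^ 2) = algebraMap L L' (z ^ 2) * y ^ 2 := by
      rw [map_pow, hσ, map_pow]
      ring
    refine I2_kill ha (pow_ne_zero 2 he) hz2 hy2 σ hσ2 ?_ hfix hW w1 w2 w4 _ ?_
    · intro x hx
      exact cub_eig hz hy hn hg σ hσ 2 (by norm_num) x (by rw [hx, map_pow])
    · have hMz : ∀ Q, I2_M (W.baseChange L') w1 w2 w4 hz2 Q = M (M Q) := by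
        rintro (_ | ⟨x, y, h⟩)
        · rfl
        · obtain ⟨h', e⟩ := hM x y h
          obtain ⟨h'', e'⟩ := hM _ _ h'
          rw [e, e', I2_M_some, Affine.Point.some.injEq]
          refine ⟨?_, rfl⟩
          rw [map_pow, ← hζe]
          ring
      rw [hMz]
      change S (P + M (S P) + M (M (S (S P)))) = M (M (P + M (S P) + M (M (S (S P)))))
      simp only [map_add, hMS, hSSS, hMMM]
      abel
  have h3 : (3 : ℕ) • P = (P + S P + S (S P)) + (P + M (M (S P)) + M (S (S P))) +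
      (P + M (S P) + M (M (S (S P)))) := by
    have h4 := hsum (S P)
    have h5 := hsum (S (S P))
    have h6 : (P + S P + S (S P)) + (P + M (M (S P)) + M (S (S P))) +
      (P + M (S P) + M (M (S (S P)))) = (3 : ℕ) • P + (S P + M (S P) + M (M (S P))) +
        (S (S P) + M (S (S P)) + M (M (S (S P)))) := by
      abel
    rw [h6, h4, h5, add_zero, add_zero]
  have h7 : (3 * (Nat.card (⟨0, 0, e * a, 0, 0⟩ : WeierstrassCurve L).toAffine.Point *
      Nat.card (⟨0, 0, e ^ 2 * a, 0, 0⟩ : WeierstrassCurve L).toAffine.Point)) • P =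
      (Nat.card (⟨0, 0, e * a, 0, 0⟩ : WeierstrassCurve L).toAffine.Point *
      Nat.card (⟨0, 0, e ^ 2 * a, 0, 0⟩ : WeierstrassCurve L).toAffine.Point) •
        (P + S P + S (S P)) := by
    rw [mul_comm 3, mul_smul, h3, smul_add, smul_add, mul_comm (Nat.card _), mul_smul _ _
      (P + M (M (S P)) + M (S (S P))), h1, smul_zero, add_zero, mul_comm (Nat.card _),
      mul_smul _ _ (P + M (S P) + M (M (S (S P)))), h2, smul_zero, add_zero]
  rw [h7]
  exact AddSubgroup.nsmul_mem _ h0 _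

end Pool.Agent.Lib.MP_1a91b9_ntCS.S
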