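import Pool.Agent.Lib.MP_1a91b9_ntC.Sh.K

/-!
# CUBIC STABILITY, block S, leaf K1: the completions of a cubic extension
-/

set_option autoImplicit false
set_option linter.unusedSectionVars false

namespace Pool.Agent.Lib.MP_1a91b9_ntCS.S

open WeierstrassCurve Pool.Agent.Lib.MP_1a91b9_nuT.S9 NumberField IsDedekindDomain
open Pool.Agent.Lib.MP_1a91b9_nuT.CT Pool.Agent.Lib.MP_1a91b9_nuT.S5 Pool.Agent.Lib.MP_1a91b9_ntC.Sh
open scoped Classical

private theorem k1_over {N A : Type} [Field N] [NumberField N] [Field A] [NumberField A]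
    [Algebra N A] (w : HeightOneSpectrum (𝓞 A)) : w.asIdeal.LiesOver (below N w).asIdeal :=
  ⟨rfl⟩

private theorem k1_cont (N : Type) {A : Type} [Field N] [NumberField N] [Field A]
    [NumberField A] [Algebra N A] (w : HeightOneSpectrum (𝓞 A)) :
    Continuous (algebraMap (WithVal ((below N w).valuation N)) (WithVal (w.valuation A))) := by
  have := k1_over (N := N) w
  exact (HeightOneSpectrum.uniformContinuous_algebraMap_liesOver N A (below N w) w).continuous

open HeightOneSpectrum in
/-- The map between the completions, with its continuity. -/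
private theorem k1_contMap (N : Type) {A : Type} [Field N] [NumberField N] [Field A]
    [NumberField A] [Algebra N A] (w : HeightOneSpectrum (𝓞 A)) :
    ∃ φ : (below N w).adicCompletion N →+* w.adicCompletion A, Continuous φ ∧
      ∀ x : N, φ (algebraMap N _ x) = algebraMap A _ (algebraMap N A x) := by
  have hc := k1_cont N w
  let ψ := UniformSpace.Completion.mapRingHom _ hc
  let φ : (below N w).adicCompletion N →+* w.adicCompletion A :=
    (adicCompletion.equiv A w).symm.toRingHom.comp
      (ψ.comp (adicCompletion.equiv N (below N w)).toRingHom)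
  have hφ : ∀ x, φ x = adicCompletion.ofCompletion (ψ x.toCompletion) := fun x => rfl
  have hφc : Continuous φ := by
    have h1 : Continuous ψ := UniformSpace.Completion.continuous_map
    exact (adicCompletion.continuous_ofCompletion A w).comp
      (h1.comp (adicCompletion.continuous_toCompletion N (below N w)))
  refine ⟨φ, hφc, ?_⟩
  intro x
  rw [hφ]
  apply adicCompletion.ext
  exact UniformSpace.Completion.mapRingHom_coe hc _

variable [Pool.Agent.Lib.MP_1a91b9_nuT.CD]

open scoped Valued in
/-- The completion of `A = N(x₀)` is generated by `x₀` over the completion of `N`, and is algebraic over it.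

PROOF. Copy of `exists_compL` in MP_1a91b9_ntC/Sh/K.lean (copy its private lemmas `k_over`, `k_cont`, `exists_contMap` too, renamed), with the linear map
`Φ (α, β, γ) = φ α + φ β * y₀ + φ γ * y₀ ^ 2` from the product of three copies of the completion of `N` (`LinearMap.coprod` twice). -/
theorem exists_compL3 {N A : Type} [Field N] [NumberField N] [Field A] [NumberField A]
    [Algebra N A] (w : HeightOneSpectrum (𝓞 A)) {x₀ : A}
    (hx : ∀ z : A, ∃ α β γ : N, z = algebraMap N A α + algebraMap N A β * x₀ +
      algebraMap N A γ * x₀ ^ 2) :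
    ∃ φ : (below N w).adicCompletion N →+* w.adicCompletion A,
      (∀ x : N, φ (algebraMap N _ x) = algebraMap A _ (algebraMap N A x)) ∧
      (∀ z : w.adicCompletion A, ∃ α β γ : (below N w).adicCompletion N,
        z = φ α + φ β * algebraMap A _ x₀ + φ γ * algebraMap A _ x₀ ^ 2) ∧
      ∀ z : w.adicCompletion A, φ.IsIntegralElem z := by
  obtain ⟨φ, hφc, hφ⟩ := k1_contMap N w
  let _ : Algebra ((below N w).adicCompletion N) (w.adicCompletion A) := φ.toAlgebra
  have hcs : ContinuousSMul ((below N w).adicCompletion N) (w.adicCompletion A) :=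
    ⟨(hφc.comp continuous_fst).mul continuous_snd⟩
  let y₀ : w.adicCompletion A := algebraMap A _ x₀
  let Φ : ((((below N w).adicCompletion N) × ((below N w).adicCompletion N)) ×
      ((below N w).adicCompletion N)) →ₗ[(below N w).adicCompletion N] w.adicCompletion A :=
    LinearMap.coprod (LinearMap.coprod (LinearMap.toSpanSingleton _ _ 1)
      (LinearMap.toSpanSingleton _ _ y₀)) (LinearMap.toSpanSingleton _ _ (y₀ ^ 2))
  have h1 : ∀ p, Φ p = φ p.1.1 + φ p.1.2 * y₀ + φ p.2 * y₀ ^ 2 := by
    intro p
    change p.1.1 • (1 : w.adicCompletion A) + p.1.2 • y₀ + p.2 • y₀ ^ 2 = _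
    rw [Algebra.smul_def, Algebra.smul_def, Algebra.smul_def, mul_one]
    rfl
  have hd : DenseRange Φ := by
    apply (HeightOneSpectrum.denseRange_algebraMap A w).mono
    rintro _ ⟨l, rfl⟩
    obtain ⟨α, β, γ, h⟩ := hx l
    refine ⟨((algebraMap N _ α, algebraMap N _ β), algebraMap N _ γ), ?_⟩
    rw [h1, hφ, hφ, hφ, h, map_add, map_add, map_mul, map_mul, map_pow]
  have hs : Function.Surjective Φ := by
    rw [← Set.range_eq_univ, ← Φ.coe_range, ← Φ.range.closed_of_finiteDimensional.closure_eq]
    exact hd.closure_range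
  have hfin : Module.Finite ((below N w).adicCompletion N) (w.adicCompletion A) :=
    Module.Finite.of_surjective Φ hs
  refine ⟨φ, hφ, fun z => ?_, fun z => ?_⟩
  · obtain ⟨p, hp⟩ := hs z
    exact ⟨p.1.1, p.1.2, p.2, by rw [← hp, h1]⟩
  · exact IsIntegral.of_finite ((below N w).adicCompletion N) z

end Pool.Agent.Lib.MP_1a91b9_ntCS.S
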