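import Pool.Agent.Lib.MP_1a91b9_ntC.Sh.U
import Pool.Agent.Lib.MP_1a91b9_ntCS.S.X
import Pool.Agent.Lib.MP_1a91b9_ntCS.S.A2

/-!
# CUBIC STABILITY, block S, leaf U1: the corestriction of a cocycle from a cubic extension

`k' = k(x₀)`, `x₀³ = e ∈ k`; `W` over `k` is isomorphic to `W'` over `k'`. ADAPTATION of MP_1a91b9_ntC/Sh/U.lean (quadratic case; `stH`, `resG_mem`,
`resG_inj`, `stH_isOpen` are used as they are).
-/

set_option autoImplicit false
set_option linter.unusedSectionVars false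

namespace Pool.Agent.Lib.MP_1a91b9_ntCS.S

open WeierstrassCurve Pool.Agent.Lib.MP_1a91b9_nuT.S9
open Pool.Agent.Lib.MP_1a91b9_nuT.CT Pool.Agent.Lib.MP_1a91b9_ntC.Sh
open scoped Classical

variable [Pool.Agent.Lib.MP_1a91b9_nuT.CD]

variable {k k' : Type} [Field k] [Field k'] [CharZero k] [CharZero k'] [Algebra k k']
  [Algebra.IsAlgebraic k k']

/-- the cube root in the closure of `k` -/
noncomputable def wx (j : AlgebraicClosure k ≃ₐ[k] AlgebraicClosure k') (x₀ : k') : AlgebraicClosure k :=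
  j.symm (algebraMap k' (AlgebraicClosure k') x₀)

/-- The transport of the points by `ρ⁻¹`, through `W`. -/
noncomputable def cj {W : WeierstrassCurve k} {W' : WeierstrassCurve k'} {C : VariableChange k'}
    (hC : C • W.baseChange k' = W') (j : AlgebraicClosure k ≃ₐ[k] AlgebraicClosure k') (ρ : Gal k) :
    Pts W' (AlgebraicClosure k') →+ Pts W' (AlgebraicClosure k') :=
  ((tr hC (AlgebraicClosure k')).symm.toAddMonoidHom.comp
    (Affine.Point.map (((j.symm.trans (ρ⁻¹ : Gal k)).trans j :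
      AlgebraicClosure k' ≃ₐ[k] AlgebraicClosure k') :
        AlgebraicClosure k' →ₐ[k] AlgebraicClosure k'))).comp
    (tr hC (AlgebraicClosure k')).toAddMonoidHom

theorem cj_apply {W : WeierstrassCurve k} {W' : WeierstrassCurve k'} {C : VariableChange k'}
    (hC : C • W.baseChange k' = W') (j : AlgebraicClosure k ≃ₐ[k] AlgebraicClosure k') (ρ : Gal k)
    (P : Pts W' (AlgebraicClosure k')) : cj hC j ρ P = (tr hC (AlgebraicClosure k')).symm
      (Affine.Point.map (((j.symm.trans (ρ⁻¹ : Gal k)).trans j :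
        AlgebraicClosure k' ≃ₐ[k] AlgebraicClosure k') :
          AlgebraicClosure k' →ₐ[k] AlgebraicClosure k')
        (tr hC (AlgebraicClosure k') P)) := rfl

/-- PROOF. `map_pow`, `AlgEquiv.commutes`. -/
theorem wx_pow (j : AlgebraicClosure k ≃ₐ[k] AlgebraicClosure k') {x₀ : k'} {e : k}
    (hx : x₀ ^ 3 = algebraMap k k' e) : wx j x₀ ^ 3 = algebraMap k (AlgebraicClosure k) e := by
  rw [wx, ← map_pow, ← map_pow, hx, ← IsScalarTower.algebraMap_apply, AlgEquiv.commutes]

theorem mem_stH (j : AlgebraicClosure k ≃ₐ[k] AlgebraicClosure k') {x₀ : k'} {z : k} (τ : Gal k) :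
    τ ∈ stH j x₀ ↔ chi (wx j x₀) z τ = 0 := (chi_zero τ).symm

/-- PROOF. As `fix_of_mem`. -/
theorem fix_of_mem3 (j : AlgebraicClosure k ≃ₐ[k] AlgebraicClosure k') {x₀ : k'}
    (hk' : ∀ z : k', ∃ α β γ : k, z = algebraMap k k' α + algebraMap k k' β * x₀ +
      algebraMap k k' γ * x₀ ^ 2) {τ : Gal k} (hτ : τ ∈ stH j x₀) (z : k') :
    τ (j.symm (algebraMap k' (AlgebraicClosure k') z)) =
      j.symm (algebraMap k' (AlgebraicClosure k') z) := by
  obtain ⟨α, β, γ, rfl⟩ := hk' z
  have hτ' : τ (j.symm (algebraMap k' (AlgebraicClosure k') x₀)) =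
    j.symm (algebraMap k' (AlgebraicClosure k') x₀) := hτ
  simp only [map_add, map_mul, map_pow, ← IsScalarTower.algebraMap_apply, AlgEquiv.commutes, hτ']

/-- the elements of `stH` are the restrictions of the elements of `Gal k'` -/
theorem exists_lift3 (j : AlgebraicClosure k ≃ₐ[k] AlgebraicClosure k') {x₀ : k'}
    (hk' : ∀ z : k', ∃ α β γ : k, z = algebraMap k k' α + algebraMap k k' β * x₀ +
      algebraMap k k' γ * x₀ ^ 2) {τ : Gal k} (hτ : τ ∈ stH j x₀) : ∃ σ : Gal k', resG j σ = τ := by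
  let σ : Gal k' := AlgEquiv.ofRingEquiv
    (f := ((j.symm.trans τ).trans j).toRingEquiv) fun z => by
      change j (τ (j.symm (algebraMap k' _ z))) = _
      rw [fix_of_mem3 j hk' hτ z, j.apply_symm_apply]
  have hσ : ∀ x, σ x = j (τ (j.symm x)) := fun x => rfl
  refine ⟨σ, ?_⟩
  ext x
  rw [resG_apply, hσ, j.symm_apply_apply, j.symm_apply_apply]

/-- the restriction is an open embedding -/
theorem resG_openEmb3 (j : AlgebraicClosure k ≃ₐ[k] AlgebraicClosure k') {x₀ : k'}
    (hk' : ∀ z : k', ∃ α β γ : k, z = algebraMap k k' α + algebraMap k k' β * x₀ +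
      algebraMap k k' γ * x₀ ^ 2) : Topology.IsOpenEmbedding (resG j : Gal k' → Gal k) := by
  have hcl : Topology.IsClosedEmbedding (resG j : Gal k' → Gal k) :=
    (resG_continuous j).isClosedEmbedding fun σ τ h => resG_inj j h
  refine ⟨hcl.isEmbedding, ?_⟩
  have h1 : Set.range (resG j : Gal k' → Gal k) = (stH j x₀ : Set (Gal k)) := by
    ext τ
    constructor
    · rintro ⟨σ, rfl⟩
      exact resG_mem j x₀ σ
    · intro hτ
      exact exists_lift3 j hk' hτ
  rw [h1]
  exact stH_isOpen j x₀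

end Pool.Agent.Lib.MP_1a91b9_ntCS.S
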